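import Pool.Agent.Y23.G.Ts4
import Pool.Agent.Y23.Te

/-! # A multiplier which is at most one on the window and larger than one at a point off the line -/

set_option autoImplicit false
set_option linter.unusedSectionVars false
set_option maxHeartbeats 2000000

open Complex Filter Topology Set MeasureTheory Metric
open scoped ComplexConjugate Convolution

namespace Pool.Agent.Y23.G.CB

/-- the normalised transform of the tent function -/
noncomputable def TB (b : ℝ) (v : ℂ) : ℂ := TT (fun x => (tent b x : ℂ)) v / b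

lemma TB_sq {b : ℝ} (hb : 0 < b) (v : ℂ) :
    v ^ 2 * TB b v = (cexp (b * v) + cexp (-(b * v)) - 2) / b ^ 2 := by
  have h := TT_tent hb v
  have hbc : (b : ℂ) ≠ 0 := by exact_mod_cast hb.ne'
  unfold TB
  rw [mul_div_assoc', h, div_div, sq]

lemma TB_cont {b : ℝ} (hb : 0 < b) : Continuous (TB b) :=
  ((differentiable_TT (Fa_tent hb)).continuous).div_const _

/-- the bound in vertical strips -/
lemma TB_le {b : ℝ} (hb : 0 < b) (v : ℂ) : ‖TB b v‖ ≤ 2 * Real.exp (b * |v.re|) := by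
  have h1 : ‖TT (fun x => (tent b x : ℂ)) v‖ ≤ Real.exp (b * |v.re|) * (2 * b) := by
    rw [TT_interval hb (Fa_tent hb)]
    have h2 := intervalIntegral.norm_integral_le_of_norm_le_const (a := -b) (b := b)
      (f := fun x : ℝ => (tent b x : ℂ) * cexp (v * x)) (C := Real.exp (b * |v.re|)) (fun x hx => by
        rw [uIoc_of_le (by linarith)] at hx
        rw [norm_mul, Complex.norm_real, Real.norm_eq_abs, abs_of_nonneg (tent_nonneg hb x), Complex.norm_exp,
          Complex.re_mul_ofReal]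
        have h3 : v.re * x ≤ b * |v.re| := by
          have hx' : |x| ≤ b := abs_le.2 ⟨hx.1.le, hx.2⟩
          calc v.re * x ≤ |v.re * x| := le_abs_self _
            _ = |v.re| * |x| := abs_mul _ _
            _ ≤ |v.re| * b := mul_le_mul_of_nonneg_left hx' (abs_nonneg _)
            _ = _ := mul_comm _ _
        have h4 := tent_le hb x
        have h5 := tent_nonneg hb x
        have h6 := Real.exp_le_exp.2 h3
        calc tent b x * Real.exp (v.re * x) ≤ 1 * Real.exp (b * |v.re|) :=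
              mul_le_mul h4 h6 (Real.exp_pos _).le zero_le_one
          _ = _ := one_mul _)
    have h7 : |b - -b| = 2 * b := by rw [sub_neg_eq_add, abs_of_pos (by linarith)]; ring
    rw [h7] at h2
    exact h2
  unfold TB
  rw [norm_div, Complex.norm_real, Real.norm_eq_abs, abs_of_pos hb, div_le_iff₀ hb]
  linarith

/-- the bound on the line -/
lemma TB_line {b : ℝ} (hb : 0 < b) (y : ℝ) : ‖TB b (y * I)‖ ≤ 1 := by
  have hcl : IsClosed {y : ℝ | ‖TB b (y * I)‖ ≤ 1} := by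
    refine isClosed_le ?_ continuous_const
    exact ((TB_cont hb).comp (by fun_prop : Continuous fun y : ℝ => (y : ℂ) * I)).norm
  have hd : Dense ({0}ᶜ : Set ℝ) := dense_compl_singleton 0
  have hs : ({0}ᶜ : Set ℝ) ⊆ {y | ‖TB b (y * I)‖ ≤ 1} := by
    intro y hy
    have hy0 : y ≠ 0 := hy
    show ‖TB b (y * I)‖ ≤ 1
    have h := TB_sq hb (y * I)
    have h1 : ((y : ℂ) * I) ^ 2 = ((-(y ^ 2) : ℝ) : ℂ) := by
      rw [mul_pow, Complex.I_sq]
      push_cast
      ring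
    have h2 : cexp (b * (y * I)) + cexp (-(b * (y * I))) - 2 = ((2 * Real.cos (b * y) - 2 : ℝ) : ℂ) := by
      have e1 : (b : ℂ) * (y * I) = ((b * y : ℝ) : ℂ) * I := by push_cast; ring
      rw [e1, show -(((b * y : ℝ) : ℂ) * I) = (-((b * y : ℝ) : ℂ)) * I by ring]
      have := Complex.two_cos ((b * y : ℝ) : ℂ)
      rw [← this]
      push_cast
      ring
    rw [h1, h2] at h
    have h3 := congrArg norm h
    rw [norm_mul, Complex.norm_real, Real.norm_eq_abs, abs_neg, abs_of_nonneg (sq_nonneg y), norm_div,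
      Complex.norm_real, norm_pow, Complex.norm_real, Real.norm_eq_abs, Real.norm_eq_abs, abs_of_pos hb] at h3
    have h4 : |2 * Real.cos (b * y) - 2| ≤ (b * y) ^ 2 := by
      have h5 := Real.one_sub_sq_div_two_le_cos (x := b * y)
      have h6 := Real.cos_le_one (b * y)
      rw [abs_of_nonpos (by linarith)]
      linarith
    have hy2 : 0 < y ^ 2 := by positivity
    have h5 : y ^ 2 * ‖TB b (y * I)‖ ≤ y ^ 2 * 1 := by
      rw [h3, mul_one, div_le_iff₀ (by positivity)]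
      calc _ ≤ (b * y) ^ 2 := h4
        _ = _ := by ring
    exact le_of_mul_le_mul_left h5 hy2
  exact (hcl.closure_subset_iff.2 hs) (hd y)

lemma exp_two_ge (x : ℝ) : x ^ 2 ≤ Real.exp x + Real.exp (-x) - 2 := by
  have h1 : Real.exp x + Real.exp (-x) - 2 = (2 * Real.sinh (x / 2)) ^ 2 := by
    rw [Real.sinh_eq]
    have e1 : Real.exp x = Real.exp (x / 2) ^ 2 := by rw [← Real.exp_nat_mul]; congr 1; push_cast; ring
    have e2 : Real.exp (-x) = Real.exp (-(x / 2)) ^ 2 := by rw [← Real.exp_nat_mul]; congr 1; push_cast; ring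
    have e3 : Real.exp (x / 2) * Real.exp (-(x / 2)) = 1 := by rw [← Real.exp_add]; simp
    rw [e1, e2]
    nlinarith
  rw [h1]
  have h2 : |x| ≤ |2 * Real.sinh (x / 2)| := by
    rw [abs_mul, abs_two]
    have h3 : |x / 2| ≤ |Real.sinh (x / 2)| := by
      rcases le_total 0 (x / 2) with h | h
      · have h4 := Real.self_le_sinh_iff.2 h
        rw [abs_of_nonneg h, abs_of_nonneg (h.trans h4)]
        exact h4
      · have h4 := Real.self_le_sinh_iff.2 (neg_nonneg.2 h)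
        rw [Real.sinh_neg] at h4
        rw [abs_of_nonpos h, abs_of_nonpos (by linarith)]
        exact h4
    rw [abs_div, abs_two] at h3
    linarith
  exact sq_le_sq.2 h2

/-- the value at a real point -/
lemma TB_real {b σ : ℝ} (hb : 0 < b) (hσ : σ ≠ 0) : 1 ≤ ‖TB b σ‖ := by
  have h := TB_sq hb σ
  have h2 : cexp (b * σ) + cexp (-(b * σ)) - 2 = ((Real.exp (b * σ) + Real.exp (-(b * σ)) - 2 : ℝ) : ℂ) := by
    push_cast
    ring
  rw [h2] at h
  have h3 := congrArg norm h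
  have h4 := exp_two_ge (b * σ)
  have h5 : 0 ≤ (b * σ) ^ 2 := sq_nonneg _
  rw [norm_mul, norm_pow, Complex.norm_real, Real.norm_eq_abs, sq_abs, norm_div, Complex.norm_real, norm_pow,
    Complex.norm_real, Real.norm_eq_abs, Real.norm_eq_abs, abs_of_pos hb, abs_of_nonneg (by linarith)] at h3
  have hy2 : 0 < σ ^ 2 := by positivity
  have h6 : σ ^ 2 * 1 ≤ σ ^ 2 * ‖TB b σ‖ := by
    rw [h3, mul_one, le_div_iff₀ (by positivity)]
    calc σ ^ 2 * b ^ 2 = (b * σ) ^ 2 := by ring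
      _ ≤ _ := h4
  exact le_of_mul_le_mul_left h6 hy2

/-- the multiplier -/
noncomputable def UB (b ε τ : ℝ) (w : ℂ) : ℂ := TB b (w - τ * I) ^ 2 * (1 + ε * (w - τ * I) ^ 2)

lemma UB_window {b ε τ t : ℝ} (hb : 0 < b) (hε : 0 ≤ ε) (ht : ε * (t - τ) ^ 2 ≤ 1) : ‖UB b ε τ (t * I)‖ ≤ 1 := by
  unfold UB
  have e : (t : ℂ) * I - τ * I = ((t - τ : ℝ) : ℂ) * I := by push_cast; ring
  rw [e, norm_mul, norm_pow]
  have h1 := TB_line hb (t - τ)
  have h2 : ‖1 + (ε : ℂ) * (((t - τ : ℝ) : ℂ) * I) ^ 2‖ ≤ 1 := by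
    have e2 : 1 + (ε : ℂ) * (((t - τ : ℝ) : ℂ) * I) ^ 2 = ((1 - ε * (t - τ) ^ 2 : ℝ) : ℂ) := by
      rw [mul_pow, Complex.I_sq]
      push_cast
      ring
    rw [e2, Complex.norm_real, Real.norm_eq_abs, abs_le]
    have : 0 ≤ ε * (t - τ) ^ 2 := by positivity
    constructor <;> linarith
  calc ‖TB b (((t - τ : ℝ) : ℂ) * I)‖ ^ 2 * ‖1 + (ε : ℂ) * (((t - τ : ℝ) : ℂ) * I) ^ 2‖ ≤ 1 ^ 2 * 1 := by
        gcongr
    _ = 1 := by norm_num

lemma UB_strip {b ε τ : ℝ} (hb : 0 < b) (hb1 : b ≤ 1) (hε : 0 ≤ ε) (hε1 : ε ≤ 1) {w : ℂ} (hw : |w.re| ≤ 1) :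
    ‖UB b ε τ w‖ ≤ 100 / b ^ 2 := by
  set v : ℂ := w - τ * I with hv
  have hvre : |v.re| ≤ 1 := by
    have : v.re = w.re := by rw [hv]; simp
    rw [this]; exact hw
  have e : UB b ε τ w = TB b v * (TB b v + ε * (v ^ 2 * TB b v)) := by
    unfold UB
    rw [← hv]
    ring
  have hE1 : Real.exp 1 ≤ 2.7182818286 := Real.exp_one_lt_d9.le
  have hbv : b * |v.re| ≤ 1 := by
    have := mul_le_mul hb1 hvre (abs_nonneg _) zero_le_one
    linarith
  have h1 : ‖TB b v‖ ≤ 5.5 := by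
    refine (TB_le hb v).trans ?_
    have := Real.exp_le_exp.2 hbv
    linarith
  have hbre : ∀ s : ℂ, s = b * v ∨ s = -(b * v) → ‖cexp s‖ ≤ 2.7182818286 := by
    intro s hs
    rw [Complex.norm_exp]
    refine le_trans (Real.exp_le_exp.2 ?_) hE1
    have h3 : (b * v : ℂ).re = b * v.re := by rw [Complex.re_ofReal_mul]
    have h4 : |b * v.re| ≤ 1 := by rw [abs_mul, abs_of_pos hb]; exact hbv
    rcases hs with rfl | rfl
    · rw [h3]; exact (le_abs_self _).trans h4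
    · rw [Complex.neg_re, h3]; exact (neg_le_abs _).trans h4
  have h2 : ‖v ^ 2 * TB b v‖ ≤ 8 / b ^ 2 := by
    rw [TB_sq hb, norm_div, norm_pow, Complex.norm_real, Real.norm_eq_abs, abs_of_pos hb]
    refine div_le_div_of_nonneg_right ?_ (by positivity)
    refine (norm_sub_le _ _).trans ?_
    have h3 := norm_add_le (cexp (b * v)) (cexp (-(b * v)))
    have h4 := hbre _ (Or.inl rfl)
    have h5 := hbre _ (Or.inr rfl)
    have h6 : ‖(2 : ℂ)‖ = 2 := by simp
    rw [h6]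
    linarith
  have hb2 : 1 ≤ 1 / b ^ 2 := by
    rw [le_div_iff₀ (by positivity), one_mul]
    nlinarith
  have h3 : ‖TB b v + ε * (v ^ 2 * TB b v)‖ ≤ 13.5 / b ^ 2 := by
    refine (norm_add_le _ _).trans ?_
    rw [norm_mul (ε : ℂ), Complex.norm_real, Real.norm_eq_abs, abs_of_nonneg hε]
    have h4 : ε * ‖v ^ 2 * TB b v‖ ≤ 1 * (8 / b ^ 2) := mul_le_mul hε1 h2 (norm_nonneg _) zero_le_one
    have h5 : ‖TB b v‖ ≤ 5.5 * (1 / b ^ 2) := by linarith
    calc _ ≤ 5.5 * (1 / b ^ 2) + 1 * (8 / b ^ 2) := add_le_add h5 h4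
      _ = _ := by ring
  rw [e, norm_mul]
  calc ‖TB b v‖ * ‖TB b v + ε * (v ^ 2 * TB b v)‖ ≤ 5.5 * (13.5 / b ^ 2) :=
        mul_le_mul h1 h3 (norm_nonneg _) (by norm_num)
    _ ≤ 100 / b ^ 2 := by
        rw [mul_div_assoc']
        exact div_le_div_of_nonneg_right (by norm_num) (by positivity)

lemma UB_off {b ε : ℝ} {w0 : ℂ} (hb : 0 < b) (hε : 0 ≤ ε) (hσ : w0.re ≠ 0) : 1 + ε * w0.re ^ 2 ≤ ‖UB b ε w0.im w0‖ := by
  unfold UB
  have e : w0 - w0.im * I = (w0.re : ℂ) := by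
    apply Complex.ext <;> simp
  rw [e, norm_mul, norm_pow]
  have h1 := TB_real hb hσ
  have h2 : ‖1 + (ε : ℂ) * (w0.re : ℂ) ^ 2‖ = 1 + ε * w0.re ^ 2 := by
    have e2 : 1 + (ε : ℂ) * (w0.re : ℂ) ^ 2 = ((1 + ε * w0.re ^ 2 : ℝ) : ℂ) := by push_cast; ring
    rw [e2, Complex.norm_real, Real.norm_eq_abs, abs_of_nonneg (by positivity)]
  rw [h2]
  have h3 : (1 : ℝ) ≤ ‖TB b (w0.re : ℂ)‖ ^ 2 := one_le_pow₀ h1
  have h4 : 0 ≤ 1 + ε * w0.re ^ 2 := by positivity
  nlinarith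

/-- one multiplication -/
lemma step {b : ℝ} (hb : 0 < b) (ε τ : ℝ) {c : ℝ} (hc : 0 ≤ c) {g : ℝ → ℂ} (hg : Fa c g) :
    ∃ g' : ℝ → ℂ, Fa (c + 2 * b) g' ∧ ∀ w, TT g' w = TT g w * UB b ε τ w := by
  set ψ : ℝ → ℂ := fun x => (tent b x : ℂ) * cexp (-(τ * I) * x) with hψ
  have hψF : Fa b ψ := (Fa_tent hb).mul_bdd (g := fun x : ℝ => cexp (-(τ * I) * x)) (by fun_prop)
  have hbc : (b : ℂ) ≠ 0 := by exact_mod_cast hb.ne'
  have hψT : ∀ w, TT ψ w = b * TB b (w - τ * I) := by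
    intro w
    simp only [hψ]
    rw [TT_mul_exp]
    unfold TB
    rw [mul_div_cancel₀ _ hbc]
    congr 1
    ring
  have hψb : ∀ x, ‖ψ x‖ ≤ 1 := by
    intro x
    simp only [hψ]
    rw [norm_mul, Complex.norm_exp, Complex.norm_real, Real.norm_eq_abs, abs_of_nonneg (tent_nonneg hb x)]
    have h1 : (-(τ * I) * (x : ℂ)).re = 0 := by simp
    rw [h1, Real.exp_zero, mul_one]
    exact tent_le hb x
  obtain ⟨h, hh, hhT⟩ := conv_TT hg hψF hψb
  obtain ⟨h2, hh2, hh2T⟩ := conv_TT hh hψF hψb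
  have hF1 : Fa (c + b + b) (fun u => h (u + -b)) := Pool.Agent.Y23.Fa_shift (by rw [abs_neg, abs_of_pos hb]) hh
  have hF2 : Fa (c + b + b) (fun u => h (u + b)) := Pool.Agent.Y23.Fa_shift (by rw [abs_of_pos hb]) hh
  have hF3 : Fa (c + b + b) h := hh.mono (by linarith)
  set e1 : ℂ := cexp (-(b * (τ * I))) with he1
  set e2 : ℂ := cexp (b * (τ * I)) with he2
  set k : ℂ := ε / b ^ 3 with hk
  set G : ℝ → ℂ := fun x => (1 / (b : ℂ) ^ 2) * h2 x + (k * e1 * h (x + -b) + (k * e2 * h (x + b) + -(2 * k) * h x)) with hG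
  have hG1 : Fa (c + b + b) (fun x => k * e2 * h (x + b) + -(2 * k) * h x) := (hF2.smul _).add (hF3.smul _)
  have hG2 : Fa (c + b + b) (fun x => k * e1 * h (x + -b) + (k * e2 * h (x + b) + -(2 * k) * h x)) := (hF1.smul _).add hG1
  refine ⟨G, ?_, fun w => ?_⟩
  · have : c + 2 * b = c + b + b := by ring
    rw [this]
    exact (hh2.smul _).add hG2
  · simp only [hG]
    rw [TT_add (hh2.smul _) hG2, TT_add (hF1.smul _) hG1, TT_add (hF2.smul _) (hF3.smul _), TT_smul, TT_smul (fun x => h (x + -b)),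
      TT_smul (fun x => h (x + b)), TT_smul h, Pool.Agent.Y23.TT_shift, Pool.Agent.Y23.TT_shift, hh2T, hhT, hψT]
    set v : ℂ := w - τ * I with hv
    have hw : w = v + τ * I := by rw [hv]; ring
    have hsq := TB_sq hb v
    have x1 : cexp (-(w * ((-b : ℝ) : ℂ))) * e1 = cexp (b * v) := by
      rw [he1, ← Complex.exp_add]
      congr 1
      rw [hw]
      push_cast
      ring
    have x2 : cexp (-(w * (b : ℂ))) * e2 = cexp (-(b * v)) := by
      rw [he2, ← Complex.exp_add]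
      congr 1
      rw [hw]
      ring
    unfold UB
    rw [← hv]
    have x3 : (1 : ℂ) / (b : ℂ) ^ 2 * (TT g w * (b * TB b v) * (b * TB b v)) = TT g w * TB b v ^ 2 := by
      field_simp
    have x4 : k * e1 * (cexp (-(w * ((-b : ℝ) : ℂ))) * (TT g w * (b * TB b v))) +
        (k * e2 * (cexp (-(w * (b : ℂ))) * (TT g w * (b * TB b v))) + -(2 * k) * (TT g w * (b * TB b v))) =
        TT g w * TB b v * (ε * ((cexp (b * v) + cexp (-(b * v)) - 2) / b ^ 2)) := by
      rw [← x1, ← x2, hk]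
      field_simp
      ring
    rw [x3, x4, ← hsq]
    ring

/-- `n` multiplications -/
lemma steps {b : ℝ} (hb : 0 < b) (ε τ : ℝ) {c : ℝ} (hc : 0 ≤ c) {g : ℝ → ℂ} (hg : Fa c g) (n : ℕ) :
    ∃ g' : ℝ → ℂ, Fa (c + 2 * b * n) g' ∧ ∀ w, TT g' w = TT g w * UB b ε τ w ^ n := by
  induction n with
  | zero => exact ⟨g, by simpa using hg, fun w => by simp⟩
  | succ n ih =>
    obtain ⟨g1, h1, h2⟩ := ih
    obtain ⟨g2, h3, h4⟩ := step hb ε τ (by positivity) h1
    refine ⟨g2, ?_, fun w => ?_⟩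
    · have : c + 2 * b * ((n + 1 : ℕ) : ℝ) = c + 2 * b * n + 2 * b := by push_cast; ring
      rw [this]
      exact h3
    · rw [h4, h2, pow_succ]
      ring

end Pool.Agent.Y23.G.CB
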