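import Pool.Agent.Run7.h336.CB.B16
import Pool.Agent.Run7.h336.CB.B19

/-! # Test functions which are very large at one zero off the line -/

set_option autoImplicit false
set_option linter.unusedSectionVars false
set_option maxHeartbeats 2000000

open Complex Filter Topology Set MeasureTheory Metric
open scoped ComplexConjugate Convolution

namespace Pool.Agent.Y23.G.CB

/-- `exp (2 a / m) / a` tends to infinity -/
lemma XA_lim {m : ℝ} (hm : 0 < m) : Tendsto (fun a : ℝ => Real.exp (2 * a / m) / a) atTop atTop := by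
  have h1 := (Real.tendsto_exp_div_pow_atTop 1).comp (tendsto_id.const_mul_atTop (show (0 : ℝ) < 2 / m by positivity))
  have h2 := h1.const_mul_atTop (show (0 : ℝ) < 2 / m by positivity)
  refine h2.congr fun a => ?_
  simp only [Function.comp_apply, id, pow_one]
  have : 2 / m * a = 2 * a / m := by ring
  rw [this]
  field_simp

/-- the size of the power of the multiplier -/
lemma UB_pow {n : ℕ} {a y : ℝ} (hn : 0 < n) (ha : 4 ≤ a) (hn2 : Real.log n ≤ 2 * a) (hny : n * (10 * a) ≤ y)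
    {ε τ : ℝ} (hε : 0 ≤ ε) (hε1 : ε ≤ 1) {w : ℂ} (hw : |w.re| ≤ 1) :
    ‖UB (1 / (2 * n)) ε τ w ^ n‖ ≤ Real.exp y := by
  have hnr : (0 : ℝ) < n := by exact_mod_cast hn
  have hn1 : (1 : ℝ) ≤ n := by exact_mod_cast hn
  have hb0 : (0 : ℝ) < 1 / (2 * n) := by positivity
  have hb1 : (1 : ℝ) / (2 * n) ≤ 1 := by
    rw [div_le_one (by positivity)]
    linarith
  have h1 := UB_strip (τ := τ) hb0 hb1 hε hε1 hw
  have h2 : (100 : ℝ) / (1 / (2 * n)) ^ 2 = 400 * n ^ 2 := by field_simp; norm_num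
  rw [h2] at h1
  have h3 : (400 : ℝ) * n ^ 2 ≤ Real.exp (10 * a) := by
    have h4 : (n : ℝ) ≤ Real.exp (2 * a) := by
      rw [← Real.exp_log hnr]
      exact Real.exp_le_exp.2 hn2
    have h5 : (n : ℝ) ^ 2 ≤ Real.exp (2 * a) ^ 2 := pow_le_pow_left₀ hnr.le h4 2
    have h6 : Real.exp (2 * a) ^ 2 = Real.exp (4 * a) := by rw [← Real.exp_nat_mul]; congr 1; push_cast; ring
    have h7 : (400 : ℝ) ≤ Real.exp (6 * a) := by
      have h8 : (2 : ℝ) ^ 24 ≤ Real.exp (6 * a) := by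
        have h9 : (2 : ℝ) ≤ Real.exp 1 := by linarith [Real.add_one_le_exp (1 : ℝ)]
        calc (2 : ℝ) ^ 24 ≤ Real.exp 1 ^ 24 := pow_le_pow_left₀ (by norm_num) h9 24
          _ = Real.exp 24 := by rw [← Real.exp_nat_mul]; norm_num
          _ ≤ Real.exp (6 * a) := Real.exp_le_exp.2 (by linarith)
      linarith [h8, (by norm_num : (400 : ℝ) ≤ 2 ^ 24)]
    calc (400 : ℝ) * n ^ 2 ≤ Real.exp (6 * a) * Real.exp (4 * a) := by
          rw [h6] at h5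
          exact mul_le_mul h7 h5 (by positivity) (Real.exp_pos _).le
      _ = _ := by rw [← Real.exp_add]; congr 1; ring
  rw [norm_pow]
  calc ‖UB (1 / (2 * n)) ε τ w‖ ^ n ≤ Real.exp (10 * a) ^ n := pow_le_pow_left₀ (norm_nonneg _) (h1.trans h3) n
    _ = Real.exp (n * (10 * a)) := by rw [← Real.exp_nat_mul]
    _ ≤ _ := Real.exp_le_exp.2 hny

/-- the number of factors -/
lemma number {ν X a : ℝ} (hν : 0 < ν) (ha0 : 0 < a) (hX0 : 0 < X) (k1 : 1 / ν ≤ X / a) (k3 : 2 * ν ≤ a)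
    (hlog : Real.log X ≤ 2 * a) : ∃ n : ℕ, 0 < n ∧ ν * (X / a) ≤ n ∧ Real.log n ≤ 2 * a ∧ n * (10 * a) ≤ 20 * ν * X := by
  have hnr : (0 : ℝ) < ((⌊ν * (X / a)⌋₊ + 1 : ℕ) : ℝ) := by exact_mod_cast Nat.succ_pos _
  have hnl : ν * (X / a) ≤ ((⌊ν * (X / a)⌋₊ + 1 : ℕ) : ℝ) := by
    have := (Nat.lt_floor_add_one (ν * (X / a))).le
    push_cast; exact this
  have hνX : 1 ≤ ν * (X / a) := by
    have := mul_le_mul_of_nonneg_left k1 hν.le
    rwa [mul_one_div_cancel hν.ne'] at this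
  have hnu : ((⌊ν * (X / a)⌋₊ + 1 : ℕ) : ℝ) ≤ 2 * ν * (X / a) := by
    have h1 := Nat.floor_le (show 0 ≤ ν * (X / a) by positivity)
    push_cast
    linarith
  have hnX : ((⌊ν * (X / a)⌋₊ + 1 : ℕ) : ℝ) ≤ X := by
    refine hnu.trans ?_
    rw [mul_div_assoc', div_le_iff₀ ha0]
    have := mul_le_mul_of_nonneg_right k3 hX0.le
    linarith
  refine ⟨⌊ν * (X / a)⌋₊ + 1, Nat.succ_pos _, hnl, (Real.log_le_log hnr hnX).trans hlog, ?_⟩
  have h4 := mul_le_mul_of_nonneg_right hnu (show 0 ≤ 10 * a by positivity)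
  have h5 : 2 * ν * (X / a) * (10 * a) = 20 * ν * X := by field_simp; ring
  rw [h5] at h4
  exact h4

/-- the kernel centred at `w0` -/
lemma kern {w0 : ℂ} (hw0 : |w0.re| ≤ 1) : ∃ (κ : ℝ → ℂ) (Ck p M : ℝ), 0 < Ck ∧ 0 < p ∧ Fa 1 κ ∧ (∀ x, ‖κ x‖ ≤ M) ∧
    ‖TT κ w0‖ = p ∧ (∀ w : ℂ, |w.re| ≤ 1 → ‖TT κ w‖ ≤ Ck / (1 + (w.im - w0.im) ^ 2)) ∧
    ∀ w : ℂ, |w.re| ≤ 1 → ‖TT κ w‖ ≤ Ck := by
  obtain ⟨Ck, hCk, hkb⟩ := kap_boundR (a := 1 / 2) (by norm_num) (r := 2)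
  have hk0 := TT_kap_zero (η := 1 / 2) (by norm_num)
  have hκF : Fa 1 (fun x => kap (1 / 2) x * cexp (-w0 * x)) := by
    have := (Fa_kap (a := 1 / 2) (by norm_num)).mul_bdd (g := fun x : ℝ => cexp (-w0 * x)) (by fun_prop)
    rwa [show 2 * (1 / 2 : ℝ) = 1 by ring] at this
  have hκT : ∀ w, TT (fun x => kap (1 / 2) x * cexp (-w0 * x)) w = TT (kap (1 / 2)) (-w0 + w) := fun w => TT_mul_exp _ _ _
  have hκB : ∀ w : ℂ, |w.re| ≤ 1 → ‖TT (fun x => kap (1 / 2) x * cexp (-w0 * x)) w‖ ≤ Ck / (1 + (w.im - w0.im) ^ 2) := by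
    intro w hw
    rw [hκT]
    have h3 := hkb (-w0 + w) (by
      rw [Complex.add_re, Complex.neg_re]
      calc |-w0.re + w.re| ≤ |-w0.re| + |w.re| := abs_add_le _ _
        _ ≤ 1 + 1 := by rw [abs_neg]; linarith
        _ = 2 := by norm_num)
    have h4 : (-w0 + w).im = w.im - w0.im := by simp; ring
    rwa [h4] at h3
  refine ⟨fun x => kap (1 / 2) x * cexp (-w0 * x), Ck, ‖TT (kap (1 / 2)) 0‖, 3 * Real.exp 1, hCk, norm_pos_iff.2 hk0, hκF,
    fun x => ?_, by rw [hκT, neg_add_cancel], hκB, fun w hw => ?_⟩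
  · by_cases hx : 1 < |x|
    · rw [hκF.2 x hx, norm_zero]
      positivity
    · rw [not_lt] at hx
      rw [norm_mul, Complex.norm_exp]
      have h1 : (-w0 * (x : ℂ)).re ≤ 1 := by
        rw [Complex.re_mul_ofReal, Complex.neg_re]
        calc -w0.re * x ≤ |-w0.re * x| := le_abs_self _
          _ = |w0.re| * |x| := by rw [abs_mul, abs_neg]
          _ ≤ 1 * 1 := mul_le_mul hw0 hx (abs_nonneg _) zero_le_one
          _ = 1 := one_mul 1
      exact mul_le_mul (kap_bdd (by norm_num) x) (Real.exp_le_exp.2 h1) (Real.exp_pos _).le (by norm_num)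
  · refine (hκB w hw).trans (div_le_self hCk.le ?_)
    have := sq_nonneg (w.im - w0.im)
    linarith

variable [K : Win] [L : LFun]

/-- the mass of a function which is bounded on the window -/
lemma NH_le_bound {a : ℝ} {g : ℝ → ℂ} (hg : Fa a g) {M1 : ℝ}
    (h : ∀ t ∈ wi (K := K), ‖TT g (t * I)‖ ≤ M1) : NH g ≤ M1 ^ 2 * (2 * K.k) := by
  have hk := K.pos
  have h1 : ∀ t ∈ wi (K := K), ‖TT g (t * I)‖ ^ 2 ≤ M1 ^ 2 := fun t ht => pow_le_pow_left₀ (norm_nonneg _) (h t ht) 2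
  calc NH g = ∫ t in wi (K := K), ‖TT g (t * I)‖ ^ 2 := rfl
    _ ≤ ∫ t in wi (K := K), M1 ^ 2 := by
        refine setIntegral_mono_on (NH_int hg) ?_ wi_meas h1
        exact integrableOn_const (wi_compact (K := K)).measure_lt_top.ne
    _ = (volume.real (wi (K := K))) * M1 ^ 2 := by
        rw [setIntegral_const, smul_eq_mul]
    _ ≤ (2 * K.k) * M1 ^ 2 := by
        refine mul_le_mul_of_nonneg_right ?_ (sq_nonneg _)
        have h2 : volume.real (wi (K := K)) ≤ volume.real (Icc (-K.k) K.k) :=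
          measureReal_mono (fun t ht => abs_le.1 (mem_wi ht)) (by rw [Real.volume_Icc]; exact ENNReal.ofReal_ne_top)
        rw [Real.volume_real_Icc, max_eq_left (by linarith)] at h2
        linarith
    _ = _ := mul_comm _ _

/-- the width of the multiplier -/
lemma epsw (τ : ℝ) : ∃ ε : ℝ, 0 < ε ∧ ε ≤ 1 ∧ ∀ t ∈ wi (K := K), ε * (t - τ) ^ 2 ≤ 1 := by
  have hk := K.pos
  have hd1 : 1 ≤ K.k + |τ| + 1 := by have := abs_nonneg τ; linarith
  refine ⟨1 / (K.k + |τ| + 1) ^ 2, by positivity, ?_, fun t ht => ?_⟩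
  · rw [div_le_one (by positivity)]
    exact one_le_pow₀ hd1
  · have h1 := mem_wi ht
    have h2 : |t - τ| ≤ K.k + |τ| + 1 := by
      have := abs_sub t τ
      linarith
    have h3 : (t - τ) ^ 2 ≤ (K.k + |τ| + 1) ^ 2 := by
      rw [← sq_abs]
      exact pow_le_pow_left₀ (abs_nonneg _) h2 2
    rw [div_mul_eq_mul_div, one_mul, div_le_one (by positivity)]
    exact h3

/-- the base function: close to a function which vanishes at all zeros but one -/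
lemma base (w0 : ℂ) : ∃ B C h0 M0 : ℝ, 0 ≤ B ∧ 0 < C ∧ 0 < h0 ∧ 0 < M0 ∧ ∀ b : ℝ, 0 ≤ b →
    C * Real.exp (B * (1 + b) - cc * Real.exp (2 * b / L.m)) ≤ min 1 (h0 / 2) → ∃ f : ℝ → ℂ, Fa b f ∧
      (|w0.re| ≤ 1 → h0 / 2 ≤ ‖TT f w0‖ ∧ ‖TT f w0‖ ≤ h0 + 1) ∧ (∀ t : ℝ, ‖TT f (t * I)‖ ≤ M0) ∧
      ∀ w : ℂ, |w.re| ≤ 1 → L.X (1 / 2 + w) = 0 → w ≠ w0 →
        ‖TT f w‖ ≤ C * Real.exp (B * (1 + b) - cc * Real.exp (2 * b / L.m)) := by
  obtain ⟨A, hA, hXb⟩ := X_all (L := L)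
  obtain ⟨H, MH, hH, hMH, hHb, hHz, hH0⟩ := zfun (L := L) hA hXb w0
  obtain ⟨B, C, hB, hC, hcut⟩ := cut (L := L) hA hMH hH hHb (R := 1) zero_le_one
  refine ⟨B, C, ‖H w0‖, 1 + MH * Real.exp (Ex A 0), hB, hC, norm_pos_iff.2 hH0, by positivity, fun b hb hs => ?_⟩
  obtain ⟨f, hf, hfb⟩ := hcut b hb
  have hs1 := hs.trans (min_le_left _ _)
  have hs2 := hs.trans (min_le_right _ _)
  refine ⟨f, hf, fun hw0 => ⟨?_, ?_⟩, fun t => ?_, fun w hw hX hne => ?_⟩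
  · have h1 := hfb w0 hw0
    have h2 : ‖H w0‖ ≤ ‖TT f w0‖ + ‖TT f w0 - H w0‖ := by
      have e : H w0 = TT f w0 - (TT f w0 - H w0) := by ring
      calc ‖H w0‖ = ‖TT f w0 - (TT f w0 - H w0)‖ := by rw [← e]
        _ ≤ _ := norm_sub_le _ _
    linarith
  · have h1 := hfb w0 hw0
    have e : TT f w0 = H w0 + (TT f w0 - H w0) := by ring
    calc ‖TT f w0‖ = ‖H w0 + (TT f w0 - H w0)‖ := by rw [← e]
      _ ≤ ‖H w0‖ + ‖TT f w0 - H w0‖ := norm_add_le _ _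
      _ ≤ _ := by linarith
  · have hre : ((t : ℂ) * I).re = 0 := by simp
    have hre' : |((t : ℂ) * I).re| ≤ 1 := by rw [hre, abs_zero]; exact zero_le_one
    have h2 := hfb (t * I) hre'
    have h3 := hHb (t * I)
    rw [hre, abs_zero] at h3
    have h4 : MH * Real.exp (Ex A 0) / (1 + ((t : ℂ) * I).im ^ 2) ≤ MH * Real.exp (Ex A 0) := by
      refine div_le_self (by positivity) ?_
      have := sq_nonneg ((t : ℂ) * I).im
      linarith
    have h5 : ‖TT f (t * I)‖ ≤ ‖H (t * I)‖ + ‖TT f (t * I) - H (t * I)‖ := by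
      have e : TT f (t * I) = H (t * I) + (TT f (t * I) - H (t * I)) := by ring
      calc ‖TT f (t * I)‖ = ‖H (t * I) + (TT f (t * I) - H (t * I))‖ := by rw [← e]
        _ ≤ _ := norm_add_le _ _
    linarith
  · have := hfb w hw
    rwa [hHz w hX hne, sub_zero] at this

/-- algebra -/
lemma alg_big {T h Ck Z E e : ℝ} (hT : 0 < T) (hh : 0 < h) (hCk : 0 < Ck) (hZ : 0 ≤ Z) (hE : 1 ≤ E)
    (he : E * E * e ≤ 1) (hD : T * ((1 + Ck) * (1 + (h + 1) * Ck) * (4 * (Z + 1))) ≤ e) :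
    0 < T * E * Ck ∧ T * E * Ck ≤ 1 ∧ 4 * ((1 + (h + 1) * Ck) * E) * (T * E * Ck) * Z ≤ 1 ∧
      1 ≤ (1 + (h + 1) * Ck) * E ∧ (h + 1) * E * Ck ≤ (1 + (h + 1) * Ck) * E := by
  have hE0 : 0 < E := by linarith
  have q2 : 1 ≤ 1 + (h + 1) * Ck := by
    have : 0 ≤ (h + 1) * Ck := by positivity
    linarith
  have hM1 : 1 ≤ (1 + (h + 1) * Ck) * E := one_le_mul_of_one_le_of_one_le q2 hE
  have h1 : T * Ck * ((1 + (h + 1) * Ck) * (4 * (Z + 1))) ≤ e := by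
    refine le_trans ?_ hD
    have h2 : T * Ck * ((1 + (h + 1) * Ck) * (4 * (Z + 1))) = T * (Ck * (1 + (h + 1) * Ck) * (4 * (Z + 1))) := by ring
    rw [h2]
    gcongr
    linarith
  have h3 : (4 * ((1 + (h + 1) * Ck) * E)) * (T * E * Ck) * (Z + 1) ≤ 1 := by
    have e1 : (4 * ((1 + (h + 1) * Ck) * E)) * (T * E * Ck) * (Z + 1) =
      (T * Ck * ((1 + (h + 1) * Ck) * (4 * (Z + 1)))) * (E * E) := by ring
    rw [e1]
    refine le_trans (mul_le_mul_of_nonneg_right h1 (by positivity)) ?_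
    linarith
  have hp : 0 < (1 + (h + 1) * Ck) * E * (T * E * Ck) := by positivity
  have hTE : 0 < T * E * Ck := by positivity
  refine ⟨hTE, ?_, ?_, hM1, by linarith⟩
  · have h4 : T * E * Ck ≤ (1 + (h + 1) * Ck) * E * (T * E * Ck) := le_mul_of_one_le_left hTE.le hM1
    have h5 : (1 + (h + 1) * Ck) * E * (T * E * Ck) * 1 ≤ (1 + (h + 1) * Ck) * E * (T * E * Ck) * (4 * (Z + 1)) :=
      mul_le_mul_of_nonneg_left (by linarith) hp.le
    linarith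
  · linarith

/-- **test functions which are very large at one zero off the line** -/
lemma test_big {w0 : ℂ} (hw0 : |w0.re| ≤ 1) (hσ : w0.re ≠ 0) (Z0 : ℝ) (hZ0 : 0 ≤ Z0) :
    ∃ c N1 A1 : ℝ, 0 < c ∧ 0 < N1 ∧ 1 ≤ A1 ∧ ∀ a : ℝ, A1 ≤ a →
    ∃ (g : ℝ → ℂ) (M δ : ℝ), Fa a g ∧ 1 ≤ M ∧ 0 < δ ∧ δ ≤ 1 ∧ 4 * M * δ * Z0 ≤ 1 ∧
      Real.exp (c * (Real.exp (2 * a / L.m) / a)) ≤ ‖TT g w0‖ ∧ ‖TT g w0‖ ≤ M ∧ NH g ≤ N1 ∧
      ∀ w : ℂ, |w.re| ≤ 1 → L.X (1 / 2 + w) = 0 → w ≠ w0 → ‖TT g w‖ ≤ δ / (1 + (w.im - w0.im) ^ 2) := by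
  have hm1 := m_one (L := L)
  have hm0 : (0 : ℝ) < L.m := by linarith
  have hcc := cc_pos (L := L)
  have hk := K.pos
  obtain ⟨B, C, h0, M0, hB, hC, hh0, hM0, hbase⟩ := base (L := L) w0
  obtain ⟨κ, Ck, p0, Mκ, hCk, hp0, hκF, hκb, hκ0, hκB, hκC⟩ := kern hw0
  obtain ⟨ε, hε0, hε1, hεw⟩ := epsw (K := K) w0.im
  -- the constants
  obtain ⟨lam, hlam, hlam1⟩ : ∃ lam : ℝ, lam = 1 + ε * w0.re ^ 2 ∧ 1 < lam := by
    refine ⟨_, rfl, ?_⟩
    have : 0 < w0.re ^ 2 := by positivity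
    have := mul_pos hε0 this
    linarith
  have hll : 0 < Real.log lam := Real.log_pos hlam1
  obtain ⟨c0, hc0, hc00, hc0'⟩ : ∃ c0 : ℝ, c0 = cc * Real.exp (-(2 * 3 / L.m)) / 2 ∧ 0 < c0 ∧
      c0 < cc * Real.exp (-(2 * 3 / L.m)) := by
    have : 0 < cc * Real.exp (-(2 * 3 / (L.m : ℝ))) := by positivity
    exact ⟨_, rfl, by positivity, by linarith⟩
  obtain ⟨D, hD, hD0⟩ : ∃ D : ℝ, D = C * ((1 + Ck) * (1 + (h0 + 1) * Ck) * (4 * (Z0 + 1)) * (1 + 2 / h0)) ∧ 0 < D :=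
    ⟨_, rfl, by positivity⟩
  obtain ⟨A2, hA2, hlim⟩ := tau_lim (L := L) (B := B) (C := D) (c := c0) (η := 3) hB hD0 hc0'
  obtain ⟨p, hp, hpp⟩ : ∃ p : ℝ, p = h0 / 2 * p0 ∧ 0 < p := ⟨_, rfl, by positivity⟩
  have hν0 : 0 < c0 / 80 := by positivity
  have hc1 : 0 < c0 / 80 * Real.log lam / 2 := by positivity
  have hXA := XA_lim hm0
  obtain ⟨A3, hA3⟩ := eventually_atTop.1 ((hXA.eventually (eventually_ge_atTop (1 / (c0 / 80)))).and
    ((hXA.eventually (eventually_ge_atTop (|Real.log p| / (c0 / 80 * Real.log lam / 2)))).and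
      ((eventually_ge_atTop (2 * (c0 / 80))).and (eventually_ge_atTop (4 : ℝ)))))
  refine ⟨c0 / 80 * Real.log lam / 2, (M0 * Ck) ^ 2 * (2 * K.k) + 1, max (max A2 A3) 1, hc1, by positivity,
    le_max_right _ _, fun a ha => ?_⟩
  obtain ⟨k1, k2, k3, k4⟩ := hA3 a ((le_max_right _ _).trans ((le_max_left _ _).trans ha))
  have ha0 : 0 < a := by linarith
  have hDτ := hlim a ((le_max_left _ _).trans ((le_max_left _ _).trans ha))
  obtain ⟨X, hX⟩ : ∃ X : ℝ, X = Real.exp (2 * a / L.m) := ⟨_, rfl⟩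
  have hX0 : 0 < X := by rw [hX]; exact Real.exp_pos _
  rw [← hX] at k1 k2 hDτ ⊢
  have hlogX : Real.log X ≤ 2 * a := by
    rw [hX, Real.log_exp]
    exact div_le_self (by positivity) hm1
  obtain ⟨n, hn0, hnl, hn2, hny⟩ := number hν0 ha0 hX0 k1 k3 hlogX
  have hnr : (0 : ℝ) < n := by exact_mod_cast hn0
  have hb0 : (0 : ℝ) < 1 / (2 * n) := by positivity
  have hbn : 2 * (1 / (2 * (n : ℝ))) * n = 1 := by field_simp
  have hy : 20 * (c0 / 80) * X = c0 / 4 * X := by ring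
  rw [hy] at hny
  have hUn : ∀ w : ℂ, |w.re| ≤ 1 → ‖UB (1 / (2 * n)) ε w0.im w ^ n‖ ≤ Real.exp (c0 / 4 * X) := fun w hw =>
    UB_pow hn0 k4 hn2 hny hε0.le hε1 hw
  have hE1 : 1 ≤ Real.exp (c0 / 4 * X) := Real.one_le_exp (by positivity)
  have hEe : Real.exp (c0 / 4 * X) * Real.exp (c0 / 4 * X) * Real.exp (-(c0 * X)) ≤ 1 := by
    rw [← Real.exp_add, ← Real.exp_add, Real.exp_le_one_iff]
    have := mul_pos hc00 hX0
    linarith
  -- the cut
  obtain ⟨T, hT, hT0⟩ : ∃ T : ℝ, T = C * Real.exp (B * (1 + a) - cc * Real.exp (2 * (a - 3) / L.m)) ∧ 0 < T :=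
    ⟨_, rfl, by positivity⟩
  have hT' : C * Real.exp (B * (1 + (a - 3)) - cc * Real.exp (2 * (a - 3) / L.m)) ≤ T := by
    rw [hT]
    refine mul_le_mul_of_nonneg_left (Real.exp_le_exp.2 ?_) hC.le
    have : B * (1 + (a - 3)) ≤ B * (1 + a) := mul_le_mul_of_nonneg_left (by linarith) hB
    linarith
  have hDT : T * ((1 + Ck) * (1 + (h0 + 1) * Ck) * (4 * (Z0 + 1))) * (1 + 2 / h0) ≤ Real.exp (-(c0 * X)) := by
    refine le_trans (le_of_eq ?_) hDτ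
    rw [hD, hT]
    ring
  have q3 : 1 ≤ (1 + Ck) * (1 + (h0 + 1) * Ck) * (4 * (Z0 + 1)) := by
    have h2 : 1 ≤ (1 + Ck) * (1 + (h0 + 1) * Ck) := one_le_mul_of_one_le_of_one_le (by linarith) (by
      have : 0 ≤ (h0 + 1) * Ck := by positivity
      linarith)
    exact one_le_mul_of_one_le_of_one_le h2 (by linarith)
  have q4 : 0 ≤ 2 / h0 := by positivity
  have he1 : Real.exp (-(c0 * X)) ≤ 1 := Real.exp_le_one_iff.2 (by have := mul_pos hc00 hX0; linarith)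
  have r0 : T * (1 + 2 / h0) ≤ 1 := by
    refine le_trans ?_ (hDT.trans he1)
    have e : T * ((1 + Ck) * (1 + (h0 + 1) * Ck) * (4 * (Z0 + 1))) * (1 + 2 / h0) =
      T * (1 + 2 / h0) * ((1 + Ck) * (1 + (h0 + 1) * Ck) * (4 * (Z0 + 1))) := by ring
    rw [e]
    exact le_mul_of_one_le_right (by positivity) q3
  have hTm : T ≤ min 1 (h0 / 2) := by
    have e : T * (1 + 2 / h0) = T + T * (2 / h0) := by ring
    have h2 : 0 ≤ T * (2 / h0) := by positivity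
    refine le_min (by linarith) ?_
    have h3 : T * (2 / h0) = T / (h0 / 2) := by field_simp
    have h4 : T / (h0 / 2) ≤ 1 := by rw [← h3]; linarith
    rwa [div_le_one (by positivity)] at h4
  have hDT' : T * ((1 + Ck) * (1 + (h0 + 1) * Ck) * (4 * (Z0 + 1))) ≤ Real.exp (-(c0 * X)) := by
    refine le_trans ?_ hDT
    exact le_mul_of_one_le_right (by positivity) (by linarith)
  obtain ⟨r1, r2, r3, r4, r5⟩ := alg_big hT0 hh0 hCk hZ0 hE1 hEe hDT'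
  obtain ⟨f, hf, hf0, hfw, hfz⟩ := hbase (a - 3) (by linarith) (hT'.trans hTm)
  obtain ⟨hf1, hf2⟩ := hf0 hw0
  obtain ⟨g0, hg0, hg0T⟩ := steps hb0 ε w0.im (show 0 ≤ a - 3 by linarith) hf n
  obtain ⟨g, hg, hgT'⟩ := conv_TT hg0 hκF hκb
  have hgT : ∀ w, TT g w = TT f w * UB (1 / (2 * n)) ε w0.im w ^ n * TT κ w := fun w => by rw [hgT', hg0T]
  have hgF : Fa a g := hg.mono (by rw [hbn]; linarith)
  refine ⟨g, (1 + (h0 + 1) * Ck) * Real.exp (c0 / 4 * X), T * Real.exp (c0 / 4 * X) * Ck, hgF, r4, r1, r2, r3,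
    ?_, ?_, ?_, fun w hw hXw hne => ?_⟩
  · -- large at the zero
    have h1 : ‖TT g w0‖ = ‖TT f w0‖ * ‖UB (1 / (2 * n)) ε w0.im w0‖ ^ n * p0 := by
      rw [hgT, norm_mul, norm_mul, norm_pow, hκ0]
    have h3 : lam ^ n ≤ ‖UB (1 / (2 * n)) ε w0.im w0‖ ^ n := by
      rw [hlam]
      exact pow_le_pow_left₀ (by positivity) (UB_off hb0 hε0.le hσ) n
    have hlp : 0 ≤ lam ^ n := pow_nonneg (by linarith) n
    have h4 : p * lam ^ n ≤ ‖TT g w0‖ := by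
      rw [h1]
      calc p * lam ^ n = h0 / 2 * lam ^ n * p0 := by rw [hp]; ring
        _ ≤ _ := by
            refine mul_le_mul_of_nonneg_right ?_ hp0.le
            exact mul_le_mul hf1 h3 hlp (norm_nonneg _)
    refine le_trans ?_ h4
    have h5 : lam ^ n = Real.exp (n * Real.log lam) := by
      rw [Real.exp_nat_mul, Real.exp_log (by linarith)]
    rw [h5, ← Real.exp_log hpp, ← Real.exp_add]
    refine Real.exp_le_exp.2 ?_
    have h6 : c0 / 80 * (X / a) * Real.log lam ≤ n * Real.log lam := mul_le_mul_of_nonneg_right hnl hll.le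
    have h7 : |Real.log p| ≤ c0 / 80 * Real.log lam / 2 * (X / a) := by
      rw [div_le_iff₀ hc1] at k2
      linarith
    have h8 := neg_abs_le (Real.log p)
    have h9 : c0 / 80 * (X / a) * Real.log lam = 2 * (c0 / 80 * Real.log lam / 2 * (X / a)) := by ring
    linarith
  · rw [hgT, norm_mul, norm_mul]
    refine le_trans ?_ r5
    exact mul_le_mul (mul_le_mul hf2 (hUn w0 hw0) (norm_nonneg _) (by positivity)) (hκC w0 hw0) (norm_nonneg _)
      (by positivity)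
  · have h1 : ∀ t ∈ wi (K := K), ‖TT g (t * I)‖ ≤ M0 * Ck := by
      intro t ht
      have hre' : |((t : ℂ) * I).re| ≤ 1 := by
        have hre : ((t : ℂ) * I).re = 0 := by simp
        rw [hre, abs_zero]; exact zero_le_one
      have h6 : ‖UB (1 / (2 * n)) ε w0.im (t * I)‖ ^ n ≤ 1 :=
        pow_le_one₀ (norm_nonneg _) (UB_window hb0 hε0.le (hεw t ht))
      have h8 : ‖TT f (t * I)‖ * ‖UB (1 / (2 * n)) ε w0.im (t * I)‖ ^ n ≤ M0 :=
        (mul_le_of_le_one_right (norm_nonneg _) h6).trans (hfw t)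
      rw [hgT, norm_mul, norm_mul, norm_pow]
      exact mul_le_mul h8 (hκC _ hre') (norm_nonneg _) hM0.le
    have h2 := NH_le_bound hgF h1
    linarith
  · rw [hgT, norm_mul, norm_mul]
    have h1 : ‖TT f w‖ ≤ T := (hfz w hw hXw hne).trans hT'
    calc ‖TT f w‖ * ‖UB (1 / (2 * n)) ε w0.im w ^ n‖ * ‖TT κ w‖ ≤
        T * Real.exp (c0 / 4 * X) * (Ck / (1 + (w.im - w0.im) ^ 2)) :=
          mul_le_mul (mul_le_mul h1 (hUn w hw) (norm_nonneg _) hT0.le) (hκB w hw) (norm_nonneg _) (by positivity)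
      _ = T * Real.exp (c0 / 4 * X) * Ck / (1 + (w.im - w0.im) ^ 2) := by ring

end Pool.Agent.Y23.G.CB
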