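import Pool.Agent.Run7.h336.CB.B17
import Pool.Agent.Run7.h336.CB.B20

/-! # If the Riemann hypothesis fails, the minimum tends to minus infinity doubly exponentially fast -/

set_option autoImplicit false
set_option linter.unusedSectionVars false
set_option maxHeartbeats 2000000

open Complex Filter Topology Set MeasureTheory Metric
open scoped ComplexConjugate Convolution

namespace Pool.Agent.Y23.G.CB

variable [K : Win] [L : LFun]

/-- a zero off the line makes the form negative -/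
lemma off_form (ρ0 : Zt) (hρ0 : 1 / 2 < (ρ0 : ℂ).re) {w0 : ℂ} (hw0 : w0 = (ρ0 : ℂ) - 1 / 2) {x : ℝ} (hx0 : 0 ≤ x)
    {a : ℝ} (ha : 0 < a) {g : ℝ → ℂ} {M δ : ℝ} (hg : Fa a g) (hM : 1 ≤ M) (hδ0 : 0 < δ) (hδ1 : δ ≤ 1)
    (hδE : 4 * Real.exp x * M * δ * (∑' ρ : Zt, (mu ρ : ℝ) * (1 / (1 + ((ρ : ℂ).im - w0.im) ^ 2))) ≤ 1)
    (hgp : 0 < ‖TT g w0‖) (hgM : ‖TT g w0‖ ≤ M)
    (hgz : ∀ w : ℂ, |w.re| ≤ 1 → L.X (1 / 2 + w) = 0 → w ≠ w0 → ‖TT g w‖ ≤ δ / (1 + (w.im - w0.im) ^ 2)) :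
    ∃ h : ℝ → ℂ, Hd (a + x) h ∧ NH h ≤ 4 * NH g ∧ QQ h ≤ 1 - Real.exp (x * w0.re) * ‖TT g w0‖ ^ 2 := by
  have hσ : 0 < w0.re := by
    have : w0.re = (ρ0 : ℂ).re - 1 / 2 := by rw [hw0]; simp
    rw [this]; linarith
  set Z : ℝ := ∑' ρ : Zt, (mu ρ : ℝ) * (1 / (1 + ((ρ : ℂ).im - w0.im) ^ 2)) with hZ
  have hZ0 : 0 ≤ Z := tsum_nonneg fun ρ => by positivity
  set ex : ℝ := Real.exp x with hex
  have hex1 : 1 ≤ ex := Real.one_le_exp hx0
  have hM0 : 0 < M := by linarith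
  have hex0 : 0 < ex := by linarith
  have hδM : δ ≤ M := hδ1.trans hM
  -- the bounds at the zeros
  have hd1 : ∀ ρ : Zt, 1 / (1 + ((ρ : ℂ).im - w0.im) ^ 2) ≤ 1 := by
    intro ρ
    rw [div_le_one (by positivity)]
    nlinarith [sq_nonneg ((ρ : ℂ).im - w0.im)]
  have hsmall : ∀ w : ℂ, |w.re| ≤ 1 → L.X (1 / 2 + w) = 0 → w ≠ w0 → ‖TT g w‖ ≤ δ * (1 / (1 + (w.im - w0.im) ^ 2)) := by
    intro w h1 h2 h3
    rw [mul_one_div]
    exact hgz w h1 h2 h3
  have hall : ∀ w : ℂ, |w.re| ≤ 1 → L.X (1 / 2 + w) = 0 → ‖TT g w‖ ≤ M * (1 / (1 + (w.im - w0.im) ^ 2)) := by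
    intro w h1 h2
    by_cases h3 : w = w0
    · rw [h3, sub_self]
      norm_num
      exact hgM
    · exact (hsmall w h1 h2 h3).trans (mul_le_mul_of_nonneg_right hδM (by positivity))
  have hz1 : ∀ ρ : Zt, L.X (1 / 2 + ((ρ : ℂ) - 1 / 2)) = 0 := fun ρ => by
    rw [add_sub_cancel]; exact ρ.2
  have him1 : ∀ ρ : Zt, ((ρ : ℂ) - 1 / 2).im = (ρ : ℂ).im := fun ρ => by simp
  have hre2 : ∀ ρ : Zt, |(-conj ((ρ : ℂ) - 1 / 2)).re| ≤ 1 := fun ρ => by
    rw [Complex.neg_re, Complex.conj_re, abs_neg]; exact half_re ρ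
  have hz2 : ∀ ρ : Zt, L.X (1 / 2 + -conj ((ρ : ℂ) - 1 / 2)) = 0 := fun ρ => by
    rw [← rfZ_sub]
    exact hz1 (rfZ ρ)
  have him2 : ∀ ρ : Zt, (-conj ((ρ : ℂ) - 1 / 2)).im = (ρ : ℂ).im := fun ρ => by simp
  -- the number θ
  set P0 : ℂ := TT g w0 with hP0
  have hP0n : 0 < ‖P0‖ := hgp
  set v : ℂ := cexp (w0 * x) * P0 ^ 2 with hv
  have hvn : ‖v‖ = Real.exp (x * w0.re) * ‖P0‖ ^ 2 := by
    rw [hv, norm_mul, norm_pow, Complex.norm_exp, Complex.re_mul_ofReal, mul_comm w0.re]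
  have hv0 : 0 < ‖v‖ := by rw [hvn]; positivity
  have hvne : (‖v‖ : ℂ) ≠ 0 := by exact_mod_cast hv0.ne'
  set θ : ℂ := -(v / ‖v‖) with hθd
  have hθv : conj θ * v = -(‖v‖ : ℂ) := by
    rw [hθd, map_neg, map_div₀, Complex.conj_ofReal, neg_mul, div_mul_eq_mul_div, mul_comm, Complex.mul_conj,
      Complex.normSq_eq_norm_sq, neg_inj, div_eq_iff hvne]
    push_cast
    ring
  have hθ1 : θ * conj θ = 1 := by
    rw [hθd, map_neg, map_div₀, Complex.conj_ofReal, neg_mul_neg, div_mul_div_comm, Complex.mul_conj,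
      Complex.normSq_eq_norm_sq, div_eq_one_iff_eq (mul_ne_zero hvne hvne)]
    push_cast
    ring
  have hθn : ‖θ‖ = 1 := by
    have h1 : ‖θ‖ * ‖θ‖ = 1 := by
      have := congrArg norm hθ1
      rwa [norm_mul, Complex.norm_conj, norm_one] at this
    nlinarith [norm_nonneg θ]
  -- the function
  set h : ℝ → ℂ := fun u => g (u + -x) + θ * sh' g u with hh
  have hF1 : Fa (a + x) (fun u => g (u + -x)) := Fa_shift (by rw [abs_neg, abs_of_nonneg hx0]) hg
  have hF2 : Fa (a + x) (fun u => θ * sh' g u) := ((Fa_sh hg).mono (by linarith)).smul θ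
  have hF : Fa (a + x) h := hF1.add hF2
  have hT : ∀ w, TT h w = cexp (w * x) * TT g w + θ * conj (TT g (-conj w)) := by
    intro w
    simp only [hh]
    rw [TT_add hF1 hF2, TT_shift, TT_smul, TT_sh]
    congr 3
    push_cast
    ring
  have hexρ : ∀ z : ℂ, |z.re| ≤ 1 → ‖cexp (z * x)‖ ≤ ex := by
    intro z hz
    rw [Complex.norm_exp, Complex.re_mul_ofReal, hex]
    refine Real.exp_le_exp.2 ?_
    calc z.re * x ≤ 1 * x := mul_le_mul_of_nonneg_right ((le_abs_self _).trans hz) hx0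
      _ = x := one_mul x
  have hdomb : ∀ ρ : Zt, (mu ρ : ℝ) * ‖TT h ((ρ : ℂ) - 1 / 2)‖ ^ 2 ≤
      (2 * ex * M) ^ 2 * ((mu ρ : ℝ) * (1 / (1 + ((ρ : ℂ).im - w0.im) ^ 2))) := by
    intro ρ
    have h1 := hall _ (half_re ρ) (hz1 ρ)
    have h2 := hall _ (hre2 ρ) (hz2 ρ)
    rw [him1] at h1
    rw [him2] at h2
    set d : ℝ := 1 / (1 + ((ρ : ℂ).im - w0.im) ^ 2) with hd
    have hd0 : 0 ≤ d := by positivity
    have h3 : ‖TT h ((ρ : ℂ) - 1 / 2)‖ ≤ 2 * ex * M * d := by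
      rw [hT]
      refine (norm_add_le _ _).trans ?_
      rw [norm_mul, norm_mul, hθn, one_mul, Complex.norm_conj]
      have h4 := mul_le_mul (hexρ _ (half_re ρ)) h1 (norm_nonneg _) hex0.le
      have h5 : M * d ≤ ex * (M * d) := by
        have : 0 ≤ M * d := by positivity
        nlinarith
      linarith
    have h4 : ‖TT h ((ρ : ℂ) - 1 / 2)‖ ^ 2 ≤ (2 * ex * M) ^ 2 * d := by
      calc ‖TT h ((ρ : ℂ) - 1 / 2)‖ ^ 2 ≤ (2 * ex * M * d) ^ 2 := pow_le_pow_left₀ (norm_nonneg _) h3 2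
        _ = (2 * ex * M) ^ 2 * (d * d) := by ring
        _ ≤ (2 * ex * M) ^ 2 * (1 * d) := by
            refine mul_le_mul_of_nonneg_left (mul_le_mul_of_nonneg_right (hd1 ρ) hd0) (by positivity)
        _ = _ := by ring
    calc _ ≤ (mu ρ : ℝ) * ((2 * ex * M) ^ 2 * d) := mul_le_mul_of_nonneg_left h4 (Nat.cast_nonneg _)
      _ = _ := by ring
  have hdom : Dom h := Summable.of_nonneg_of_le (fun ρ => by positivity) hdomb ((zsummable w0.im).mul_left _)
  have hHd : Hd (a + x) h := (Hd_iff (by linarith) h).2 ⟨hF, hdom⟩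
  -- the mass
  have hNH : NH h ≤ 4 * NH g := by
    have h1 := NH_add_le (K := K) hF1 hF2
    rw [NH_shift, NH_smul, NH_sh', hθn] at h1
    have h2 : NH h ≤ 2 * NH g + 2 * (1 ^ 2 * NH g) := h1
    linarith
  -- the form
  have hterm : ∀ ρ : Zt, (mu ρ : ℝ) * (GG h h ((ρ : ℂ) - 1 / 2)).re ≤
      4 * ex * M * δ * ((mu ρ : ℝ) * (1 / (1 + ((ρ : ℂ).im - w0.im) ^ 2))) - (if ρ = ρ0 then ‖v‖ else 0) := by
    intro ρ
    set z : ℂ := (ρ : ℂ) - 1 / 2 with hz
    have hzr : |z.re| ≤ 1 := half_re ρ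
    have hGG : GG h h z = 2 * (TT g z * conj (TT g (-conj z))) + conj θ * cexp (z * x) * TT g z ^ 2 +
        θ * cexp (-z * x) * conj (TT g (-conj z)) ^ 2 := by
      have e1 : -conj (-conj z) = z := by rw [map_neg, Complex.conj_conj, neg_neg]
      unfold GG
      rw [hT, hT, e1]
      exact cross_alg z (TT g z) (TT g (-conj z)) θ x hθ1
    set P : ℂ := TT g z with hP
    set R : ℂ := TT g (-conj z) with hR
    set d : ℝ := 1 / (1 + ((ρ : ℂ).im - w0.im) ^ 2) with hd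
    have hd0 : 0 ≤ d := by positivity
    have hdd : d ≤ 1 := hd1 ρ
    have hmu : (1 : ℝ) ≤ mu ρ := by
      have : 1 ≤ mu ρ := ZD.mpos _ ρ.2
      exact_mod_cast this
    have hPs : z ≠ w0 → ‖P‖ ≤ δ * d := fun hne => by
      have := hsmall z hzr (hz1 ρ) hne
      rwa [him1 ρ] at this
    have hRs : -conj z ≠ w0 → ‖R‖ ≤ δ * d := fun hne => by
      have := hsmall (-conj z) (hre2 ρ) (hz2 ρ) hne
      rwa [him2 ρ] at this
    have hPa : ‖P‖ ≤ M := by
      have := hall z hzr (hz1 ρ)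
      rw [him1 ρ] at this
      refine this.trans ?_
      nlinarith
    have hRa : ‖R‖ ≤ M := by
      have := hall (-conj z) (hre2 ρ) (hz2 ρ)
      rw [him2 ρ] at this
      refine this.trans ?_
      nlinarith
    have hezn : ‖cexp (-z * x)‖ ≤ ex := hexρ (-z) (by rw [Complex.neg_re, abs_neg]; exact hzr)
    have t1 : (2 * (P * conj R)).re ≤ 2 * (‖P‖ * ‖R‖) := by
      refine (Complex.re_le_norm _).trans ?_
      rw [norm_mul, norm_mul, Complex.norm_conj]
      simp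
    have t2 : (conj θ * cexp (z * x) * P ^ 2).re ≤ ex * ‖P‖ ^ 2 := by
      refine (Complex.re_le_norm _).trans ?_
      rw [norm_mul, norm_mul, Complex.norm_conj, hθn, one_mul, norm_pow]
      exact mul_le_mul_of_nonneg_right (hexρ z hzr) (by positivity)
    have t3 : (θ * cexp (-z * x) * conj R ^ 2).re ≤ ex * ‖R‖ ^ 2 := by
      refine (Complex.re_le_norm _).trans ?_
      rw [norm_mul, norm_mul, hθn, one_mul, norm_pow, Complex.norm_conj]
      exact mul_le_mul_of_nonneg_right hezn (by positivity)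
    have hδd : δ * d ≤ δ := by nlinarith
    have hsq : ∀ y : ℝ, 0 ≤ y → y ≤ δ * d → ex * y ^ 2 ≤ ex * M * δ * d := by
      intro y hy0 hy
      have h1 : y ^ 2 ≤ (δ * d) * 1 := by
        rw [sq]
        exact mul_le_mul hy (hy.trans (hδd.trans hδ1)) hy0 (by positivity)
      have h2 : 0 ≤ ex * (δ * d) := by positivity
      calc ex * y ^ 2 ≤ ex * (δ * d) := by
            refine mul_le_mul_of_nonneg_left ?_ hex0.le
            linarith
        _ ≤ ex * (δ * d) * M := le_mul_of_one_le_right h2 hM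
        _ = _ := by ring
    have hpr : ∀ y y' : ℝ, 0 ≤ y → y ≤ M → 0 ≤ y' → y' ≤ δ * d → 2 * (y * y') ≤ 2 * (ex * M * δ * d) := by
      intro y y' hy0 hy hy'0 hy'
      have h1 : y * y' ≤ M * (δ * d) := mul_le_mul hy hy' hy'0 hM0.le
      have h2 : M * (δ * d) ≤ ex * (M * (δ * d)) := by
        have : 0 ≤ M * (δ * d) := by positivity
        nlinarith
      nlinarith
    rw [hGG, Complex.add_re, Complex.add_re]
    by_cases hρ : ρ = ρ0
    · -- the zero itself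
      have hzw : z = w0 := by rw [hz, hρ, hw0]
      have hne : -conj z ≠ w0 := by
        intro h1
        have h2 := congrArg Complex.re h1
        rw [hzw, Complex.neg_re, Complex.conj_re] at h2
        linarith
      have hRs' := hRs hne
      have t2' : (conj θ * cexp (z * x) * P ^ 2).re = -‖v‖ := by
        have e : conj θ * cexp (z * x) * P ^ 2 = conj θ * v := by
          rw [hP, hzw, hv, hP0]; ring
        rw [e, hθv, Complex.neg_re, Complex.ofReal_re]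
      rw [if_pos hρ]
      have k1 := hpr ‖P‖ ‖R‖ (norm_nonneg _) hPa (norm_nonneg _) hRs'
      have k2 := hsq ‖R‖ (norm_nonneg _) hRs'
      have k3 : (2 * (P * conj R)).re + (conj θ * cexp (z * x) * P ^ 2).re + (θ * cexp (-z * x) * conj R ^ 2).re ≤
          4 * (ex * M * δ * d) - ‖v‖ := by
        rw [t2']
        have : 0 ≤ ex * M * δ * d := by positivity
        linarith
      calc (mu ρ : ℝ) * ((2 * (P * conj R)).re + (conj θ * cexp (z * x) * P ^ 2).re + (θ * cexp (-z * x) * conj R ^ 2).re)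
          ≤ (mu ρ : ℝ) * (4 * (ex * M * δ * d) - ‖v‖) := mul_le_mul_of_nonneg_left k3 (Nat.cast_nonneg _)
        _ ≤ _ := by nlinarith
    · rw [if_neg hρ, sub_zero]
      have hzw : z ≠ w0 := by
        intro h1
        apply hρ
        ext1
        rw [hz, hw0] at h1
        exact sub_left_injective h1
      have hPs' := hPs hzw
      have k3 : (2 * (P * conj R)).re + (conj θ * cexp (z * x) * P ^ 2).re + (θ * cexp (-z * x) * conj R ^ 2).re ≤
          4 * (ex * M * δ * d) := by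
        have k2 := hsq ‖P‖ (norm_nonneg _) hPs'
        by_cases hr : -conj z = w0
        · -- the reflected zero
          have t3' : (θ * cexp (-z * x) * conj R ^ 2).re = -‖v‖ := by
            have e0 : -z = conj w0 := by rw [← hr, map_neg, Complex.conj_conj]
            have e : θ * cexp (-z * x) * conj R ^ 2 = conj (conj θ * v) := by
              rw [hv, map_mul, map_mul, Complex.conj_conj, ← Complex.exp_conj, map_mul, Complex.conj_ofReal, map_pow,
                hR, hr, e0]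
              ring
            rw [e, hθv, map_neg, Complex.conj_ofReal, Complex.neg_re, Complex.ofReal_re]
          rw [t3']
          have k1 := hpr ‖R‖ ‖P‖ (norm_nonneg _) hRa (norm_nonneg _) hPs'
          have : 0 ≤ ex * M * δ * d := by positivity
          rw [mul_comm ‖R‖] at k1
          linarith
        · have hRs' := hRs hr
          have k1 := hpr ‖P‖ ‖R‖ (norm_nonneg _) hPa (norm_nonneg _) hRs'
          have k4 := hsq ‖R‖ (norm_nonneg _) hRs'
          linarith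
      calc (mu ρ : ℝ) * ((2 * (P * conj R)).re + (conj θ * cexp (z * x) * P ^ 2).re + (θ * cexp (-z * x) * conj R ^ 2).re)
          ≤ (mu ρ : ℝ) * (4 * (ex * M * δ * d)) := mul_le_mul_of_nonneg_left k3 (Nat.cast_nonneg _)
        _ = _ := by ring
  have hsumL : Summable (fun ρ : Zt => (mu ρ : ℝ) * (GG h h ((ρ : ℂ) - 1 / 2)).re) := by
    refine Summable.of_norm ?_
    refine Summable.of_nonneg_of_le (fun _ => norm_nonneg _) (fun ρ => ?_) ((hdom.add hdom.refl).mul_left (1 / 2))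
    rw [norm_mul, Real.norm_natCast, Real.norm_eq_abs]
    have h := mul_le_mul_of_nonneg_left ((Complex.abs_re_le_norm _).trans (norm_GG_zero h h ((ρ : ℂ) - 1 / 2)))
      (Nat.cast_nonneg (mu ρ) : (0 : ℝ) ≤ mu ρ)
    calc _ ≤ _ := h
      _ = _ := by ring
  have hs1 := ((zsummable (D := zd (L := L)) w0.im).mul_left (4 * ex * M * δ)).hasSum
  have hs2 := hasSum_ite_eq ρ0 ‖v‖
  have hs3 := hs1.sub hs2
  have hQ : QQ h ≤ 4 * ex * M * δ * Z - ‖v‖ := by
    have h1 := hsumL.hasSum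
    have h2 := hasSum_le hterm h1 hs3
    rw [tsum_mul_left] at h2
    exact h2
  refine ⟨h, hHd, hNH, ?_⟩
  rw [← hvn]
  linarith

/-- a zero off the line, on the right -/
lemma exists_off (hn : ¬ ∀ ρ : Zt, (ρ : ℂ).re = 1 / 2) : ∃ ρ0 : Zt, 1 / 2 < (ρ0 : ℂ).re := by
  by_contra hcon
  push Not at hcon
  refine hn fun ρ => ?_
  have h1 := hcon ρ
  have h2 := hcon (rfZ ρ)
  rw [rfZ_val, Complex.sub_re, Complex.one_re, Complex.conj_re] at h2
  linarith

/-- **if the Riemann hypothesis fails, the minimum tends to minus infinity doubly exponentially fast** -/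
theorem amplify (hn : ¬ ∀ ρ : Zt, (ρ : ℂ).re = 1 / 2) : ∃ c A : ℝ, 0 < c ∧ 0 < A ∧ ∀ a : ℝ, A ≤ a →
    GM a ≤ -Real.exp (c * (Real.exp (2 * a / L.m) / a)) := by
  obtain ⟨ρ0, hρ0⟩ := exists_off hn
  have hm1 := m_one (L := L)
  have hm0 : (0 : ℝ) < L.m := by linarith
  set w0 : ℂ := (ρ0 : ℂ) - 1 / 2 with hw0
  have hσ : 0 < w0.re := by
    have : w0.re = (ρ0 : ℂ).re - 1 / 2 := by rw [hw0]; simp
    rw [this]; linarith
  set Z : ℝ := ∑' ρ : Zt, (mu ρ : ℝ) * (1 / (1 + ((ρ : ℂ).im - w0.im) ^ 2)) with hZ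
  have hZ0 : 0 ≤ Z := tsum_nonneg fun ρ => by positivity
  obtain ⟨c, N1, A1, hc, hN1, hA1, ht⟩ := test_big (K := K) (L := L) (w0 := w0) (half_re ρ0) hσ.ne' Z hZ0
  obtain ⟨A3, hA3⟩ := eventually_atTop.1 ((XA_lim hm0).eventually (eventually_ge_atTop (Real.log (8 * (N1 + 1)) / c)))
  refine ⟨c, max A1 A3, hc, lt_max_of_lt_left (by linarith), fun a ha => ?_⟩
  have ha1 : A1 ≤ a := (le_max_left _ _).trans ha
  have ha3 : A3 ≤ a := (le_max_right _ _).trans ha
  have ha0 : 0 < a := by linarith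
  obtain ⟨g, M, δ, hg, hM, hδ0, hδ1, hδE, hgp, hgM, hgN, hgz⟩ := ht a ha1
  obtain ⟨h, hh, hN, hQ⟩ := off_form ρ0 hρ0 hw0 (le_refl (0 : ℝ)) ha0 hg hM hδ0 hδ1 (by
    rw [Real.exp_zero, mul_one]; exact hδE) ((Real.exp_pos _).trans_le hgp) hgM hgz
  rw [zero_mul, Real.exp_zero, one_mul] at hQ
  rw [add_zero] at hh
  set X : ℝ := Real.exp (2 * a / L.m) / a with hX
  set P : ℝ := Real.exp (c * X) with hP
  have hP0 : 0 < P := Real.exp_pos _
  have hP8 : 8 * (N1 + 1) ≤ P := by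
    have h1 := hA3 a ha3
    rw [div_le_iff₀ hc] at h1
    have h2 : Real.exp (Real.log (8 * (N1 + 1))) ≤ P := Real.exp_le_exp.2 (by linarith)
    rwa [Real.exp_log (by positivity)] at h2
  have hg2 : P ^ 2 ≤ ‖TT g w0‖ ^ 2 := pow_le_pow_left₀ hP0.le hgp 2
  have hle := GM_le ha0 hh
  have hN4 : NH h ≤ 4 * N1 := by linarith
  have hN0 := NH_nonneg (K := K) h
  have h1 : GM a * NH h ≤ 1 - P ^ 2 := by linarith
  by_contra hcon
  rw [not_le] at hcon
  have h2 : -P * NH h ≤ GM a * NH h := mul_le_mul_of_nonneg_right hcon.le hN0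
  have h3 : P * NH h ≤ P * (4 * N1) := mul_le_mul_of_nonneg_left hN4 hP0.le
  nlinarith

/-- the dichotomy -/
theorem amplify_iff : (¬ ∀ ρ : Zt, (ρ : ℂ).re = 1 / 2) ↔ ∃ c A : ℝ, 0 < c ∧ 0 < A ∧ ∀ a : ℝ, A ≤ a →
    GM a ≤ -Real.exp (c * (Real.exp (2 * a / L.m) / a)) := by
  constructor
  · exact amplify
  · rintro ⟨c, A, _, hA, h⟩ hRH
    have h1 := GM_nonneg hRH A
    have h2 := h A le_rfl
    have h3 := Real.exp_pos (c * (Real.exp (2 * A / L.m) / A))
    linarith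

end Pool.Agent.Y23.G.CB
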