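import Pool.Agent.Run7.h336.CB.SDef

/-!
# The statement on minimisers of Weil's quadratic form with a general window, with the gap
-/

set_option autoImplicit false

open Complex Filter Topology Set MeasureTheory
open scoped ComplexConjugate

namespace Pool.Agent.Run7.h336.CB.S

/-- The theorem for the function `X` of degree `m` and conductor `N`, the forms `W a` and the window `S`
(`Statement`), and the gap: the lowest quotient cannot lie between `0` and `-exp (c exp (2 a / m) / a)` for
arbitrarily large `a`. -/
structure Full (X : ℂ → ℂ) (m : ℕ) (N : ℝ) (W : ℝ → (ℝ → ℂ) → ℝ) (S : Set ℝ) : Prop extends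
    Statement X m N W S where
  /-- the lowest quotient if there is a non-real zero -/
  gap : ¬ RealZeros X → ∃ c A : ℝ, 0 < c ∧ 0 < A ∧ ∀ a : ℝ, A ≤ a →
    low W S a ≤ -Real.exp (c * (Real.exp (2 * a / m) / a))

end Pool.Agent.Run7.h336.CB.S
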