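import Pool.Agent.Run7.h336.CB.B18
import Pool.Agent.Run7.h336.CB.B21
import Pool.Agent.Run7.h336.CB.SFull

/-!
Project CB, the whole theorem in the variable `z` with the gap.
-/

set_option autoImplicit false
set_option linter.unusedSectionVars false
set_option maxHeartbeats 2000000

open Complex Filter Topology Set MeasureTheory
open scoped ComplexConjugate

namespace Pool.Agent.Run7.h336.CB.S

open Y23.G Y23.G.CB

/-- **The general theorem in the variable `z`, with the gap.** -/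
theorem full (L : LFun) (X : ℂ → ℂ) {C : ℂ} (hC : C ≠ 0) (hX : ∀ z, L.X (1 / 2 + I * z) = C * X z)
    (hpar : (∀ z, X (-z) = X z) ∨ ∀ z, X (-z) = -X z) (W : ℝ → (ℝ → ℂ) → ℝ)
    (hW : ∀ a : ℝ, 0 < a → ∀ f, InDom a f → W a f = QQ (D := zd (L := L)) f)
    {S : Set ℝ} (hS : Window S) (hno : ∀ t : ℝ, t ∈ S → X t ≠ 0) : Full X L.m L.N W S := by
  have hst := statement L X hC hX hpar W hW hS hno
  refine ⟨hst, fun hn => ?_⟩
  obtain ⟨K, hK⟩ := exists_win hS
  let iK : Win := K
  let iL : LFun := L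
  have hlow : ∀ a : ℝ, 0 < a → low W S a = Y23.G.CB.GM (K := iK) (DZ := zd (L := iL)) a := by
    intro a ha
    unfold low Y23.G.CB.GM
    congr 1
    ext r
    constructor
    · rintro ⟨f, hf, h1, h2⟩
      exact ⟨f, (inDom_iff a f).1 hf, by rw [← Mass_eq K hK, h1], by rw [← hW a ha f hf, h2]⟩
    · rintro ⟨f, hf, h1, h2⟩
      have hf' := (inDom_iff a f).2 hf
      exact ⟨f, hf', by rw [Mass_eq K hK, h1], by rw [hW a ha f hf', h2]⟩
  have hn' : ¬ ∀ ρ : Zt (D := zd (L := iL)), (ρ : ℂ).re = 1 / 2 := by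
    rw [pos_iff (K := iK) (L := iL)]
    rw [hst.nonneg] at hn
    intro h
    exact hn fun a ha => by rw [hlow a ha]; exact h a ha
  obtain ⟨c, A, hc, hA, h⟩ := amplify (K := iK) (L := iL) hn'
  exact ⟨c, A, hc, hA, fun a ha => by rw [hlow a (by linarith)]; exact h a ha⟩

end Pool.Agent.Run7.h336.CB.S
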