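import Pool.Agent.Run7.h336.CB.B17
import Pool.Agent.Run7.h336.CB.SDef

/-!
Project CB, the whole theorem in the variable `z`, `s = 1/2 + i z`, for a general window (definitions in `SDef`;
the change of variables is helper114's `CA/Zv`).
-/

set_option autoImplicit false
set_option linter.unusedSectionVars false
set_option maxHeartbeats 2000000

open Complex Filter Topology Set MeasureTheory
open scoped ComplexConjugate

namespace Pool.Agent.Run7.h336.CB.S

open Y23.G Y23.G.CB

lemma F_eq (f : ℝ → ℂ) (z : ℂ) : F f z = Y23.TT f (I * z) := rfl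

lemma F_real (f : ℝ → ℂ) (t : ℝ) : F f t = Y23.TT f (t * I) := by
  rw [F_eq, mul_comm]

lemma inDom_iff (a : ℝ) (f : ℝ → ℂ) : InDom a f ↔ Hd a f := by
  unfold InDom Hd Y23.Fa Lg
  simp only [F_real, and_assoc]

/-- every window of the statement is a window of the library -/
theorem exists_win {S : Set ℝ} (h : Window S) : ∃ K : Win, K.S = S := by
  obtain ⟨c, hc⟩ := h.interior
  obtain ⟨r, hr, hb⟩ := Metric.isOpen_iff.1 isOpen_interior c hc
  obtain ⟨k, hk⟩ := h.compact.isBounded.exists_norm_le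
  refine ⟨⟨S, max k 1, c, r / 2, lt_max_of_lt_right one_pos, by linarith, h.compact.isClosed,
    fun t ht => (hk t ht).trans (le_max_left _ _), fun t ht => interior_subset (hb ?_), h.symm⟩, rfl⟩
  rw [Metric.mem_ball, Real.dist_eq]
  linarith

lemma Mass_eq {S : Set ℝ} (K : Win) (hK : K.S = S) (f : ℝ → ℂ) : Mass S f = NH (K := K) f := by
  unfold Mass NH wi
  rw [hK]
  simp only [F_real]

/-- the point `1/2 + i z` -/
noncomputable def sz (z : ℂ) : ℂ := 1 / 2 + I * z

/-- the inverse -/
noncomputable def zs (s : ℂ) : ℂ := -I * (s - 1 / 2)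

lemma sz_zs (s : ℂ) : sz (zs s) = s := by
  unfold sz zs
  linear_combination (-(s - 1 / 2)) * Complex.I_mul_I

lemma zs_sz (z : ℂ) : zs (sz z) = z := by
  unfold sz zs
  linear_combination (-z) * Complex.I_mul_I

lemma sz_re (z : ℂ) : (sz z).re = 1 / 2 ↔ z.im = 0 := by
  have : (sz z).re = 1 / 2 - z.im := by
    unfold sz
    rw [Complex.add_re, Complex.I_mul_re]
    norm_num
    ring
  rw [this]
  constructor <;> intro h <;> linarith

lemma sz_norm (z : ℂ) : ‖sz z - 1 / 2‖ = ‖z‖ := by
  unfold sz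
  rw [add_sub_cancel_left, norm_mul, Complex.norm_I, one_mul]

lemma sz_sub (z w : ℂ) : sz z - sz w = I * (z - w) := by unfold sz; ring

lemma sz_cont : Continuous sz := by unfold sz; fun_prop

lemma zs_cont : Continuous zs := by unfold zs; fun_prop

lemma sz_conj (z : ℂ) : 1 - conj (sz z) = sz (conj z) := by
  unfold sz
  rw [map_add, map_mul, Complex.conj_I, map_div₀, map_one, Complex.conj_ofNat]
  ring

lemma sz_neg (z : ℂ) : 1 - sz z = sz (-z) := by
  unfold sz
  ring

lemma sz_zero : sz 0 = 1 / 2 := by unfold sz; ring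

lemma hasDeriv_sz {E : ℂ → ℂ} (hE : Differentiable ℂ E) (z : ℂ) :
    HasDerivAt (fun z => E (sz z)) (deriv E (sz z) * I) z := by
  have h1 : HasDerivAt sz I z := by
    unfold sz
    simpa using ((hasDerivAt_id z).const_mul I).const_add (1 / 2)
  exact (hE (sz z)).hasDerivAt.comp z h1

lemma tlu_sz {E : ℝ → ℂ → ℂ} {G : ℂ → ℂ} (h : TendstoLocallyUniformly (fun a s => E a s) G atTop) :
    TendstoLocallyUniformly (fun a z => E a (sz z)) (fun z => G (sz z)) atTop := h.comp sz sz_cont

lemma tlu_zs {E : ℝ → ℂ → ℂ} {G : ℂ → ℂ} (h : TendstoLocallyUniformly (fun a s => E a s) G atTop) :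
    TendstoLocallyUniformly (fun a z => E a (zs z)) (fun z => G (zs z)) atTop := h.comp zs zs_cont

/-- polynomials in `s` and in `z` -/
lemma poly_sz (n : ℕ) (A : ℂ → ℂ) (B : ℂ → ℂ) :
    (∃ p : Polynomial ℂ, p.natDegree < n ∧ ∀ s, A s = p.eval s * B s) ↔
      ∃ p : Polynomial ℂ, p.natDegree < n ∧ ∀ z, A (sz z) = p.eval z * B (sz z) := by
  constructor
  · rintro ⟨p, hp, h⟩
    refine ⟨p.comp (Polynomial.C I * Polynomial.X + Polynomial.C (1 / 2)), ?_, fun z => ?_⟩
    · rw [Polynomial.natDegree_comp, Polynomial.natDegree_linear I_ne_zero, mul_one]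
      exact hp
    · rw [h, Polynomial.eval_comp]
      congr 2
      unfold sz
      simp only [Polynomial.eval_add, Polynomial.eval_mul, Polynomial.eval_C, Polynomial.eval_X]
      ring
  · rintro ⟨p, hp, h⟩
    refine ⟨p.comp (Polynomial.C (-I) * Polynomial.X + Polynomial.C (I / 2)), ?_, fun s => ?_⟩
    · rw [Polynomial.natDegree_comp, Polynomial.natDegree_linear (neg_ne_zero.2 I_ne_zero), mul_one]
      exact hp
    · have h1 := h (zs s)
      rw [sz_zs] at h1
      rw [h1, Polynomial.eval_comp]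
      congr 2
      unfold zs
      simp only [Polynomial.eval_add, Polynomial.eval_mul, Polynomial.eval_C, Polynomial.eval_X]
      ring

/-- **The general theorem in the variable `z`.** -/
theorem statement (L : LFun) (X : ℂ → ℂ) {C : ℂ} (hC : C ≠ 0) (hX : ∀ z, L.X (1 / 2 + I * z) = C * X z)
    (hpar : (∀ z, X (-z) = X z) ∨ ∀ z, X (-z) = -X z) (W : ℝ → (ℝ → ℂ) → ℝ)
    (hW : ∀ a : ℝ, 0 < a → ∀ f, InDom a f → W a f = QQ (D := zd (L := L)) f)
    {S : Set ℝ} (hS : Window S) (hno : ∀ t : ℝ, t ∈ S → X t ≠ 0) : Statement X L.m L.N W S := by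
  obtain ⟨K, hK⟩ := exists_win hS
  let iK : Win := K
  let iL : LFun := L
  have hXs : ∀ z, L.X (sz z) = C * X z := hX
  have hzero : ∀ z, L.X (sz z) = 0 ↔ X z = 0 := fun z => by rw [hXs, mul_eq_zero, or_iff_right hC]
  have hzero' : ∀ s, L.X s = 0 ↔ X (zs s) = 0 := fun s => by rw [← hzero, sz_zs]
  have hfe : (∀ s, L.X (1 - s) = L.X s) ∨ ∀ s, L.X (1 - s) = -L.X s := by
    rcases hpar with heven | hodd
    · left
      intro s
      have h1 := hXs (zs s)
      rw [sz_zs] at h1
      rw [h1, ← heven, ← hXs, ← sz_neg, sz_zs]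
    · right
      intro s
      have h1 := hXs (zs s)
      rw [sz_zs] at h1
      have h2 : X (zs s) = -X (-zs s) := by rw [hodd, neg_neg]
      rw [h1, h2, mul_neg, neg_neg, ← hXs, ← sz_neg, sz_zs]
  have hnoZ : NoZ iK iL := by
    intro t ht
    have h1 : (1 / 2 + t * I : ℂ) = sz t := by unfold sz; ring
    show L.X _ ≠ 0
    rw [h1, Ne, hzero]
    exact hno t (by rw [← hK]; exact ht)
  have h0 : L.X (1 / 2 + iK.c * I) ≠ 0 := hnoZ _ c_mem
  have hreal : RealZeros X ↔ ∀ s : ℂ, L.X s = 0 → s.re = 1 / 2 := by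
    constructor
    · intro h s hs
      have h1 := h (zs s) ((hzero' s).1 hs)
      rwa [← sz_re, sz_zs] at h1
    · intro h z hz
      exact (sz_re z).1 (h _ ((hzero z).2 hz))
  have hderiv : ∀ z, deriv X z = C⁻¹ * (deriv L.X (sz z) * I) := by
    intro z
    have h1 : X = fun z => C⁻¹ * L.X (sz z) := by
      funext z
      rw [hXs, ← mul_assoc, inv_mul_cancel₀ hC, one_mul]
    have h2 : HasDerivAt (fun z => C⁻¹ * L.X (sz z)) (C⁻¹ * (deriv L.X (sz z) * I)) z :=
      (hasDeriv_sz (Xd (L := iL)) z).const_mul _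
    rw [← h1] at h2
    exact h2.deriv
  have hsimple : SimpleZeros X ↔ ∀ s : ℂ, L.X s = 0 → deriv L.X s ≠ 0 := by
    constructor
    · intro h s hs hd
      have h1 := h (zs s) ((hzero' s).1 hs)
      rw [hderiv, sz_zs, hd, zero_mul, mul_zero] at h1
      exact h1 rfl
    · intro h z hz
      rw [hderiv]
      exact mul_ne_zero (inv_ne_zero hC) (mul_ne_zero (h _ ((hzero z).2 hz)) I_ne_zero)
  have hlow : ∀ a : ℝ, 0 < a → low W S a = Y23.G.CB.GM (K := iK) (DZ := zd (L := iL)) a := by
    intro a ha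
    unfold low Y23.G.CB.GM
    congr 1
    ext r
    constructor
    · rintro ⟨f, hf, h1, h2⟩
      exact ⟨f, (inDom_iff a f).1 hf, by rw [← Mass_eq K hK, h1], by rw [← hW a ha f hf, h2]⟩
    · rintro ⟨f, hf, h1, h2⟩
      have hf' := (inDom_iff a f).2 hf
      exact ⟨f, hf', by rw [Mass_eq K hK, h1], by rw [hW a ha f hf', h2]⟩
  have hmin : ∀ a : ℝ, 0 < a → ∀ f, InDom a f → (Minimal W S a f ↔
      QQ (D := zd (L := iL)) f = Y23.G.CB.GM (K := iK) (DZ := zd (L := iL)) a * NH (K := iK) f) := by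
    intro a ha f hf
    unfold Minimal
    rw [hW a ha f hf, hlow a ha, Mass_eq K hK]
  have hcc : cc (L := iL) = Real.pi * L.m * L.N ^ (-1 / (L.m : ℝ)) := by
    have hQ : 0 < L.N := by linarith [L.raw.hN]
    unfold cc
    show Real.pi * (L.m : ℝ) * Real.exp (-(Real.log L.N / L.m)) = _
    rw [Real.rpow_def_of_pos hQ]
    congr 2
    ring
  have hev : low W S =ᶠ[atTop] fun a => Y23.G.CB.GM (K := iK) (DZ := zd (L := iL)) a := by
    filter_upwards [eventually_gt_atTop 0] with a ha
    exact hlow a ha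
  have hpos : RealZeros X ↔ ∀ a : ℝ, 0 < a → 0 ≤ Y23.G.CB.GM (K := iK) (DZ := zd (L := iL)) a := by
    rw [← pos_iff (K := iK) (L := iL), hreal]
    exact (rh_iff' (L := iL)).symm
  refine ⟨fun a ha f hf => ?_, fun c hc => ?_, ?_, ?_, ?_, ?_⟩
  · rw [hlow a ha, hW a ha f hf, Mass_eq K hK]
    exact GM_le (K := iK) (L := iL) ha ((inDom_iff a f).1 hf)
  · obtain ⟨a0, ha0, h⟩ := GM_upper (K := iK) (L := iL) h0 (c := c) (by rw [hcc]; exact hc)
    refine ⟨a0, fun a ha => ?_⟩
    rw [hlow a (by linarith), neg_mul]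
    exact h a ha
  · rw [hpos]
    exact forall₂_congr fun a ha => by rw [hlow a ha]
  · rw [hpos, tendsto_congr' hev]
    exact (lim_iff (K := iK) (L := iL) h0).symm
  · rw [tendsto_congr' hev, ← bot_iff (K := iK) (L := iL), rh_iff' (L := iL), hreal]
  · obtain ⟨E, d, h1, h2, h3, h4⟩ := general (K := iK) (L := iL) hfe hnoZ (q := sz I) (by
      rw [Ne, sz_re]
      norm_num)
    have hEq : ∀ (a : ℝ) (f : ℝ → ℂ), (∀ s, Y23.TT f (s - 1 / 2) = E a s) → ∀ z, F f z = E a (sz z) := by
      intro a f h z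
      rw [← h, F_eq]
      congr 1
      unfold sz
      ring
    refine ⟨fun a z => E a (sz z), d, ⟨fun a ha => ?_, fun a ha => ?_, fun a ha z => ?_, fun a ha => ?_,
      fun a ha z hz => ?_, fun a ha => (h1 a ha).1, fun a ha f hf => ?_, fun a ha p hp => ?_⟩, ?_, ?_, fun hG => ?_⟩
    · exact fun z => (hasDeriv_sz (h1 a ha).2.1 z).differentiableAt
    · obtain ⟨f, hf1, hf2, hf3, hf4⟩ := (h1 a ha).2.2.1
      have hf' := (inDom_iff a f).2 hf1
      exact ⟨f, hf', by rw [Mass_eq K hK]; exact hf2, (hmin a ha f hf').2 hf3, hEq a f hf4⟩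
    · show E a (sz (conj z)) = conj (E a (sz z))
      rw [← sz_conj]
      exact (h1 a ha).2.2.2.1 _
    · rcases (h1 a ha).2.2.2.2.1 with h | h
      · exact Or.inl fun z => by
          show E a (sz (-z)) = E a (sz z)
          rw [← sz_neg, h]
      · exact Or.inr fun z => by
          show E a (sz (-z)) = -E a (sz z)
          rw [← sz_neg, h]
    · obtain ⟨g1, g2⟩ := (h1 a ha).2.2.2.2.2.1 _ hz
      refine ⟨(sz_re z).1 g1, ?_⟩
      rw [(hasDeriv_sz (h1 a ha).2.1 z).deriv]
      exact mul_ne_zero g2 I_ne_zero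
    · rw [hmin a ha f hf, (h1 a ha).2.2.2.2.2.2.1 f ((inDom_iff a f).1 hf),
        poly_sz (d a) (fun s => Y23.TT f (s - 1 / 2)) (E a)]
      refine exists_congr fun p => and_congr_right fun _ => forall_congr' fun z => ?_
      have e1 : Y23.TT f (sz z - 1 / 2) = F f z := by
        rw [F_eq]
        congr 1
        unfold sz
        ring
      rw [e1]
    · obtain ⟨g, k1, k2, k3⟩ := (h1 a ha).2.2.2.2.2.2.2
        (p.comp (Polynomial.C (-I) * Polynomial.X + Polynomial.C (I / 2))) (by
          rw [Polynomial.natDegree_comp, Polynomial.natDegree_linear (neg_ne_zero.2 I_ne_zero), mul_one]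
          exact hp)
      have hg' := (inDom_iff a g).2 k1
      refine ⟨g, hg', (hmin a ha g hg').2 k2, fun z => ?_⟩
      have k4 := k3 (sz z)
      have e1 : Y23.TT g (sz z - 1 / 2) = F g z := by
        rw [F_eq]
        congr 1
        unfold sz
        ring
      rw [e1, Polynomial.eval_comp] at k4
      have e2 : (Polynomial.C (-I) * Polynomial.X + Polynomial.C (I / 2)).eval (sz z) = z := by
        simp only [Polynomial.eval_add, Polynomial.eval_mul, Polynomial.eval_C, Polynomial.eval_X]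
        unfold sz
        linear_combination (-z) * Complex.I_mul_I
      rw [e2] at k4
      exact k4
    · rw [hreal, h2]
      constructor
      · rintro ⟨G, g1, g3⟩
        exact ⟨fun z => G (sz z), tlu_sz g1, fun z hz => g3 _ ((hzero z).2 hz)⟩
      · rintro ⟨G, g1, g3⟩
        refine ⟨fun s => G (zs s), ?_, fun s hs => g3 _ ((hzero' s).1 hs)⟩
        have := tlu_zs g1
        simp only [sz_zs] at this
        exact this
    · rw [hreal, hsimple, h3]
      have hq : ∀ z, L.X (sz z) / L.X (sz I) = X z / X I := by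
        intro z
        rw [hXs, hXs, mul_div_mul_left _ _ hC]
      constructor
      · intro h
        have := tlu_sz h
        unfold ConvergesTo
        refine this.congr_right ?_
        exact fun z => hq z
      · intro h
        have := tlu_zs h
        simp only [sz_zs] at this
        refine this.congr_right ?_
        intro s
        have := hq (zs s)
        rw [sz_zs] at this
        exact this.symm
    · obtain ⟨g1, g2, g3⟩ := h4 (hreal.1 hG)
      refine ⟨?_, fun c R hc0 hc hR => ?_, fun hs => ?_⟩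
      · obtain ⟨G, k1, k3, k4, k5⟩ := g1
        refine ⟨fun z => G (sz z), fun z => (hasDeriv_sz k1 z).differentiableAt,
          fun z => by rw [← hzero]; exact k3 _, fun z hz => ?_, tlu_sz k5⟩
        rw [(hasDeriv_sz k1 z).deriv]
        exact mul_ne_zero (k4 _ hz) I_ne_zero
      · obtain ⟨A, hA, h⟩ := g2 c R hc0 (by rw [hcc]; exact hc) hR
        refine ⟨A, hA, fun a ha => ?_⟩
        obtain ⟨ζ, q1, q2, q3⟩ := h a ha
        refine ⟨fun z => zs (ζ (sz z)), fun ρ hρ hR' => ?_, fun ρ ρ' hρ hρ' hR1 hR2 he => ?_, fun z hz hR' => ?_⟩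
        · obtain ⟨r1, r2⟩ := q1 (sz ρ) ((hzero ρ).2 hρ) (by rw [sz_norm]; exact hR')
          refine ⟨by show E a (sz (zs (ζ (sz ρ)))) = 0; rw [sz_zs]; exact r1, ?_⟩
          have e : ζ (sz ρ) - sz ρ = I * (zs (ζ (sz ρ)) - ρ) := by
            rw [← sz_sub, sz_zs]
          rw [e, norm_mul, Complex.norm_I, one_mul] at r2
          exact r2
        · have he' : ζ (sz ρ) = ζ (sz ρ') := by
            have := congrArg sz he
            rwa [sz_zs, sz_zs] at this
          have h5 := q2 _ _ ((hzero ρ).2 hρ) ((hzero ρ').2 hρ') (by rw [sz_norm]; exact hR1)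
            (by rw [sz_norm]; exact hR2) he'
          have h6 := congrArg zs h5
          rwa [zs_sz, zs_sz] at h6
        · obtain ⟨ρ, r1, r2, r3⟩ := q3 (sz z) hz (by rw [sz_norm]; exact hR')
          refine ⟨zs ρ, (hzero' ρ).1 r1, ?_, ?_⟩
          · rw [← sz_norm, sz_zs]
            exact r2
          · show z = zs (ζ (sz (zs ρ)))
            rw [sz_zs, ← r3, zs_sz]
      · obtain ⟨g4, g5⟩ := g3 (hsimple.1 hs)
        exact ⟨fun a ha => by rw [hlow a ha]; exact g4 a ha, g5⟩

end Pool.Agent.Run7.h336.CB.S
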