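import Pool.Agent.Y23.G.Sp

/-! # The mass on a window of the critical line -/

set_option autoImplicit false
set_option linter.unusedSectionVars false
set_option maxHeartbeats 2000000

open Complex Filter Topology Set MeasureTheory Metric
open scoped ComplexConjugate

namespace Pool.Agent.Y23.G.CB

/-- the window: a compact symmetric set of real numbers which contains an interval -/
class Win : Type where
  /-- the window -/
  S : Set ℝ
  /-- a bound for the window -/
  k : ℝ
  /-- the centre of an interval in the window -/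
  c : ℝ
  /-- its half length -/
  r : ℝ
  pos : 0 < k
  rpos : 0 < r
  closed : IsClosed S
  bdd : ∀ t ∈ S, |t| ≤ k
  int : ∀ t : ℝ, |t - c| ≤ r → t ∈ S
  symm : ∀ t ∈ S, -t ∈ S

/-- the window -/
def wi [K : Win] : Set ℝ := K.S

/-- the mass of the transform on the window -/
noncomputable def NH [K : Win] (f : ℝ → ℂ) : ℝ := ∫ t in wi, ‖TT f (t * I)‖ ^ 2

/-- the scalar product on the window -/
noncomputable def IPH [K : Win] (f g : ℝ → ℂ) : ℂ := ∫ t in wi, GG f g (t * I)

variable [K : Win]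

lemma wi_meas : MeasurableSet (wi (K := K)) := K.closed.measurableSet

lemma wi_compact : IsCompact (wi (K := K)) :=
  isCompact_Icc.of_isClosed_subset K.closed fun t ht => abs_le.1 (K.bdd t ht)

lemma mem_wi {t : ℝ} (h : t ∈ wi (K := K)) : |t| ≤ K.k := K.bdd t h

lemma c_mem : K.c ∈ wi (K := K) := K.int _ (by rw [sub_self, abs_zero]; exact K.rpos.le)

lemma wi_neg {t : ℝ} : -t ∈ wi (K := K) ↔ t ∈ wi (K := K) :=
  ⟨fun h => by have := K.symm _ h; rwa [neg_neg] at this, fun h => K.symm _ h⟩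

/-- the distance from the window -/
noncomputable def Dw (y : ℝ) : ℝ := infDist y (wi (K := K))

lemma Dw_le {y t : ℝ} (ht : t ∈ wi (K := K)) : Dw y ≤ |y - t| := by
  have := infDist_le_dist_of_mem (x := y) ht
  rwa [Real.dist_eq] at this

lemma Dw_pos {y : ℝ} (hy : y ∉ wi (K := K)) : 0 < Dw (K := K) y :=
  (K.closed.notMem_iff_infDist_pos ⟨_, c_mem⟩).1 hy

lemma Dw_ge (y : ℝ) : |y| - K.k ≤ Dw (K := K) y := by
  refine (le_infDist ⟨_, c_mem⟩).2 fun t ht => ?_
  rw [Real.dist_eq]
  have := mem_wi ht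
  have := abs_sub_abs_le_abs_sub y t
  linarith

lemma Dw_nonneg (y : ℝ) : 0 ≤ Dw (K := K) y := infDist_nonneg

lemma NH_int {a : ℝ} {f : ℝ → ℂ} (hf : Fa a f) : IntegrableOn (fun t : ℝ => ‖TT f (t * I)‖ ^ 2) wi :=
  (int_TT_sq hf).integrableOn

lemma NH_nonneg (f : ℝ → ℂ) : 0 ≤ NH f := integral_nonneg fun _ => sq_nonneg _

lemma NH_le_N2 {a : ℝ} {f : ℝ → ℂ} (hf : Fa a f) : NH f ≤ 2 * Real.pi * N2 f := by
  rw [← plancherel hf]
  exact setIntegral_le_integral (int_TT_sq hf) (Eventually.of_forall fun t => sq_nonneg _)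

lemma NH_le_LL {a : ℝ} {f : ℝ → ℂ} (hf : Hd a f) : NH f ≤ LL f := (NH_le_N2 hf.1).trans (N2_le_LL hf)

lemma NH_smul (f : ℝ → ℂ) (c : ℂ) : NH (fun x => c * f x) = ‖c‖ ^ 2 * NH f := by
  unfold NH
  rw [← integral_const_mul]
  refine integral_congr_ae (Eventually.of_forall fun v => ?_)
  simp only
  rw [TT_smul, norm_mul]
  ring

lemma NH_add_le {a : ℝ} {f g : ℝ → ℂ} (hf : Fa a f) (hg : Fa a g) :
    NH (fun x => f x + g x) ≤ 2 * NH f + 2 * NH g := by
  unfold NH
  rw [← integral_const_mul, ← integral_const_mul, ← integral_add ((NH_int hf).const_mul 2) ((NH_int hg).const_mul 2)]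
  refine integral_mono (NH_int (hf.add hg)) (((NH_int hf).const_mul 2).add ((NH_int hg).const_mul 2)) fun v => ?_
  simp only
  rw [TT_add hf hg]
  exact sq_add_le' _ _

/-- a transform vanishing on the window vanishes -/
lemma TT_zero_of_NH {a : ℝ} {f : ℝ → ℂ} (hf : Fa a f) (h : NH f = 0) (w : ℂ) : TT f w = 0 := by
  have hc := TT_line_cont hf
  have hr := K.rpos
  have h0 : ∀ t ∈ Ioo (K.c - K.r) (K.c + K.r), TT f (t * I) = 0 := by
    have h1 := (setIntegral_eq_zero_iff_of_nonneg_ae (μ := volume) (s := wi)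
      (Eventually.of_forall fun t => sq_nonneg ‖TT f (t * I)‖) (NH_int hf)).1 h
    have hsub : Ioo (K.c - K.r) (K.c + K.r) ⊆ wi (K := K) := by
      intro t ht
      refine K.int t (abs_le.2 ⟨?_, ?_⟩)
      · linarith [ht.1]
      · linarith [ht.2]
    have h2 : (fun t : ℝ => ‖TT f (t * I)‖ ^ 2) =ᵐ[volume.restrict (Ioo (K.c - K.r) (K.c + K.r))] fun _ => 0 :=
      ae_restrict_of_ae_restrict_of_subset hsub h1
    have h3 := Measure.eqOn_open_of_ae_eq h2 isOpen_Ioo (hc.norm.pow 2).continuousOn continuousOn_const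
    intro t ht
    have := h3 ht
    exact norm_eq_zero.1 (pow_eq_zero_iff two_ne_zero |>.1 this)
  have hd := differentiable_TT hf
  have hanal : AnalyticOnNhd ℂ (TT f) univ := fun z _ => hd.analyticAt z
  have h2 : TT f = fun _ => 0 := by
    refine hanal.eq_of_frequently_eq (g := fun _ => 0) (fun z _ => analyticAt_const) (z₀ := (K.c : ℂ) * I) ?_
    have ht : Tendsto (fun n : ℕ => ((K.c + (1 : ℝ) / (n + 1) : ℝ) : ℂ) * I) atTop (𝓝[≠] ((K.c : ℂ) * I)) := by
      refine tendsto_nhdsWithin_iff.2 ⟨?_, Eventually.of_forall fun n => ?_⟩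
      · have h3 := (tendsto_one_div_add_atTop_nhds_zero_nat (𝕜 := ℝ)).const_add K.c
        rw [add_zero] at h3
        exact ((Complex.continuous_ofReal.tendsto _).comp h3).mul_const I
      · rw [mem_compl_iff, mem_singleton_iff]
        intro h4
        have h5 := mul_right_cancel₀ I_ne_zero h4
        have h6 : K.c + (1 : ℝ) / (n + 1) = K.c := by exact_mod_cast h5
        have : (0 : ℝ) < 1 / (n + 1) := by positivity
        linarith
    have h5 : ∀ᶠ n : ℕ in atTop, TT f (((K.c + (1 : ℝ) / (n + 1) : ℝ) : ℂ) * I) = 0 := by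
      have h3 := tendsto_one_div_add_atTop_nhds_zero_nat (𝕜 := ℝ)
      filter_upwards [h3.eventually (gt_mem_nhds hr)] with n hn
      have : (0 : ℝ) < 1 / (n + 1) := by positivity
      exact h0 _ ⟨by linarith, by linarith⟩
    exact ht.frequently h5.frequently
  exact congrFun h2 w

variable [DZ : ZD] [EC : ZC]

lemma IPH_int {a : ℝ} {f g : ℝ → ℂ} (hf : Fa a f) (hg : Fa a g) :
    IntegrableOn (fun t : ℝ => GG f g (t * I)) wi :=
  ((GG_diff hf hg).continuous.comp (by fun_prop : Continuous fun t : ℝ => (t * I : ℂ))).continuousOn.integrableOn_compact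
    wi_compact

lemma IPH_conj (f g : ℝ → ℂ) : IPH g f = conj (IPH f g) := by
  unfold IPH
  rw [← integral_conj]
  refine integral_congr_ae (Eventually.of_forall fun x => ?_)
  simp only
  rw [GG_line', GG_line', map_mul, Complex.conj_conj]
  ring

lemma IPH_add_left {a : ℝ} {f g h : ℝ → ℂ} (hf : Fa a f) (hg : Fa a g) (hh : Fa a h) :
    IPH (fun x => f x + g x) h = IPH f h + IPH g h := by
  unfold IPH
  rw [← integral_add (IPH_int hf hh) (IPH_int hg hh)]
  refine integral_congr_ae (Eventually.of_forall fun x => ?_)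
  simp only
  exact GG_add_left hf hg _

lemma IPH_smul_left (f h : ℝ → ℂ) (c : ℂ) : IPH (fun x => c * f x) h = c * IPH f h := by
  unfold IPH
  rw [← integral_const_mul]
  refine integral_congr_ae (Eventually.of_forall fun x => ?_)
  simp only
  exact GG_smul_left _ _ _ _

lemma IPH_self (f : ℝ → ℂ) : IPH f f = (NH f : ℂ) := by
  unfold IPH NH
  rw [← integral_complex_ofReal]
  refine integral_congr_ae (Eventually.of_forall fun x => ?_)
  simp only
  rw [GG_line', Complex.mul_conj, Complex.normSq_eq_norm_sq]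

/-- a large multiple of the mass on the window makes the form coercive -/
theorem poinc {a : ℝ} (ha : 0 < a) (M : ℝ) : ∃ Λ : ℝ, 0 < Λ ∧ ∀ f : ℝ → ℂ, Hd a f →
    M * N2 f ≤ QQ f + Λ * NH f := by
  by_contra hcon
  push Not at hcon
  obtain ⟨C, hC, hco⟩ := coer ha
  have hpi := Real.pi_pos
  have h1 : ∀ n : ℕ, ∃ f : ℝ → ℂ, Hd a f ∧ N2 f = 1 ∧ QQ f + ((n : ℝ) + 1) * NH f < M := by
    intro n
    obtain ⟨f, hf, hlt⟩ := hcon ((n : ℝ) + 1) (by positivity)
    have hN : 0 < N2 f := by
      refine lt_of_le_of_ne (N2_nonneg f) fun h0 => ?_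
      have h2 := TT_zero_of_N2 ha hf.1 h0.symm
      rw [QQ_zero_of_TT h2, ← h0] at hlt
      have h3 : NH f = 0 := by
        unfold NH
        simp only [h2, norm_zero, ne_eq, OfNat.ofNat_ne_zero, not_false_eq_true, zero_pow, integral_zero]
      rw [h3] at hlt
      linarith
    set c : ℂ := ((1 / Real.sqrt (N2 f) : ℝ) : ℂ) with hc
    have hc2 : ‖c‖ ^ 2 = 1 / N2 f := by
      rw [hc, Complex.norm_real, Real.norm_eq_abs, sq_abs, div_pow, Real.sq_sqrt hN.le, one_pow]
    refine ⟨fun x => c * f x, hf.smul c, ?_, ?_⟩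
    · rw [N2_smul, hc2]; exact one_div_mul_cancel hN.ne'
    · rw [QQ_smul, NH_smul, hc2]
      have e : 1 / N2 f * QQ f + ((n : ℝ) + 1) * (1 / N2 f * NH f) = (QQ f + ((n : ℝ) + 1) * NH f) / N2 f := by
        field_simp
      rw [e, div_lt_iff₀ hN]
      exact hlt
  choose f hf hN hQ using h1
  have hQb : ∀ n, QQ (f n) ≤ M := fun n => by
    have h1 := hQ n
    have h2 := NH_nonneg (f n)
    have h3 : 0 ≤ ((n : ℝ) + 1) * NH (f n) := by positivity
    linarith
  have hLb : ∀ n, LL (f n) ≤ 4 * Real.pi * M + C := fun n => by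
    have h1 := hco (f n) (hf n)
    rw [hN n, mul_one] at h1
    have := mul_le_mul_of_nonneg_left (hQb n) (by positivity : (0 : ℝ) ≤ 4 * Real.pi)
    linarith
  have hQl : ∀ n, -C / (4 * Real.pi) ≤ QQ (f n) := fun n => by
    have h1 := hco (f n) (hf n)
    rw [hN n, mul_one] at h1
    have h2 := LL_nonneg (f n)
    rw [div_le_iff₀ (by positivity)]
    linarith
  have hNHb : ∀ n : ℕ, NH (f n) ≤ (M + C / (4 * Real.pi)) / ((n : ℝ) + 1) := fun n => by
    rw [le_div_iff₀ (by positivity)]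
    have h1 := hQ n
    have h2 := hQl n
    rw [neg_div] at h2
    linarith
  obtain ⟨φ, hφ, hcau⟩ := compact_seq ha hf hLb
  -- the limit in mean square
  have hM : ∀ n, MemLp (f n) 2 volume := fun n => (hf n).1.1
  have hcs : CauchySeq (fun n => (hM (φ n)).toLp (f (φ n))) := by
    rw [Metric.cauchySeq_iff]
    intro ε hε
    obtain ⟨N, hN'⟩ := hcau ((ε / 2) ^ 2) (by positivity)
    refine ⟨N, fun m hm n hn => ?_⟩
    have h1 := hN' m n hm hn
    have h3 : ‖(hM (φ m)).toLp (f (φ m)) - (hM (φ n)).toLp (f (φ n))‖ ^ 2 = N2 (fun x => f (φ m) x - f (φ n) x) := by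
      rw [← MemLp.toLp_sub]
      exact norm_toLp_sq _
    rw [dist_eq_norm]
    rw [← h3] at h1
    have h4 := abs_le_of_sq_le_sq' h1 (by positivity)
    linarith [h4.2]
  obtain ⟨u, hu⟩ := cauchySeq_tendsto_of_complete hcs
  set g : ℝ → ℂ := (Icc (-a) a).indicator (u : ℝ → ℂ) with hg
  have hgF : Fa a g := by
    refine ⟨(Lp.memLp u).indicator measurableSet_Icc, fun x hx => ?_⟩
    rw [hg, indicator_of_notMem]
    rw [mem_Icc, ← abs_le]
    exact not_le.2 hx
  have hN2 : ∀ n, N2 (fun x => f n x - g x) ≤ ‖(hM n).toLp (f n) - u‖ ^ 2 := by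
    intro n
    have hmu : MemLp (fun x => f n x - (u : ℝ → ℂ) x) 2 volume := (hM n).sub (Lp.memLp u)
    have h1 : (hM n).toLp (f n) - u = hmu.toLp _ := by
      have : u = (Lp.memLp u).toLp (u : ℝ → ℂ) := (Lp.toLp_coeFn u (Lp.memLp u)).symm
      conv_lhs => rw [this]
      rw [← MemLp.toLp_sub]
      rfl
    rw [h1, norm_toLp_sq]
    unfold N2
    refine integral_mono ((hf n).1.sub hgF).sq_int (hmu.integrable_norm_pow (by norm_num)) fun x => ?_
    simp only
    by_cases hx : x ∈ Icc (-a) a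
    · rw [hg, indicator_of_mem hx]
    · rw [hg, indicator_of_notMem hx]
      have : f n x = 0 := (hf n).1.2 x (by rw [mem_Icc, ← abs_le, not_le] at hx; exact hx)
      rw [this]
      simp
  have hN0 : Tendsto (fun n => N2 (fun x => f (φ n) x - g x)) atTop (𝓝 0) := by
    have h1 : Tendsto (fun n => ‖(hM (φ n)).toLp (f (φ n)) - u‖ ^ 2) atTop (𝓝 0) := by
      have := (tendsto_iff_norm_sub_tendsto_zero.1 hu).pow 2
      simpa using this
    exact squeeze_zero (fun n => N2_nonneg _) (fun n => hN2 (φ n)) h1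
  -- the mass of the limit on the window
  have hNHg : NH g = 0 := by
    refine le_antisymm (le_of_forall_pos_le_add fun ε hε => ?_) (NH_nonneg g)
    have t1 : Tendsto (fun n : ℕ => (M + C / (4 * Real.pi)) / (((φ n : ℕ) : ℝ) + 1)) atTop (𝓝 0) := by
      have h1 : Tendsto (fun n : ℕ => ((n : ℝ) + 1)) atTop atTop :=
        tendsto_atTop_add_const_right _ _ tendsto_natCast_atTop_atTop
      exact ((h1.comp hφ.tendsto_atTop).const_div_atTop _)
    obtain ⟨n, h1, h2⟩ := ((t1.eventually (gt_mem_nhds (show 0 < ε / 4 by positivity))).and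
      (hN0.eventually (gt_mem_nhds (show 0 < ε / (16 * Real.pi) by positivity)))).exists
    have h3 := NH_add_le (hf (φ n)).1 (hgF.sub (hf (φ n)).1)
    have e : (fun x => f (φ n) x + (g x - f (φ n) x)) = g := by funext x; ring
    rw [e] at h3
    have h4 := NH_le_N2 (hgF.sub (hf (φ n)).1)
    have h5 : N2 (fun x => g x - f (φ n) x) = N2 (fun x => f (φ n) x - g x) := by
      unfold N2
      congr 1
      funext x
      rw [norm_sub_rev]
    rw [h5] at h4
    have h6 := hNHb (φ n)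
    have h7 : 2 * Real.pi * N2 (fun x => f (φ n) x - g x) ≤ 2 * Real.pi * (ε / (16 * Real.pi)) :=
      mul_le_mul_of_nonneg_left h2.le (by positivity)
    have h8 : 2 * Real.pi * (ε / (16 * Real.pi)) = ε / 8 := by field_simp; ring
    linarith
  have hg0 := N2_zero_of_TT hgF (TT_zero_of_NH hgF hNHg)
  obtain ⟨n, h2⟩ := (hN0.eventually (gt_mem_nhds (show (0 : ℝ) < 1 / 4 by norm_num))).exists
  have h3 := N2_add_le hgF ((hf (φ n)).1.sub hgF)
  have e : (fun x => g x + (f (φ n) x - g x)) = f (φ n) := by funext x; ring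
  rw [e, hN, hg0] at h3
  linarith

/-- coercivity with respect to the mass on the window -/
theorem coerH {a : ℝ} (ha : 0 < a) : ∃ C1 C2 : ℝ, 0 < C1 ∧ 0 < C2 ∧ ∀ f : ℝ → ℂ, Hd a f → LL f ≤ C1 * QQ f + C2 * NH f := by
  obtain ⟨C, hC, hco⟩ := coer ha
  obtain ⟨Λ, hΛ, h⟩ := poinc ha 1
  have hpi := Real.pi_pos
  refine ⟨4 * Real.pi + C, C * Λ, by positivity, by positivity, fun f hf => ?_⟩
  have h1 := hco f hf
  have h2 := h f hf
  rw [one_mul] at h2
  have h3 := mul_le_mul_of_nonneg_left h2 hC.le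
  linarith

end Pool.Agent.Y23.G.CB
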