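import Pool.Agent.Run7.h336.CB.B9
import Pool.Agent.Y23.G.Ts5

/-! # Rates -/

set_option autoImplicit false
set_option linter.unusedSectionVars false
set_option maxHeartbeats 2000000

open Complex Filter Topology Set MeasureTheory Metric
open scoped ComplexConjugate Convolution

namespace Pool.Agent.Y23.G.CB

variable [K : Win] [L : LFun]

/-- test functions with a fixed mass on the window -/
lemma test_win (h1 : L.X (1 / 2 + K.c * I) ≠ 0) {η : ℝ} (hη : 0 < η) :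
    ∃ B C c1 A1 : ℝ, 0 ≤ B ∧ 0 < C ∧ 0 < c1 ∧ 1 ≤ A1 ∧ ∀ a : ℝ, A1 ≤ a → ∃ U : ℝ → ℂ, Hd a U ∧
      SS U ≤ C * Real.exp (2 * (B * (1 + a) - cc * Real.exp (2 * (a - η) / L.m))) ∧ c1 ≤ NH U := by
  have hη2 : 0 < η / 2 := by positivity
  obtain ⟨A, hA, hXb⟩ := X_all (L := L)
  obtain ⟨B, C, hB, hC, hcut⟩ := cut (L := L) hA one_pos (H := fun w => L.X (1 / 2 + w)) ((Xd (L := L)).comp (by fun_prop))
    (fun w => by rw [one_mul]; exact hXb w) (R := 1) zero_le_one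
  obtain ⟨Ck, hCk, hkb⟩ := kap_bound hη2
  set Z : ℝ := ∑' ρ : Zt, (mu ρ : ℝ) * (1 / (1 + ((ρ : ℂ).im - K.c) ^ 2)) with hZ
  have hZ0 : 0 ≤ Z := tsum_nonneg fun ρ => by positivity
  have hk0 := TT_kap_zero hη2
  -- the kernel
  set w0 : ℂ := K.c * I with hw0d
  have hw0 : w0.re = 0 := by rw [hw0d]; simp
  have hw0i : w0.im = K.c := by rw [hw0d]; simp
  set κ : ℝ → ℂ := fun x => kap (η / 2) x * cexp (-w0 * x) with hκ
  have hκF : Fa η κ := by
    have := (Fa_kap hη2).mul_bdd (g := fun x : ℝ => cexp (-w0 * x)) (by fun_prop)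
    rwa [show 2 * (η / 2) = η by ring] at this
  have hκT : ∀ w, TT κ w = TT (kap (η / 2)) (-w0 + w) := fun w => TT_mul_exp _ _ _
  have hκ0 : TT κ w0 = TT (kap (η / 2)) 0 := by rw [hκT, neg_add_cancel]
  have hκb : ∀ x, ‖κ x‖ ≤ 3 := by
    intro x
    simp only [hκ]
    rw [norm_mul, Complex.norm_exp]
    have : (-w0 * (x : ℂ)).re = 0 := by
      rw [Complex.re_mul_ofReal, Complex.neg_re, hw0]; ring
    rw [this, Real.exp_zero, mul_one]
    exact kap_bdd hη2 x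
  set x1 : ℝ := ‖L.X (1 / 2 + w0)‖ / 2 with hx1
  set k1 : ℝ := ‖TT κ w0‖ / 2 with hk1
  have hp : 0 < x1 := by have := norm_pos_iff.2 h1; positivity
  have hp2 : 0 < k1 := by rw [hk1, hκ0]; have := norm_pos_iff.2 hk0; positivity
  -- a small interval
  obtain ⟨s, hs0, hsk, hs⟩ : ∃ s : ℝ, 0 < s ∧ s ≤ K.r ∧ ∀ t : ℝ, |t - K.c| ≤ s → x1 ≤ ‖L.X (1 / 2 + t * I)‖ ∧
      k1 ≤ ‖TT κ (t * I)‖ := by
    have c1 : Continuous (fun t : ℝ => ‖L.X (1 / 2 + t * I)‖) :=
      ((Xd (L := L)).continuous.comp (by fun_prop : Continuous fun t : ℝ => (1 / 2 + t * I : ℂ))).norm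
    have c2 : Continuous (fun t : ℝ => ‖TT κ (t * I)‖) := (TT_line_cont hκF).norm
    have e1 : ∀ᶠ t : ℝ in 𝓝 K.c, x1 < ‖L.X (1 / 2 + t * I)‖ := by
      refine (c1.tendsto K.c).eventually (lt_mem_nhds ?_)
      show x1 < ‖L.X (1 / 2 + w0)‖
      rw [hx1]
      have := norm_pos_iff.2 h1
      linarith
    have e2 : ∀ᶠ t : ℝ in 𝓝 K.c, k1 < ‖TT κ (t * I)‖ := by
      refine (c2.tendsto K.c).eventually (lt_mem_nhds ?_)
      show k1 < ‖TT κ w0‖
      rw [hk1, hκ0]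
      have := norm_pos_iff.2 hk0
      linarith
    obtain ⟨r, hr, hball⟩ := Metric.eventually_nhds_iff.1 (e1.and e2)
    refine ⟨min (r / 2) K.r, lt_min (by positivity) K.rpos, min_le_right _ _, fun t ht => ?_⟩
    have h2 : dist t K.c < r := by
      rw [Real.dist_eq]
      have := ht.trans (min_le_left _ _)
      linarith
    exact ⟨(hball h2).1.le, (hball h2).2.le⟩
  obtain ⟨A1, hA1, hlim⟩ := tau_lim (L := L) (B := B) (C := C * (2 / x1)) (c := 0) (η := η) hB (by positivity)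
    (by have := cc_pos (L := L); positivity)
  refine ⟨B, C ^ 2 * Ck ^ 2 * Z + 1, 2 * s * (x1 / 2 * k1) ^ 2, max A1 (η + 1), hB, by positivity,
    by positivity, le_max_of_le_left hA1, fun a ha => ?_⟩
  have haA : A1 ≤ a := le_of_max_le_left ha
  have haη : η + 1 ≤ a := le_of_max_le_right ha
  have ha0 : 0 < a := by linarith
  obtain ⟨f, hf, hfb⟩ := hcut (a - η) (by linarith)
  set τ := Real.exp (B * (1 + a) - cc * Real.exp (2 * (a - η) / L.m)) with hτ
  have hτ0 : 0 < τ := Real.exp_pos _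
  have hfb' : ∀ w : ℂ, |w.re| ≤ 1 → ‖TT f w - L.X (1 / 2 + w)‖ ≤ C * τ := by
    intro w hw
    refine (hfb w hw).trans (mul_le_mul_of_nonneg_left (Real.exp_le_exp.2 ?_) hC.le)
    nlinarith
  obtain ⟨g, hg, hgT⟩ := conv_TT hf hκF hκb
  rw [sub_add_cancel] at hg
  -- values at the zeros
  have hval : ∀ ρ : Zt, (mu ρ : ℝ) * ‖TT g ((ρ : ℂ) - 1 / 2)‖ ^ 2 ≤
      (C ^ 2 * Ck ^ 2 * τ ^ 2) * ((mu ρ : ℝ) * (1 / (1 + ((ρ : ℂ).im - K.c) ^ 2))) := by
    intro ρ
    set w := (ρ : ℂ) - 1 / 2 with hw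
    have hre : |w.re| ≤ 1 := half_re ρ
    have hX : L.X (1 / 2 + w) = 0 := by
      rw [hw, add_sub_cancel]
      exact ρ.2
    have h1 : ‖TT f w‖ ≤ C * τ := by
      have := hfb' w hre
      rwa [hX, sub_zero] at this
    have h2 : ‖TT κ w‖ ≤ Ck / (1 + ((ρ : ℂ).im - K.c) ^ 2) := by
      rw [hκT]
      have h3 := hkb (-w0 + w) (by rw [Complex.add_re, Complex.neg_re, hw0, neg_zero, zero_add]; exact hre)
      have h4 : (-w0 + w).im = (ρ : ℂ).im - K.c := by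
        rw [Complex.add_im, Complex.neg_im, hw0i, hw]; simp; ring
      rwa [h4] at h3
    have h3 : ‖TT g w‖ ≤ (C * τ) * (Ck / (1 + ((ρ : ℂ).im - K.c) ^ 2)) := by
      rw [hgT, norm_mul]
      exact mul_le_mul h1 h2 (norm_nonneg _) (by positivity)
    have h4 : ‖TT g w‖ ^ 2 ≤ (C ^ 2 * Ck ^ 2 * τ ^ 2) * (1 / (1 + ((ρ : ℂ).im - K.c) ^ 2)) := by
      set d := 1 + ((ρ : ℂ).im - K.c) ^ 2 with hd
      have hd1 : 1 ≤ d := by rw [hd]; nlinarith [sq_nonneg ((ρ : ℂ).im - K.c)]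
      calc ‖TT g w‖ ^ 2 ≤ ((C * τ) * (Ck / d)) ^ 2 := pow_le_pow_left₀ (norm_nonneg _) h3 2
        _ = (C ^ 2 * Ck ^ 2 * τ ^ 2) * (1 / d ^ 2) := by field_simp
        _ ≤ (C ^ 2 * Ck ^ 2 * τ ^ 2) * (1 / d) := by
            refine mul_le_mul_of_nonneg_left ?_ (by positivity)
            exact one_div_le_one_div_of_le (by positivity) (by nlinarith)
    calc _ ≤ (mu ρ : ℝ) * ((C ^ 2 * Ck ^ 2 * τ ^ 2) * (1 / (1 + ((ρ : ℂ).im - K.c) ^ 2))) :=
          mul_le_mul_of_nonneg_left h4 (Nat.cast_nonneg _)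
      _ = _ := by ring
  have hdom : Dom g := Summable.of_nonneg_of_le (fun ρ => by positivity) hval ((zsummable K.c).mul_left _)
  refine ⟨g, (Hd_iff ha0 g).2 ⟨hg, hdom⟩, ?_, ?_⟩
  · have h8 : SS g ≤ (C ^ 2 * Ck ^ 2 * τ ^ 2) * Z := by
      unfold SS
      rw [hZ, ← tsum_mul_left]
      exact hdom.tsum_le_tsum hval ((zsummable K.c).mul_left _)
    have h9 : Real.exp (2 * (B * (1 + a) - cc * Real.exp (2 * (a - η) / L.m))) = τ ^ 2 := by
      rw [hτ, ← Real.exp_nat_mul]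
      push_cast; rfl
    rw [h9]
    nlinarith [sq_nonneg τ]
  · have h8 := hlim a haA
    rw [zero_mul, neg_zero, Real.exp_zero] at h8
    have h9 : C * τ ≤ x1 / 2 := by
      have e : C * (2 / x1) * τ = C * τ / (x1 / 2) := by field_simp
      rw [e, div_le_one (by positivity)] at h8
      exact h8
    have h10 : ∀ t ∈ Icc (K.c - s) (K.c + s), (x1 / 2 * k1) ^ 2 ≤ ‖TT g (t * I)‖ ^ 2 := by
      intro t ht
      have ht' : |t - K.c| ≤ s := abs_le.2 ⟨by linarith [ht.1], by linarith [ht.2]⟩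
      obtain ⟨h11, h12⟩ := hs t ht'
      have h13 := hfb' (t * I) (by simp)
      have h14 : ‖L.X (1 / 2 + t * I)‖ ≤ ‖TT f (t * I)‖ + ‖TT f (t * I) - L.X (1 / 2 + t * I)‖ := by
        have e : L.X (1 / 2 + t * I) = TT f (t * I) - (TT f (t * I) - L.X (1 / 2 + t * I)) := by ring
        calc ‖L.X (1 / 2 + t * I)‖ = ‖TT f (t * I) - (TT f (t * I) - L.X (1 / 2 + t * I))‖ := by rw [← e]
          _ ≤ _ := norm_sub_le _ _
      refine pow_le_pow_left₀ (by positivity) ?_ 2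
      rw [hgT, norm_mul]
      exact mul_le_mul (by linarith) h12 hp2.le (norm_nonneg _)
    have hsub : Icc (K.c - s) (K.c + s) ⊆ wi (K := K) := by
      intro t ht
      exact K.int t (abs_le.2 ⟨by linarith [ht.1], by linarith [ht.2]⟩)
    have h11 : ∫ t in Icc (K.c - s) (K.c + s), ‖TT g (t * I)‖ ^ 2 ≤ NH g := by
      unfold NH
      exact setIntegral_mono_set (NH_int hg) (Eventually.of_forall fun t => sq_nonneg _) hsub.eventuallyLE
    refine le_trans ?_ h11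
    have h12 : ∫ t in Icc (K.c - s) (K.c + s), (x1 / 2 * k1) ^ 2 ≤ ∫ t in Icc (K.c - s) (K.c + s), ‖TT g (t * I)‖ ^ 2 :=
      setIntegral_mono_on (integrableOn_const (by simp)) ((int_TT_sq hg).integrableOn) measurableSet_Icc h10
    refine le_trans (le_of_eq ?_) h12
    simp only [integral_const, MeasurableSet.univ, measureReal_restrict_apply, univ_inter,
      Real.volume_real_Icc, smul_eq_mul]
    rw [max_eq_left (by linarith)]
    ring

/-- **the minimum is at most doubly exponentially small** -/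
theorem GM_upper (h1 : L.X (1 / 2 + K.c * I) ≠ 0) {c : ℝ} (hc : c < 2 * cc) : ∃ a0 : ℝ, 1 ≤ a0 ∧ ∀ a : ℝ, a0 ≤ a →
    GM a ≤ Real.exp (-(c * Real.exp (2 * a / L.m))) := by
  obtain ⟨η, hη, hcη⟩ := exists_eta' (L := L) (c := c / 2) (by linarith)
  obtain ⟨B, C, c1, A1, hB, hC, hc1, hA1, ht⟩ := test_win (L := L) h1 hη
  obtain ⟨A2, hA2, hlim⟩ := tau_lim (L := L) (B := B) (C := Real.sqrt (C / c1)) (c := c / 2) (η := η)
    hB (by positivity) hcη
  refine ⟨max A1 A2, le_max_of_le_left hA1, fun a ha => ?_⟩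
  have ha1 : A1 ≤ a := le_of_max_le_left ha
  have ha2 : A2 ≤ a := le_of_max_le_right ha
  have ha0 : 0 < a := by linarith
  obtain ⟨U, hU, hS, hU1⟩ := ht a ha1
  rcases le_or_gt (GM a) 0 with h | h
  · exact h.trans (Real.exp_pos _).le
  set τ := Real.exp (B * (1 + a) - cc * Real.exp (2 * (a - η) / L.m)) with hτ
  have hτ0 : 0 < τ := Real.exp_pos _
  have h9 : Real.exp (2 * (B * (1 + a) - cc * Real.exp (2 * (a - η) / L.m))) = τ ^ 2 := by
    rw [hτ, ← Real.exp_nat_mul]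
    push_cast; rfl
  rw [h9] at hS
  have h2 := bq_nonneg ha0 hU
  unfold bq at h2
  have h3 := (le_abs_self (QQ U)).trans (QQ_abs_le (hU.dom ha0))
  have h6 : GM a * c1 ≤ C * τ ^ 2 := by
    calc GM a * c1 ≤ GM a * NH U := mul_le_mul_of_nonneg_left hU1 h.le
      _ ≤ C * τ ^ 2 := by linarith
  have h7 := hlim a ha2
  have h10 := pow_le_pow_left₀ (by positivity) h7 2
  have h11 : Real.exp (-(c / 2 * Real.exp (2 * a / L.m))) ^ 2 = Real.exp (-(c * Real.exp (2 * a / L.m))) := by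
    rw [← Real.exp_nat_mul]; congr 1; push_cast; ring
  rw [h11, mul_pow, Real.sq_sqrt (by positivity)] at h10
  refine le_trans ?_ h10
  rw [div_mul_eq_mul_div, le_div_iff₀ hc1]
  exact h6

/-- **the rate of convergence of the zeros** -/
theorem rate (hG : ∀ ρ : Zt, (ρ : ℂ).re = 1 / 2) {w0 : ℂ} (hw0 : w0.re = 0) (h0 : L.X (1 / 2 + w0) = 0)
    (hwin : w0.im ∉ wi (K := K)) {c : ℝ} (hc : c < cc) : ∃ a0 : ℝ, 1 ≤ a0 ∧ ∀ a : ℝ, a0 ≤ a → ∀ e : ℝ → ℂ, KK a e →
      ∃ w, TT e w = 0 ∧ ‖w - w0‖ < Real.exp (-(c * Real.exp (2 * a / L.m))) := by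
  obtain ⟨η, hη, hcη⟩ := exists_eta' (L := L) hc
  obtain ⟨B, C, c1, A1, hB, hC, hc1, hA1, ht⟩ := test_pair hw0 h0 hη
  set d : ℝ := Dw (K := K) w0.im with hd
  have hd0 : 0 < d := Dw_pos hwin
  obtain ⟨A2, hA2, hlim⟩ := tau_lim (L := L) (B := B) (C := Real.sqrt (32 * C) / c1 + 1) (c := c) (η := η)
    hB (by positivity) hcη
  obtain ⟨A3, hA3, hlim3⟩ := tau_lim (L := L) (B := B) (C := Real.sqrt (2 * C) / (d * c1)) (c := 0) (η := η)
    hB (by positivity) (by have := cc_pos (L := L); positivity)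
  refine ⟨max A1 (max A2 A3), le_max_of_le_left hA1, fun a ha e he => ?_⟩
  have ha1 : A1 ≤ a := le_of_max_le_left ha
  have ha2 : A2 ≤ a := le_of_max_le_left (le_of_max_le_right ha)
  have ha3 : A3 ≤ a := le_of_max_le_right (le_of_max_le_right ha)
  have ha0 : 0 < a := by linarith
  obtain ⟨U, W, hU, hW, hUW, hS, hW0, hN⟩ := ht a ha1
  by_contra hcon
  push Not at hcon
  set δ := Real.exp (-(c * Real.exp (2 * a / L.m))) with hδ
  have hδ0 : 0 < δ := Real.exp_pos _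
  set τ := Real.exp (B * (1 + a) - cc * Real.exp (2 * (a - η) / L.m)) with hτ
  have hτ0 : 0 < τ := Real.exp_pos _
  have h9 : Real.exp (2 * (B * (1 + a) - cc * Real.exp (2 * (a - η) / L.m))) = τ ^ 2 := by
    rw [hτ, ← Real.exp_nat_mul]
    push_cast; rfl
  rw [h9] at hS
  have hgap := gap ha0 he hw0 hδ0 (fun w hw h => absurd (hcon w h) (not_le.2 hw)) hW hU hUW
  have hGM := GM_nonneg hG (K := K) a
  have h1 : bq (GM a) U ≤ C * τ ^ 2 := by
    unfold bq
    rw [QQ_SS hG]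
    have := mul_nonneg hGM (NH_nonneg U)
    linarith
  -- the value at the zero
  have hρ : (1 / 2 + w0) ∈ (zd (L := L)).Zs := h0
  have h2 : c1 ^ 2 ≤ SS W := by
    have h3 : (mu (1 / 2 + w0) : ℝ) * ‖TT W ((1 / 2 + w0) - 1 / 2)‖ ^ 2 ≤ SS W :=
      (hW.dom ha0).le_tsum (⟨1 / 2 + w0, hρ⟩ : Zt) fun _ _ => by positivity
    rw [add_sub_cancel_left] at h3
    have h4 : (1 : ℝ) ≤ mu (1 / 2 + w0) := by
      have : 1 ≤ mu (1 / 2 + w0) := (zd (L := L)).mpos _ hρ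
      exact_mod_cast this
    have h5 := pow_le_pow_left₀ hc1.le hW0 2
    nlinarith [sq_nonneg ‖TT W w0‖]
  have h3 : GM a * NH U ≤ C * τ ^ 2 := by
    have := bq_nonneg ha0 hU
    unfold bq at this
    rw [QQ_SS hG] at this
    linarith
  have hNW : d ^ 2 * NH W ≤ NH U := by
    unfold NH
    rw [← integral_const_mul]
    refine setIntegral_mono_on ((NH_int hW.1).const_mul _) (NH_int hU.1) wi_meas fun t ht => ?_
    rw [hUW, norm_mul, mul_pow]
    refine mul_le_mul_of_nonneg_right (pow_le_pow_left₀ hd0.le ?_ 2) (sq_nonneg _)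
    have h6 := Complex.abs_im_le_norm ((t * I : ℂ) - w0)
    have h7 : ((t * I : ℂ) - w0).im = t - w0.im := by simp
    rw [h7, abs_sub_comm] at h6
    exact (Dw_le ht).trans h6
  have h4 : GM a * NH W ≤ C * τ ^ 2 / d ^ 2 := by
    rw [le_div_iff₀ (by positivity)]
    calc GM a * NH W * d ^ 2 = GM a * (d ^ 2 * NH W) := by ring
      _ ≤ GM a * NH U := mul_le_mul_of_nonneg_left hNW hGM
      _ ≤ _ := h3
  have h5 : C * τ ^ 2 / d ^ 2 ≤ c1 ^ 2 / 2 := by
    have h6 := hlim3 a ha3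
    rw [zero_mul, neg_zero, Real.exp_zero] at h6
    have h10 := pow_le_pow_left₀ (by positivity) h6 2
    have h12 : (Real.sqrt (2 * C) / (d * c1) * τ) ^ 2 = 2 * (C * τ ^ 2 / d ^ 2) / c1 ^ 2 := by
      rw [mul_pow, div_pow, Real.sq_sqrt (by positivity), mul_pow]
      field_simp
    rw [← hτ, h12, one_pow, div_le_one (by positivity)] at h10
    linarith
  have h6 : c1 ^ 2 / 2 ≤ bq (GM a) W := by
    unfold bq
    rw [QQ_SS hG]
    linarith
  have h7 : δ ^ 2 * (c1 ^ 2 / 2) ≤ 16 * (C * τ ^ 2) :=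
    (mul_le_mul_of_nonneg_left h6 (by positivity)).trans (hgap.trans (by linarith))
  have h8 : Real.sqrt (32 * C) / c1 * τ < δ := by
    have := hlim a ha2
    rw [add_mul, one_mul] at this
    linarith
  have h10 := pow_lt_pow_left₀ h8 (by positivity) two_ne_zero
  have h12 : (Real.sqrt (32 * C) / c1 * τ) ^ 2 = 32 * C * τ ^ 2 / c1 ^ 2 := by
    rw [mul_pow, div_pow, Real.sq_sqrt (by positivity)]
    ring
  rw [h12, div_lt_iff₀ (by positivity)] at h10
  linarith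

end Pool.Agent.Y23.G.CB
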