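import Pool.Agent.Run7.h336.CB.B8

/-! # A uniform bound for the number of zeros of the generator -/

set_option autoImplicit false
set_option linter.unusedSectionVars false
set_option maxHeartbeats 2000000

open Complex Filter Topology Set MeasureTheory Metric
open scoped ComplexConjugate

namespace Pool.Agent.Y23.G.CB

variable [K : Win] [DZ : ZD] [EC : ZC]

omit K EC in
/-- the number of zeros up to a height -/
theorem Bf_card : ∃ C : ℝ, 0 < C ∧ ∀ R : ℝ, 0 ≤ R → ((Bf R).card : ℝ) ≤ C * (1 + R) ^ (3 / 2 : ℝ) := by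
  classical
  obtain ⟨C, hC, hcnt⟩ := cnt (D := DZ)
  refine ⟨24 * C, by positivity, fun R hR => ?_⟩
  set n : ℕ := ⌈R⌉₊ with hn
  have hRn : R ≤ n := Nat.le_ceil R
  have hnR : (n : ℝ) ≤ R + 1 := (Nat.ceil_lt_add_one hR).le
  set T : ℤ → Finset ℂ := fun k => (Bf R).filter fun b => |b.im - k| ≤ 1 with hT
  have hsub : Bf R ⊆ (Finset.Icc (-(n : ℤ)) n).biUnion T := by
    intro b hb
    rw [Finset.mem_biUnion]
    have h1 : |b.im| ≤ n := (Complex.abs_im_le_norm b).trans ((mem_Bf.1 hb).2.trans hRn)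
    rw [abs_le] at h1
    rcases le_or_gt 0 b.im with h0 | h0
    · refine ⟨⌊b.im⌋, ?_, ?_⟩
      · rw [Finset.mem_Icc]
        constructor
        · have : (0 : ℤ) ≤ ⌊b.im⌋ := Int.floor_nonneg.2 h0
          have : (0 : ℤ) ≤ n := Int.natCast_nonneg n
          omega
        · have h2 := Int.floor_le b.im
          have h3 : (⌊b.im⌋ : ℝ) ≤ ((n : ℤ) : ℝ) := by push_cast; linarith
          exact_mod_cast h3
      · rw [hT, Finset.mem_filter]
        refine ⟨hb, ?_⟩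
        have h2 := Int.floor_le b.im
        have h3 := Int.lt_floor_add_one b.im
        rw [abs_le]; constructor <;> linarith
    · refine ⟨⌈b.im⌉, ?_, ?_⟩
      · rw [Finset.mem_Icc]
        constructor
        · have h2 := Int.le_ceil b.im
          have h3 : ((-(n : ℤ) : ℤ) : ℝ) ≤ (⌈b.im⌉ : ℝ) := by push_cast; linarith
          exact_mod_cast h3
        · have : ⌈b.im⌉ ≤ (0 : ℤ) := Int.ceil_le.2 (by push_cast; linarith)
          have : (0 : ℤ) ≤ n := Int.natCast_nonneg n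
          omega
      · rw [hT, Finset.mem_filter]
        refine ⟨hb, ?_⟩
        have h2 := Int.le_ceil b.im
        have h3 := Int.ceil_lt_add_one b.im
        rw [abs_le]; constructor <;> linarith
  have hTc : ∀ k ∈ Finset.Icc (-(n : ℤ)) n, ((T k).card : ℝ) ≤ 4 * C * (1 + (n : ℝ)) ^ (1 / 2 : ℝ) := by
    intro k hk
    rw [Finset.mem_Icc] at hk
    have h1 := hcnt k ((T k).map (addRightEmbedding (1 / 2 : ℂ))) (by
      intro s hs
      rw [Finset.mem_map] at hs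
      obtain ⟨b, hb, rfl⟩ := hs
      rw [hT, Finset.mem_filter] at hb
      refine ⟨(mem_Bf.1 hb.1).1, ?_⟩
      have h4 : ((addRightEmbedding (1 / 2 : ℂ)) b).im = b.im := by
        show (b + 1 / 2).im = b.im
        simp
      rw [h4]
      exact hb.2)
    rw [Finset.sum_map] at h1
    have h2 : (T k).card ≤ ∑ b ∈ T k, mu ((addRightEmbedding (1 / 2 : ℂ)) b) := by
      rw [Finset.card_eq_sum_ones]
      refine Finset.sum_le_sum fun b hb => ?_
      rw [hT, Finset.mem_filter] at hb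
      exact DZ.mpos _ (mem_Bf.1 hb.1).1
    have h3 : ((T k).card : ℝ) ≤ C * Lg k := by
      refine le_trans ?_ h1
      exact_mod_cast h2
    refine h3.trans ?_
    have h4 := Lg_le k
    have h5 : |(k : ℝ)| ≤ n := by
      rw [abs_le]
      constructor
      · have : ((-(n : ℤ) : ℤ) : ℝ) ≤ (k : ℝ) := by exact_mod_cast hk.1
        push_cast at this
        exact this
      · exact_mod_cast hk.2
    have h6 : (1 + |(k : ℝ)|) ^ (1 / 2 : ℝ) ≤ (1 + (n : ℝ)) ^ (1 / 2 : ℝ) :=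
      Real.rpow_le_rpow (by positivity) (by linarith) (by norm_num)
    nlinarith
  have h1 : ((Bf R).card : ℝ) ≤ ∑ k ∈ Finset.Icc (-(n : ℤ)) n, ((T k).card : ℝ) := by
    have h2 := (Finset.card_le_card hsub).trans Finset.card_biUnion_le
    exact_mod_cast h2
  have h2 := h1.trans (Finset.sum_le_sum hTc)
  rw [Finset.sum_const, nsmul_eq_mul, Int.card_Icc] at h2
  have h3 : ((((n : ℤ) + 1 - -(n : ℤ)).toNat : ℕ) : ℝ) ≤ 2 * (1 + (n : ℝ)) := by
    have : ((n : ℤ) + 1 - -(n : ℤ)).toNat = 2 * n + 1 := by omega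
    rw [this]
    push_cast
    linarith
  have h4 : 0 ≤ 4 * C * (1 + (n : ℝ)) ^ (1 / 2 : ℝ) := by positivity
  have h5 : (1 + (n : ℝ)) * (1 + (n : ℝ)) ^ (1 / 2 : ℝ) = (1 + (n : ℝ)) ^ (3 / 2 : ℝ) := by
    rw [show (3 / 2 : ℝ) = 1 + 1 / 2 by norm_num, Real.rpow_add (by positivity), Real.rpow_one]
  have h6 : (1 + (n : ℝ)) ^ (3 / 2 : ℝ) ≤ 3 * (1 + R) ^ (3 / 2 : ℝ) := by
    calc (1 + (n : ℝ)) ^ (3 / 2 : ℝ) ≤ (2 * (1 + R)) ^ (3 / 2 : ℝ) :=
          Real.rpow_le_rpow (by positivity) (by linarith) (by norm_num)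
      _ = 2 ^ (3 / 2 : ℝ) * (1 + R) ^ (3 / 2 : ℝ) := Real.mul_rpow (by norm_num) (by linarith)
      _ ≤ 3 * (1 + R) ^ (3 / 2 : ℝ) := by
          refine mul_le_mul_of_nonneg_right ?_ (by positivity)
          have h7 : ((2 : ℝ) ^ (3 / 2 : ℝ)) ^ 2 ≤ 3 ^ 2 := by
            rw [← Real.rpow_natCast, ← Real.rpow_mul (by norm_num)]
            norm_num
          exact le_of_pow_le_pow_left₀ two_ne_zero (by norm_num) h7
  calc ((Bf R).card : ℝ) ≤ _ := h2
    _ ≤ 2 * (1 + (n : ℝ)) * (4 * C * (1 + (n : ℝ)) ^ (1 / 2 : ℝ)) := mul_le_mul_of_nonneg_right h3 h4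
    _ = 8 * C * ((1 + (n : ℝ)) * (1 + (n : ℝ)) ^ (1 / 2 : ℝ)) := by ring
    _ ≤ 8 * C * (3 * (1 + R) ^ (3 / 2 : ℝ)) := by
        rw [h5]
        exact mul_le_mul_of_nonneg_left h6 (by positivity)
    _ = _ := by ring

/-- **a bound for the number of zeros of the generator, uniform in `a`** -/
theorem count (hRH : ∀ ρ : Zt, (ρ : ℂ).re = 1 / 2) (hwin : ∀ ρ : Zt, (ρ : ℂ).im ∉ wi (K := K)) :
    ∃ C : ℝ, 0 < C ∧ ∀ a : ℝ, 0 < a → ∀ (e : ℝ → ℂ) (N : ℕ) (w1 : ℂ), GData a e N w1 → ∀ r : ℝ, 0 ≤ r →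
      ∀ Z : Finset ℂ, (∀ z ∈ Z, TT e z = 0 ∧ ‖z‖ ≤ r) → (Z.card : ℝ) ≤ C * (1 + r) ^ (7 / 4 : ℝ) := by
  classical
  obtain ⟨C1, hC1, hcard⟩ := Bf_card (DZ := DZ)
  have hk := K.pos
  set φ : ℂ → ℝ := fun b => min 1 (Dw (K := K) b.im) with hφ
  have hφpos : ∀ b : ℂ, b + 1 / 2 ∈ DZ.Zs → 0 < φ b := by
    intro b hb
    have h1 := hwin ⟨b + 1 / 2, hb⟩
    have h2 : (b + 1 / 2 : ℂ).im = b.im := by simp
    rw [h2] at h1
    exact lt_min one_pos (Dw_pos h1)
  set c0 : ℝ := ∏ b ∈ Bf (K.k + 1), φ b with hc0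
  have hc0pos : 0 < c0 := Finset.prod_pos fun b hb => hφpos b (mem_Bf.1 hb).1
  -- the product over more zeros is the same
  have hprod : ∀ R : ℝ, K.k + 1 ≤ R → ∏ b ∈ Bf R, φ b = c0 := by
    intro R hR
    rw [hc0]
    symm
    refine Finset.prod_subset (fun b hb => Bf_mono hR hb) fun b hb hb' => ?_
    have h1 : K.k + 1 < ‖b‖ := by
      by_contra h
      exact hb' (mem_Bf.2 ⟨(mem_Bf.1 hb).1, not_lt.1 h⟩)
    have h2 : b.re = 0 := by
      have := hRH ⟨b + 1 / 2, (mem_Bf.1 hb).1⟩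
      simpa using this
    have h3 : ‖b‖ = |b.im| := by
      rw [← Complex.re_add_im b, h2]
      simp
    simp only [hφ]
    rw [min_eq_left]
    have h4 := Dw_ge (K := K) b.im
    rw [← h3] at h4; linarith
  set A : ℝ := C1 * (9 + 8 * K.k) ^ (3 / 2 : ℝ) with hA
  have hA0 : 0 < A := by positivity
  set B' : ℝ := 1 + 4 * (4 * (1 + K.k)) ^ (1 / 4 : ℝ) with hB'
  have hB0 : 0 < B' := by positivity
  refine ⟨A * B' + |Real.log c0|, by positivity, fun a ha e N w1 hG r hr Z hZ => ?_⟩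
  set x : ℝ := 4 * (r + K.k + 1) with hx
  have hx4 : 4 ≤ x := by rw [hx]; linarith
  set D : ℕ := (Bf (2 * x)).card with hD
  have hDb : (D : ℝ) ≤ A * (1 + r) ^ (3 / 2 : ℝ) := by
    refine (hcard (2 * x) (by linarith)).trans ?_
    rw [hA, mul_assoc]
    refine mul_le_mul_of_nonneg_left ?_ hC1.le
    rw [← Real.mul_rpow (by positivity) (by positivity)]
    refine Real.rpow_le_rpow (by positivity) ?_ (by norm_num)
    rw [hx]
    nlinarith [mul_nonneg hk.le hr]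
  have h1r : 1 ≤ (1 + r) := by linarith
  have hp1 : 1 ≤ (1 + r) ^ (1 / 4 : ℝ) := Real.one_le_rpow h1r (by norm_num)
  have hp2 : 1 ≤ (1 + r) ^ (7 / 4 : ℝ) := Real.one_le_rpow h1r (by norm_num)
  have hp3 : (1 + r) ^ (3 / 2 : ℝ) * (1 + r) ^ (1 / 4 : ℝ) = (1 + r) ^ (7 / 4 : ℝ) := by
    rw [← Real.rpow_add (by linarith)]; norm_num
  have hlogx : 1 + Real.log x ≤ B' * (1 + r) ^ (1 / 4 : ℝ) := by
    have h1 : Real.log x ≤ x ^ (1 / 4 : ℝ) / (1 / 4) := Real.log_le_rpow_div (by linarith) (by norm_num)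
    have h2 : x ^ (1 / 4 : ℝ) ≤ (4 * (1 + K.k)) ^ (1 / 4 : ℝ) * (1 + r) ^ (1 / 4 : ℝ) := by
      rw [← Real.mul_rpow (by positivity) (by positivity)]
      refine Real.rpow_le_rpow (by linarith) ?_ (by norm_num)
      rw [hx]
      nlinarith [mul_nonneg hk.le hr]
    rw [hB']
    have h3 : x ^ (1 / 4 : ℝ) / (1 / 4) = 4 * x ^ (1 / 4 : ℝ) := by ring
    rw [h3] at h1
    nlinarith
  have hlog0 : 0 ≤ Real.log x := Real.log_nonneg (by linarith)
  have hfin : (Z.card : ℝ) ≤ D * (1 + Real.log x) + |Real.log c0| →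
      (Z.card : ℝ) ≤ (A * B' + |Real.log c0|) * (1 + r) ^ (7 / 4 : ℝ) := by
    intro h
    refine h.trans ?_
    have h2 : (D : ℝ) * (1 + Real.log x) ≤ (A * (1 + r) ^ (3 / 2 : ℝ)) * (B' * (1 + r) ^ (1 / 4 : ℝ)) :=
      mul_le_mul hDb hlogx (by linarith) (by positivity)
    have h3 : (A * (1 + r) ^ (3 / 2 : ℝ)) * (B' * (1 + r) ^ (1 / 4 : ℝ)) = A * B' * (1 + r) ^ (7 / 4 : ℝ) := by
      rw [← hp3]; ring
    have h4 : |Real.log c0| ≤ |Real.log c0| * (1 + r) ^ (7 / 4 : ℝ) :=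
      le_mul_of_one_le_right (abs_nonneg _) hp2
    nlinarith
  apply hfin
  have hD0 : (0 : ℝ) ≤ D := Nat.cast_nonneg D
  -- few zeros
  rcases Nat.lt_or_ge Z.card D with hlt | hge
  · have h1 : (Z.card : ℝ) ≤ D := by exact_mod_cast hlt.le
    have := abs_nonneg (Real.log c0)
    nlinarith [mul_nonneg hD0 hlog0]
  have hGM := GM_nonneg hRH (K := K) a
  rcases hGM.eq_or_lt with h0 | h0
  · -- the minimum is zero
    obtain ⟨-, hzc⟩ := zero_case hRH ha h0.symm hG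
    have h1 : Z ⊆ Bf (2 * x) := by
      intro z hz
      obtain ⟨ρ, hρ⟩ := hzc z (hZ z hz).1
      exact mem_Bf.2 ⟨by rw [hρ, sub_add_cancel]; exact ρ.2, (hZ z hz).2.trans (by rw [hx]; linarith)⟩
    have h2 : (Z.card : ℝ) ≤ D := by exact_mod_cast Finset.card_le_card h1
    have := abs_nonneg (Real.log c0)
    nlinarith [mul_nonneg hD0 hlog0]
  -- the comparison
  obtain ⟨g, hg, hgT⟩ := swap ha hG.mem.1 Z (Bf (2 * x)) (fun z hz => (hZ z hz).1) hge
  have hnormid : ∀ w, (∏ z ∈ Z, ‖w - z‖) * ‖TT g w‖ = (∏ b ∈ Bf (2 * x), ‖w - b‖) * ‖TT e w‖ := by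
    intro w
    have h3 := congrArg norm (hgT w)
    rw [norm_mul, norm_mul, norm_prod, norm_prod] at h3
    exact h3
  have hNe : 0 < NH e := by
    refine lt_of_le_of_ne (NH_nonneg _) fun h => hG.nz (TT_zero_of_NH hG.mem.1.1 h.symm w1)
  set M : ℕ := Z.card with hM
  have hrk : 0 < r + K.k := by linarith
  have hx0 : 0 < x := by linarith
  have hc1 := compare hRH ha hG.mem hg (q := (2 ^ (D + M) / (2 * x) ^ (M - D)) ^ 2) (c := (c0 / (r + K.k) ^ M) ^ 2) (sq_nonneg _)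
    (by
      intro ρ
      set β : ℂ := (ρ : ℂ) - 1 / 2 with hβ
      have hβZ : β + 1 / 2 ∈ DZ.Zs := by rw [hβ, sub_add_cancel]; exact ρ.2
      by_cases hβR : β ∈ Bf (2 * x)
      · rw [swap_zero (differentiable_TT hG.mem.1.1).continuous (differentiable_TT hg.1).continuous
          (fun z hz => (hZ z hz).1) hgT hβR]
        rw [norm_zero, zero_pow two_ne_zero]
        positivity
      · have hβn : 2 * x < ‖β‖ := by
          by_contra h4
          exact hβR (mem_Bf.2 ⟨hβZ, not_lt.1 h4⟩)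
        have hβ0 : 0 < ‖β‖ := by linarith
        have h3 := hnormid β
        have h4 : (‖β‖ / 2) ^ M ≤ ∏ z ∈ Z, ‖β - z‖ := by
          rw [hM, ← Finset.prod_const]
          refine Finset.prod_le_prod (fun z _ => by positivity) fun z hz => ?_
          have h5 := norm_sub_norm_le β z
          have h6 := (hZ z hz).2
          have h7 : r ≤ x := by rw [hx]; linarith
          linarith
        have h5 : ∏ b ∈ Bf (2 * x), ‖β - b‖ ≤ (2 * ‖β‖) ^ D := by
          rw [hD, ← Finset.prod_const]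
          refine Finset.prod_le_prod (fun z _ => norm_nonneg _) fun b hb => ?_
          have h5 := norm_sub_le β b
          have h6 := (mem_Bf.1 hb).2
          linarith
        have h6 : (‖β‖ / 2) ^ M * ‖TT g β‖ ≤ (2 * ‖β‖) ^ D * ‖TT e β‖ :=
          (mul_le_mul_of_nonneg_right h4 (norm_nonneg _)).trans
            (h3.le.trans (mul_le_mul_of_nonneg_right h5 (norm_nonneg _)))
        have h7 : ‖β‖ ^ M = ‖β‖ ^ D * ‖β‖ ^ (M - D) := by
          rw [← pow_add]; congr 1; omega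
        have h8 : ‖β‖ ^ (M - D) * ‖TT g β‖ ≤ 2 ^ (D + M) * ‖TT e β‖ := by
          rw [div_pow, mul_pow, h7] at h6
          have h9 : ‖β‖ ^ D * (‖β‖ ^ (M - D) * ‖TT g β‖) ≤ ‖β‖ ^ D * (2 ^ (D + M) * ‖TT e β‖) := by
            have h10 : ‖β‖ ^ D * ‖β‖ ^ (M - D) / 2 ^ M * ‖TT g β‖ * 2 ^ M ≤ 2 ^ D * ‖β‖ ^ D * ‖TT e β‖ * 2 ^ M :=
              mul_le_mul_of_nonneg_right h6 (by positivity)
            have h11 : ‖β‖ ^ D * ‖β‖ ^ (M - D) / 2 ^ M * ‖TT g β‖ * 2 ^ M = ‖β‖ ^ D * (‖β‖ ^ (M - D) * ‖TT g β‖) := by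
              field_simp
            rw [h11] at h10
            calc _ ≤ _ := h10
              _ = _ := by rw [pow_add]; ring
          exact le_of_mul_le_mul_left h9 (by positivity)
        have h9 : (2 * x) ^ (M - D) * ‖TT g β‖ ≤ 2 ^ (D + M) * ‖TT e β‖ :=
          (mul_le_mul_of_nonneg_right (pow_le_pow_left₀ (by positivity) hβn.le _) (norm_nonneg _)).trans h8
        have h10 : ‖TT g β‖ ≤ 2 ^ (D + M) / (2 * x) ^ (M - D) * ‖TT e β‖ := by
          rw [div_mul_eq_mul_div, le_div_iff₀ (by positivity)]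
          linarith
        calc ‖TT g β‖ ^ 2 ≤ (2 ^ (D + M) / (2 * x) ^ (M - D) * ‖TT e β‖) ^ 2 := pow_le_pow_left₀ (norm_nonneg _) h10 2
          _ = _ := by rw [mul_pow])
    (by
      unfold NH
      rw [← integral_const_mul]
      refine setIntegral_mono_on ((NH_int hG.mem.1.1).const_mul _) (NH_int hg.1) wi_meas fun t ht => ?_
      have htk := mem_wi ht
      have h3 := hnormid (t * I)
      have ht0 : ‖(t * I : ℂ)‖ = |t| := by simp
      have h4 : ∏ z ∈ Z, ‖(t * I : ℂ) - z‖ ≤ (r + K.k) ^ M := by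
        rw [hM, ← Finset.prod_const]
        refine Finset.prod_le_prod (fun z _ => norm_nonneg _) fun z hz => ?_
        have h5 := norm_sub_le (t * I : ℂ) z
        have h6 := (hZ z hz).2
        linarith
      have h5 : c0 ≤ ∏ b ∈ Bf (2 * x), ‖(t * I : ℂ) - b‖ := by
        rw [← hprod (2 * x) (by rw [hx]; linarith)]
        refine Finset.prod_le_prod (fun b hb => (hφpos b (mem_Bf.1 hb).1).le) fun b hb => ?_
        have h6 := Complex.abs_im_le_norm ((t * I : ℂ) - b)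
        have h7 : ((t * I : ℂ) - b).im = t - b.im := by simp
        rw [h7, abs_sub_comm] at h6
        exact (min_le_right _ _).trans ((Dw_le ht).trans h6)
      have h7 : c0 * ‖TT e (t * I)‖ ≤ (r + K.k) ^ M * ‖TT g (t * I)‖ :=
        (mul_le_mul_of_nonneg_right h5 (norm_nonneg _)).trans
          (h3.symm.le.trans (mul_le_mul_of_nonneg_right h4 (norm_nonneg _)))
      have h8 : c0 / (r + K.k) ^ M * ‖TT e (t * I)‖ ≤ ‖TT g (t * I)‖ := by
        rw [div_mul_eq_mul_div, div_le_iff₀ (by positivity)]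
        linarith
      calc (c0 / (r + K.k) ^ M) ^ 2 * ‖TT e (t * I)‖ ^ 2 = (c0 / (r + K.k) ^ M * ‖TT e (t * I)‖) ^ 2 := by rw [mul_pow]
        _ ≤ _ := pow_le_pow_left₀ (by positivity) h8 2)
  have h3 : (c0 / (r + K.k) ^ M) ^ 2 ≤ (2 ^ (D + M) / (2 * x) ^ (M - D)) ^ 2 := by
    have h4 : 0 < GM a * NH e := by positivity
    have h5 : GM a * NH e * (c0 / (r + K.k) ^ M) ^ 2 ≤ GM a * NH e * (2 ^ (D + M) / (2 * x) ^ (M - D)) ^ 2 := by
      calc _ = GM a * ((c0 / (r + K.k) ^ M) ^ 2 * NH e) := by ring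
        _ ≤ _ := hc1
        _ = _ := by ring
    exact le_of_mul_le_mul_left h5 h4
  have h4 : c0 / (r + K.k) ^ M ≤ 2 ^ (D + M) / (2 * x) ^ (M - D) := (abs_le_of_sq_le_sq' h3 (by positivity)).2
  rw [div_le_div_iff₀ (by positivity) (by positivity)] at h4
  -- c0 (2x)^(M-D) ≤ 2^(D+M) (r+k)^M
  have h5 : (r + K.k) ^ M ≤ (x / 4) ^ M := pow_le_pow_left₀ hrk.le (by rw [hx]; linarith) _
  have h6 : c0 * 4 ^ (M - D) ≤ x ^ D := by
    have h7 : c0 * (2 * x) ^ (M - D) ≤ 2 ^ (D + M) * (x / 4) ^ M :=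
      h4.trans (mul_le_mul_of_nonneg_left h5 (by positivity))
    obtain ⟨j, hj⟩ : ∃ j, M = D + j := ⟨M - D, by omega⟩
    have hjM : M - D = j := by omega
    rw [hjM] at h7 ⊢
    rw [hj] at h7
    have h8 : (2 : ℝ) ^ (D + (D + j)) * (x / 4) ^ (D + j) = x ^ D * (x ^ j / 2 ^ j) := by
      rw [div_pow, show (4 : ℝ) = 2 ^ 2 by norm_num, ← pow_mul, pow_add x D j]
      field_simp
      ring
    rw [h8, mul_pow] at h7
    have h9 : c0 * 4 ^ j * (x ^ j / 2 ^ j) ≤ x ^ D * (x ^ j / 2 ^ j) := by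
      calc c0 * 4 ^ j * (x ^ j / 2 ^ j) = c0 * (2 ^ j * x ^ j) := by
            rw [show (4 : ℝ) = 2 * 2 by norm_num, mul_pow]
            field_simp
        _ ≤ _ := h7
    exact le_of_mul_le_mul_right h9 (by positivity)
  have h7 := Real.log_le_log (by positivity) h6
  rw [Real.log_mul hc0pos.ne' (by positivity), Real.log_pow, Real.log_pow] at h7
  have h8 : (1 : ℝ) ≤ Real.log 4 := by
    rw [Real.le_log_iff_exp_le (by norm_num)]
    have := Real.exp_one_lt_d9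
    linarith
  have h9 : (M : ℝ) - D ≤ ((M - D : ℕ) : ℝ) * Real.log 4 := by
    have h10 : ((M - D : ℕ) : ℝ) = M - D := by
      rw [Nat.cast_sub hge]
    have h11 : 0 ≤ ((M - D : ℕ) : ℝ) := Nat.cast_nonneg _
    nlinarith
  have h10 := neg_abs_le (Real.log c0)
  linarith

end Pool.Agent.Y23.G.CB
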