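import Pool.Agent.Run7.h336.CB.B11
import Pool.Agent.Run7.h336.CB.B9

/-! # Tails, growth, parity for large `a` -/

set_option autoImplicit false
set_option linter.unusedSectionVars false
set_option maxHeartbeats 2000000

open Complex Filter Topology Set MeasureTheory Metric
open scoped ComplexConjugate

namespace Pool.Agent.Y23.G.CB

/-- a bound for the number of points gives a bound for the sum of the inverse squares -/
theorem tail {C : ℝ} (hC : 0 < C) {P : ℂ → Prop} (h : ∀ r : ℝ, 0 ≤ r → ∀ Z : Finset ℂ, (∀ z ∈ Z, P z ∧ ‖z‖ ≤ r) →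
    (Z.card : ℝ) ≤ C * (1 + r) ^ (7 / 4 : ℝ)) {T : ℝ} (hT : 1 ≤ T) (S : Finset ℂ) (hS : ∀ z ∈ S, P z ∧ T < ‖z‖) :
    ∑ z ∈ S, 1 / ‖z‖ ^ 2 ≤ 200 * C * T ^ (-(1 / 4) : ℝ) := by
  classical
  have hT0 : 0 < T := by linarith
  set q : ℝ := 2 ^ (-(1 / 4) : ℝ) with hq
  have hq0 : 0 < q := Real.rpow_pos_of_pos (by norm_num) _
  have hq1 : q ≤ 9 / 10 := by
    have h1 : q ^ 4 ≤ (9 / 10) ^ 4 := by
      rw [hq, ← Real.rpow_natCast, ← Real.rpow_mul (by norm_num)]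
      norm_num
    exact le_of_pow_le_pow_left₀ (by norm_num) (by norm_num) h1
  set j : ℂ → ℕ := fun z => Nat.log 2 ⌊‖z‖ / T⌋₊ with hj
  obtain ⟨n, hn⟩ := (S.image j).exists_nat_subset_range
  have hjl : ∀ z ∈ S, 2 ^ (j z) * T ≤ ‖z‖ ∧ ‖z‖ ≤ 2 * (2 ^ (j z) * T) := by
    intro z hz
    have h1 : 1 < ‖z‖ / T := by rw [lt_div_iff₀ hT0, one_mul]; exact (hS z hz).2
    have h2 : ⌊‖z‖ / T⌋₊ ≠ 0 := by
      have := (Nat.one_le_floor_iff _).2 h1.le
      omega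
    have h3 := Nat.pow_log_le_self 2 h2
    have h4 := Nat.lt_pow_succ_log_self (b := 2) (by norm_num) ⌊‖z‖ / T⌋₊
    constructor
    · rw [← le_div_iff₀ hT0]
      have h5 : ((2 ^ (j z) : ℕ) : ℝ) ≤ (⌊‖z‖ / T⌋₊ : ℝ) := by exact_mod_cast h3
      have h6 := Nat.floor_le (by positivity : 0 ≤ ‖z‖ / T)
      push_cast at h5
      linarith
    · have h5 := Nat.lt_floor_add_one (‖z‖ / T)
      have h6 : (⌊‖z‖ / T⌋₊ : ℝ) + 1 ≤ ((2 ^ (j z + 1) : ℕ) : ℝ) := by exact_mod_cast h4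
      push_cast at h6
      have h7 : ‖z‖ / T ≤ 2 ^ (j z + 1) := by linarith
      rw [div_le_iff₀ hT0] at h7
      rw [pow_succ] at h7
      linarith
  have h1 : ∑ z ∈ S, 1 / ‖z‖ ^ 2 = ∑ k ∈ Finset.range n, ∑ z ∈ S.filter (fun z => j z = k), 1 / ‖z‖ ^ 2 :=
    (Finset.sum_fiberwise_of_maps_to (fun z hz => hn (Finset.mem_image_of_mem j hz)) _).symm
  rw [h1]
  have h2 : ∀ k ∈ Finset.range n, ∑ z ∈ S.filter (fun z => j z = k), 1 / ‖z‖ ^ 2 ≤
      16 * C * T ^ (-(1 / 4) : ℝ) * q ^ k := by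
    intro k _
    set y : ℝ := 2 ^ k * T with hy
    have hy1 : 1 ≤ y := by
      have : (1 : ℝ) ≤ 2 ^ k := one_le_pow₀ (by norm_num)
      nlinarith
    have hy0 : 0 < y := by linarith
    have h3 : ∀ z ∈ S.filter (fun z => j z = k), 1 / ‖z‖ ^ 2 ≤ 1 / y ^ 2 := by
      intro z hz
      rw [Finset.mem_filter] at hz
      have h4 := (hjl z hz.1).1
      rw [hz.2] at h4
      exact one_div_le_one_div_of_le (by positivity) (pow_le_pow_left₀ hy0.le h4 2)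
    have h4 := h (2 * y) (by linarith) (S.filter (fun z => j z = k)) (fun z hz => by
      rw [Finset.mem_filter] at hz
      have h5 := (hjl z hz.1).2
      rw [hz.2] at h5
      exact ⟨(hS z hz.1).1, h5⟩)
    have h5 : (1 + 2 * y) ^ (7 / 4 : ℝ) ≤ 16 * y ^ (7 / 4 : ℝ) := by
      calc (1 + 2 * y) ^ (7 / 4 : ℝ) ≤ (3 * y) ^ (7 / 4 : ℝ) :=
            Real.rpow_le_rpow (by positivity) (by linarith) (by norm_num)
        _ = 3 ^ (7 / 4 : ℝ) * y ^ (7 / 4 : ℝ) := Real.mul_rpow (by norm_num) hy0.le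
        _ ≤ 16 * y ^ (7 / 4 : ℝ) := by
            refine mul_le_mul_of_nonneg_right ?_ (by positivity)
            calc (3 : ℝ) ^ (7 / 4 : ℝ) ≤ 3 ^ (2 : ℝ) := Real.rpow_le_rpow_of_exponent_le (by norm_num) (by norm_num)
              _ ≤ 16 := by norm_num
    have h6 : y ^ (7 / 4 : ℝ) * (1 / y ^ 2) = T ^ (-(1 / 4) : ℝ) * q ^ k := by
      have e1 : y ^ (7 / 4 : ℝ) * (1 / y ^ 2) = y ^ (-(1 / 4) : ℝ) := by
        rw [show (-(1 / 4) : ℝ) = 7 / 4 - 2 by norm_num, Real.rpow_sub hy0, one_div]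
        norm_num
        rfl
      rw [e1, hy, Real.mul_rpow (by positivity) hT0.le, hq, mul_comm]
      congr 1
      rw [← Real.rpow_natCast, ← Real.rpow_natCast, ← Real.rpow_mul (by norm_num), ← Real.rpow_mul (by norm_num)]
      congr 1
      ring
    calc _ ≤ ∑ z ∈ S.filter (fun z => j z = k), 1 / y ^ 2 := Finset.sum_le_sum h3
      _ = ((S.filter (fun z => j z = k)).card : ℝ) * (1 / y ^ 2) := by rw [Finset.sum_const, nsmul_eq_mul]
      _ ≤ (C * (16 * y ^ (7 / 4 : ℝ))) * (1 / y ^ 2) :=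
          mul_le_mul_of_nonneg_right (h4.trans (mul_le_mul_of_nonneg_left h5 hC.le)) (by positivity)
      _ = 16 * C * (y ^ (7 / 4 : ℝ) * (1 / y ^ 2)) := by ring
      _ = _ := by rw [h6]; ring
  refine (Finset.sum_le_sum h2).trans ?_
  rw [← Finset.mul_sum]
  have h3 : ∑ k ∈ Finset.range n, q ^ k ≤ 10 := by
    have h4 := (summable_geometric_of_lt_one hq0.le (by linarith)).sum_le_tsum (Finset.range n) (fun k _ => by positivity)
    rw [tsum_geometric_of_lt_one hq0.le (by linarith)] at h4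
    refine h4.trans ?_
    rw [inv_le_comm₀ (by linarith) (by norm_num)]
    norm_num
    linarith
  have h4 : 0 ≤ 16 * C * T ^ (-(1 / 4) : ℝ) := by positivity
  nlinarith

/-- the growth of a transform -/
lemma TT_growth {a : ℝ} (ha : 0 < a) {f : ℝ → ℂ} (hf : Fa a f) : ∃ A : ℝ, ∀ w, ‖TT f w‖ ≤ Real.exp (A * (1 + ‖w‖) ^ (3 / 2 : ℝ)) := by
  set c : ℝ := 2 * a * N2 f with hc
  have hc0 : 0 ≤ c := by have := N2_nonneg f; positivity
  refine ⟨a + Real.sqrt c, fun w => ?_⟩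
  have h1 := norm_TT_le ha hf w
  have h2 : ‖TT f w‖ ^ 2 ≤ (Real.sqrt c * Real.exp (a * ‖w‖)) ^ 2 := by
    rw [mul_pow, Real.sq_sqrt hc0, ← Real.exp_nat_mul]
    refine h1.trans ?_
    have h3 : Real.exp (2 * a * |w.re|) ≤ Real.exp (((2 : ℕ) : ℝ) * (a * ‖w‖)) := by
      rw [Real.exp_le_exp]
      push_cast
      have := Complex.abs_re_le_norm w
      nlinarith
    calc 2 * a * Real.exp (2 * a * |w.re|) * N2 f = c * Real.exp (2 * a * |w.re|) := by rw [hc]; ring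
      _ ≤ _ := mul_le_mul_of_nonneg_left h3 hc0
  have h3 : ‖TT f w‖ ≤ Real.sqrt c * Real.exp (a * ‖w‖) := le_of_pow_le_pow_left₀ two_ne_zero (by positivity) h2
  refine h3.trans ?_
  have h4 : Real.sqrt c ≤ Real.exp (Real.sqrt c) := by
    have := Real.add_one_le_exp (Real.sqrt c)
    linarith
  have h5 : 1 + ‖w‖ ≤ (1 + ‖w‖) ^ (3 / 2 : ℝ) := by
    have h6 : (1 : ℝ) ≤ 1 + ‖w‖ := by linarith [norm_nonneg w]
    calc 1 + ‖w‖ = (1 + ‖w‖) ^ (1 : ℝ) := (Real.rpow_one _).symm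
      _ ≤ _ := Real.rpow_le_rpow_of_exponent_le h6 (by norm_num)
  calc Real.sqrt c * Real.exp (a * ‖w‖) ≤ Real.exp (Real.sqrt c) * Real.exp (a * ‖w‖) :=
        mul_le_mul_of_nonneg_right h4 (Real.exp_pos _).le
    _ = Real.exp (Real.sqrt c + a * ‖w‖) := (Real.exp_add _ _).symm
    _ ≤ _ := by
        rw [Real.exp_le_exp]
        have h6 := Real.sqrt_nonneg c
        have h7 := norm_nonneg w
        have h8 : Real.sqrt c + a * ‖w‖ ≤ (a + Real.sqrt c) * (1 + ‖w‖) := by nlinarith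
        exact h8.trans (mul_le_mul_of_nonneg_left h5 (by positivity))

variable [K : Win] [DZ : ZD] [EC : ZC]

/-- for large `a` the only possible zero of the generator near the centre is the centre -/
theorem center (hRH : ∀ ρ : Zt, (ρ : ℂ).re = 1 / 2) (hwin : ∀ ρ : Zt, (ρ : ℂ).im ∉ wi (K := K))
    (hnear : ∀ b : ℂ, b + 1 / 2 ∈ DZ.Zs → ∀ δ : ℝ, 0 < δ → ∃ a0 : ℝ, ∀ a : ℝ, a0 ≤ a → ∀ e : ℝ → ℂ, KK a e →
      ∃ w, TT e w = 0 ∧ ‖w - b‖ < δ) (hs : Sym DZ) : ∃ k1 a0 : ℝ, 0 < k1 ∧ 0 < a0 ∧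
      (∀ b : ℂ, b + 1 / 2 ∈ DZ.Zs → b ≠ 0 → 2 * k1 ≤ ‖b‖) ∧
      ∀ a : ℝ, a0 ≤ a → ∀ (e : ℝ → ℂ) (N : ℕ) (w1 : ℂ),
      GData a e N w1 → (∀ z, TT e z = 0 → z ≠ 0 → k1 < ‖z‖) ∧
      ((1 / 2 : ℂ) ∉ DZ.Zs → TT e 0 ≠ 0 ∧ ∀ w, TT e (-w) = TT e w) ∧
      ((1 / 2 : ℂ) ∈ DZ.Zs → TT e 0 = 0 ∧ ∀ w, TT e (-w) = -TT e w) := by
  classical
  obtain ⟨d, hd, hd'⟩ := fin_min ((Bf (DZ := DZ) 1).filter fun b => b ≠ 0) (fun b => ‖b‖) (fun b hb =>
    norm_pos_iff.2 (Finset.mem_filter.1 hb).2)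
  set k1 : ℝ := min 1 d / 2 with hk1
  have hk0 : 0 < k1 := by rw [hk1]; have : 0 < min 1 d := lt_min one_pos hd; positivity
  have hk1' : k1 ≤ 1 / 2 := by rw [hk1]; have := min_le_left 1 d; linarith
  have hkd : k1 ≤ d / 2 := by rw [hk1]; have := min_le_right 1 d; linarith
  have hsep : ∀ b : ℂ, b + 1 / 2 ∈ DZ.Zs → b ≠ 0 → 2 * k1 ≤ ‖b‖ := by
    intro b hb hb0
    by_cases h1 : ‖b‖ ≤ 1
    · have := hd' b (Finset.mem_filter.2 ⟨mem_Bf.2 ⟨hb, h1⟩, hb0⟩)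
      linarith
    · linarith
  obtain ⟨δ0, hδ0, h⟩ := matched hRH hwin hnear hk0.le
  obtain ⟨a0, ha0, h1⟩ := h (min δ0 k1) (lt_min hδ0 hk0) (min_le_left _ _)
  refine ⟨k1, a0, hk0, ha0, hsep, fun a ha e N w1 hG => ?_⟩
  obtain ⟨ζ, hζ1, -, h2⟩ := h1 a ha e N w1 hG
  have hz0 : ∀ z, TT e z = 0 → ‖z‖ ≤ k1 → (0 : ℂ) ∈ Bf (DZ := DZ) k1 ∧ z = ζ 0 := by
    intro z hz hzk
    obtain ⟨b, hb, hzb⟩ := h2 z hz hzk
    have hb0 : b = 0 := by
      by_contra hne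
      have h3 := hsep b (mem_Bf.1 hb).1 hne
      have h4 := (mem_Bf.1 hb).2
      linarith
    subst hb0
    exact ⟨hb, hzb⟩
  have hz1 : ∀ z, TT e z = 0 → ‖z‖ ≤ k1 → z = 0 := by
    intro z hz hzk
    have h3 := (hz0 z hz hzk).2
    have h4 : TT e (-z) = 0 := by
      rcases parity hs (by linarith) hG with h5 | h5
      · rw [h5, hz]
      · rw [h5, hz, neg_zero]
    have h5 := (hz0 (-z) h4 (by rwa [norm_neg])).2
    have h6 : (2 : ℂ) * z = 0 := by linear_combination h3 - h5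
    exact (mul_eq_zero.1 h6).resolve_left two_ne_zero
  refine ⟨fun z hz hne => ?_, fun hX => ?_, fun hX => ?_⟩
  · by_contra hcon
    exact hne (hz1 z hz (not_lt.1 hcon))
  · have h3 : TT e 0 ≠ 0 := by
      intro h4
      have h5 := (hz0 0 h4 (by rw [norm_zero]; exact hk0.le)).1
      have h6 := (mem_Bf.1 h5).1
      rw [zero_add] at h6
      exact hX h6
    refine ⟨h3, ?_⟩
    rcases parity hs (by linarith) hG with h4 | h4
    · exact h4
    · exfalso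
      apply h3
      have h5 := h4 0
      rw [neg_zero] at h5
      have h6 : (2 : ℂ) * TT e 0 = 0 := by linear_combination h5
      exact (mul_eq_zero.1 h6).resolve_left two_ne_zero
  · have h3 : (0 : ℂ) ∈ Bf (DZ := DZ) k1 := mem_Bf.2 ⟨by rw [zero_add]; exact hX, by rw [norm_zero]; exact hk0.le⟩
    obtain ⟨h4, h5⟩ := hζ1 0 h3
    rw [sub_zero] at h5
    have h6 := hz1 (ζ 0) h4 (h5.le.trans (min_le_right _ _))
    rw [h6] at h4
    refine ⟨h4, ?_⟩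
    rcases parity hs (by linarith) hG with h7 | h7
    · exfalso
      refine hG.simple (by linarith) h4 ?_
      have h8 : deriv (TT e) (-0) = -deriv (TT e) 0 := by
        have h9 : (fun w => TT e (-w)) = TT e := funext h7
        have h10 := deriv_comp_neg (TT e) (0 : ℂ)
        rw [h9] at h10
        rw [h10]
        ring
      rw [neg_zero] at h8
      have h9 : (2 : ℂ) * deriv (TT e) 0 = 0 := by linear_combination h8
      exact (mul_eq_zero.1 h9).resolve_left two_ne_zero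
    · exact h7

end Pool.Agent.Y23.G.CB
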