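import Pool.Agent.Run7.h336.CB.B10
import Pool.Agent.Run7.h336.CB.B12
import Pool.Agent.Run7.h336.CAL

/-! # Convergence -/

set_option autoImplicit false
set_option linter.unusedSectionVars false
set_option maxHeartbeats 2000000

open Complex Filter Topology Set MeasureTheory Metric
open scoped ComplexConjugate

namespace Pool.Agent.Y23.G.CB

/-- the common bound for the tails -/
noncomputable def epsT (C M T : ℝ) : ℝ := if T < 1 then M else 200 * C * T ^ (-(1 / 4) : ℝ)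

lemma epsT_lim (C M : ℝ) : Tendsto (epsT C M) atTop (𝓝 0) := by
  have h1 : Tendsto (fun T : ℝ => 200 * C * T ^ (-(1 / 4) : ℝ)) atTop (𝓝 0) := by
    have := (tendsto_rpow_neg_atTop (y := 1 / 4) (by norm_num)).const_mul (200 * C)
    simpa using this
  refine h1.congr' ?_
  filter_upwards [eventually_ge_atTop 1] with T hT
  unfold epsT
  rw [if_neg (not_lt.2 hT)]

/-- the tail bound at every height -/
theorem tail_all {C k : ℝ} (hC : 0 < C) (hk : 0 < k) {P : ℂ → Prop} (h : ∀ r : ℝ, 0 ≤ r → ∀ Z : Finset ℂ,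
    (∀ z ∈ Z, P z ∧ ‖z‖ ≤ r) → (Z.card : ℝ) ≤ C * (1 + r) ^ (7 / 4 : ℝ)) (hPk : ∀ z, P z → k < ‖z‖)
    (T : ℝ) (S : Finset ℂ) (hS : ∀ z ∈ S, P z ∧ T < ‖z‖) :
    ∑ z ∈ S, 1 / ‖z‖ ^ 2 ≤ epsT C (4 * C / k ^ 2 + 200 * C) T := by
  classical
  unfold epsT
  by_cases hT : T < 1
  · rw [if_pos hT, ← Finset.sum_filter_add_sum_filter_not S (fun z => ‖z‖ ≤ 1)]
    refine add_le_add ?_ ?_
    · have h1 : ∀ z ∈ S.filter (fun z => ‖z‖ ≤ 1), 1 / ‖z‖ ^ 2 ≤ 1 / k ^ 2 := by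
        intro z hz
        rw [Finset.mem_filter] at hz
        have := hPk z (hS z hz.1).1
        exact one_div_le_one_div_of_le (by positivity) (pow_le_pow_left₀ hk.le this.le 2)
      have h2 := h 1 zero_le_one (S.filter (fun z => ‖z‖ ≤ 1)) (fun z hz => by
        rw [Finset.mem_filter] at hz
        exact ⟨(hS z hz.1).1, hz.2⟩)
      have h3 : (1 + 1 : ℝ) ^ (7 / 4 : ℝ) ≤ 4 := by
        calc (1 + 1 : ℝ) ^ (7 / 4 : ℝ) ≤ (1 + 1) ^ (2 : ℝ) := Real.rpow_le_rpow_of_exponent_le (by norm_num) (by norm_num)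
          _ = 4 := by norm_num
      calc _ ≤ ∑ z ∈ S.filter (fun z => ‖z‖ ≤ 1), 1 / k ^ 2 := Finset.sum_le_sum h1
        _ = ((S.filter (fun z => ‖z‖ ≤ 1)).card : ℝ) * (1 / k ^ 2) := by rw [Finset.sum_const, nsmul_eq_mul]
        _ ≤ (C * 4) * (1 / k ^ 2) := mul_le_mul_of_nonneg_right (h2.trans (mul_le_mul_of_nonneg_left h3 hC.le)) (by positivity)
        _ = 4 * C / k ^ 2 := by ring
    · have h1 := tail hC h le_rfl (S.filter (fun z => ¬ ‖z‖ ≤ 1)) (fun z hz => by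
        rw [Finset.mem_filter] at hz
        exact ⟨(hS z hz.1).1, not_le.1 hz.2⟩)
      rw [Real.one_rpow, mul_one] at h1
      exact h1
  · rw [if_neg hT]
    exact tail hC h (not_lt.1 hT) S hS

/-- **the limit of families of even functions with matched zeros** -/
theorem core {F : ℝ → ℂ → ℂ} {Q : Set ℂ} {a1 k1 C : ℝ} (hC : 0 < C) (hk1 : 0 < k1)
    (hFd : ∀ a, a1 ≤ a → Differentiable ℂ (F a)) (hFe : ∀ a, a1 ≤ a → ∀ w, F a (-w) = F a w)
    (hF0 : ∀ a, a1 ≤ a → F a 0 ≠ 0)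
    (hFg : ∀ a, a1 ≤ a → ∃ A : ℝ, ∀ w, ‖F a w‖ ≤ Real.exp (A * (1 + ‖w‖) ^ (3 / 2 : ℝ)))
    (hFs : ∀ a, a1 ≤ a → ∀ w, F a w = 0 → w.re = 0 ∧ deriv (F a) w ≠ 0)
    (hFk : ∀ a, a1 ≤ a → ∀ z, F a z = 0 → k1 < ‖z‖)
    (hFc : ∀ a, a1 ≤ a → ∀ r : ℝ, 0 ≤ r → ∀ Z : Finset ℂ, (∀ z ∈ Z, F a z = 0 ∧ ‖z‖ ≤ r) →
      (Z.card : ℝ) ≤ C * (1 + r) ^ (7 / 4 : ℝ))
    (hQ : ∀ b ∈ Q, b.re = 0 ∧ k1 < ‖b‖ ∧ -b ∈ Q)
    (hQc : ∀ r : ℝ, 0 ≤ r → ∀ Z : Finset ℂ, (∀ z ∈ Z, z ∈ Q ∧ ‖z‖ ≤ r) → (Z.card : ℝ) ≤ C * (1 + r) ^ (7 / 4 : ℝ))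
    (hQf : ∀ T : ℝ, {b | b ∈ Q ∧ ‖b‖ ≤ T}.Finite)
    (hm : ∀ R : ℝ, 0 ≤ R → ∃ δ0 : ℝ, 0 < δ0 ∧ ∀ δ, 0 < δ → δ ≤ δ0 → ∃ a0 : ℝ, ∀ a, a0 ≤ a → ∃ ζ : ℂ → ℂ,
      (∀ b ∈ Q, ‖b‖ ≤ R → F a (ζ b) = 0 ∧ ‖ζ b - b‖ < δ) ∧
      (∀ b ∈ Q, ∀ b' ∈ Q, ‖b‖ ≤ R → ‖b'‖ ≤ R → ζ b = ζ b' → b = b') ∧
      ∀ z, F a z = 0 → ‖z‖ ≤ R → ∃ b ∈ Q, ‖b‖ ≤ R ∧ z = ζ b) :
    ∃ G : ℂ → ℂ, Differentiable ℂ G ∧ G 0 = 1 ∧ (∀ w, G w = 0 ↔ w ∈ Q) ∧ (∀ w, G w = 0 → deriv G w ≠ 0) ∧
      TendstoLocallyUniformly (fun a w => F a w / F a 0) G atTop ∧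
      ∀ Y : ℂ → ℂ, Differentiable ℂ Y → (∀ w, Y (-w) = Y w) →
        (∃ A : ℝ, ∀ w, ‖Y w‖ ≤ Real.exp (A * (1 + ‖w‖) ^ (3 / 2 : ℝ))) →
        (∀ w, Y w = 0 ↔ w ∈ Q) → (∀ w, Y w = 0 → deriv Y w ≠ 0) → ∀ w, Y w / Y 0 = G w := by
  set P : Set ℂ := {b : ℂ | b ∈ Q ∧ 0 < b.im} with hP
  set M : ℝ := 4 * C / k1 ^ 2 + 200 * C with hM
  have hnim : ∀ b ∈ Q, ‖b‖ = |b.im| := by
    intro b hb
    rw [← Complex.re_add_im b, (hQ b hb).1]
    simp
  have hPiff : ∀ w, w ∈ Q ↔ (w ∈ P ∨ -w ∈ P) := by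
    intro w
    constructor
    · intro hw
      have h1 := (hQ w hw).2.1
      rw [hnim w hw] at h1
      rcases lt_or_ge 0 w.im with h2 | h2
      · exact Or.inl ⟨hw, h2⟩
      · refine Or.inr ⟨(hQ w hw).2.2, ?_⟩
        rw [Complex.neg_im]
        rcases h2.lt_or_eq with h3 | h3
        · linarith
        · rw [h3, abs_zero] at h1
          linarith
    · rintro (h | h)
      · exact h.1
      · have := (hQ _ h.1).2.2
        rwa [neg_neg] at this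
  have htailQ : ∀ T : ℝ, 0 ≤ T → ∀ S : Finset ℂ, (∀ z ∈ S, z ∈ Q ∧ T < ‖z‖) → ∑ z ∈ S, 1 / ‖z‖ ^ 2 ≤ epsT C M T := by
    intro T _ S hS
    exact tail_all hC hk1 hQc (fun z hz => (hQ z hz).2.1) T S hS
  obtain ⟨G, hGd, hG0, hGz, hGs, hGlim, hGprod⟩ := Run7.h336.CAL.limitT (E := F) (a1 := a1) (P := P)
    (eps := epsT C M) hFd hFe hF0 hFg hFs (epsT_lim C M)
    (fun a ha T _ S hS => tail_all hC hk1 (hFc a ha) (hFk a ha) T S hS)
    (fun p hp => ⟨(hQ p hp.1).1, hp.2⟩)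
    (fun T => (hQf T).subset fun p hp => ⟨hp.1.1, hp.2⟩)
    (fun T hT => by
      obtain ⟨δ0, hδ0, h⟩ := hm T hT
      refine ⟨min δ0 k1, lt_min hδ0 hk1, fun δ hδ hδ' => ?_⟩
      obtain ⟨a0, h1⟩ := h δ hδ (hδ'.trans (min_le_left _ _))
      refine ⟨a0, fun a ha => ?_⟩
      obtain ⟨ζ, hz1, hz2, hz3⟩ := h1 a ha
      refine ⟨ζ, fun p hp hpT => hz1 p hp.1 hpT, fun p hp p' hp' hpT hpT' => hz2 p hp.1 p' hp'.1 hpT hpT',
        fun z hz hzim hzT => ?_⟩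
      obtain ⟨b, hb, hbT, rfl⟩ := hz3 z hz hzT
      refine ⟨b, ⟨hb, ?_⟩, hbT, rfl⟩
      by_contra hneg
      have h4 := (hQ b hb).2.1
      rw [hnim b hb, abs_of_nonpos (not_lt.1 hneg)] at h4
      have h5 := (hz1 b hb hbT).2
      have h6 := Complex.abs_im_le_norm (ζ b - b)
      rw [Complex.sub_im] at h6
      have h7 := (abs_le.1 h6).2
      have h8 : δ ≤ k1 := hδ'.trans (min_le_right _ _)
      linarith)
  refine ⟨G, hGd, hG0, fun w => by rw [hGz, hPiff], hGs, hGlim, fun Y hY hYe hYg hYz hYs w => ?_⟩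
  have hY0 : Y 0 ≠ 0 := by
    intro h
    have := (hQ 0 ((hYz 0).1 h)).2.1
    rw [norm_zero] at this
    linarith
  exact Run7.h336.CAL.ident (X := Y) (G := G) (P := P) (eps := epsT C M) hY hYe hY0 hYg
    (fun w hw => ⟨(hQ w ((hYz w).1 hw)).1, hYs w hw⟩) (epsT_lim C M)
    (fun T hT S hS => htailQ T hT S fun z hz => ⟨(hYz z).1 (hS z hz).1, (hS z hz).2⟩)
    (fun p hp => ⟨(hQ p hp.1).1, hp.2⟩)
    (fun T => (hQf T).subset fun p hp => ⟨hp.1.1, hp.2⟩)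
    (fun w => by rw [hYz, hPiff]) hGprod w

/-- division by the variable -/
lemma div_facts {E F : ℂ → ℂ} (hF : Differentiable ℂ F) (h : ∀ w, w * F w = E w) (hs : ∀ w, E w = 0 → deriv E w ≠ 0) :
    F 0 ≠ 0 ∧ ∀ w, F w = 0 → w ≠ 0 ∧ E w = 0 ∧ deriv F w ≠ 0 := by
  have hd : ∀ w, deriv E w = F w + w * deriv F w := by
    intro w
    have h1 : HasDerivAt (fun w => w * F w) (1 * F w + w * deriv F w) w := (hasDerivAt_id w).mul (hF w).hasDerivAt
    have h2 : (fun w => w * F w) = E := funext h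
    rw [h2, one_mul] at h1
    exact h1.deriv
  have h0 : F 0 ≠ 0 := by
    have h1 : E 0 = 0 := by rw [← h 0, zero_mul]
    have h2 := hs 0 h1
    rwa [hd, zero_mul, add_zero] at h2
  refine ⟨h0, fun w hw => ?_⟩
  have hw0 : w ≠ 0 := by
    rintro rfl
    exact h0 hw
  have h1 : E w = 0 := by rw [← h w, hw, mul_zero]
  have h2 := hs w h1
  rw [hd, hw, zero_add] at h2
  exact ⟨hw0, h1, right_ne_zero_of_mul h2⟩

lemma div_even {E F : ℂ → ℂ} (h : ∀ w, w * F w = E w) (ho : ∀ w, E (-w) = -E w) : ∀ w, F (-w) = F w := by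
  intro w
  by_cases hw : w = 0
  · rw [hw, neg_zero]
  · have h1 := h (-w)
    rw [ho, ← h w] at h1
    have h2 : w * F (-w) = w * F w := by linear_combination -h1
    exact mul_left_cancel₀ hw h2

lemma lu_scale {f : ℝ → ℂ → ℂ} {g m : ℂ → ℂ} {c : ℝ → ℂ} {c0 : ℂ} (hf : TendstoLocallyUniformly f g atTop)
    (hg : Continuous g) (hc : Tendsto c atTop (𝓝 c0)) (hm : Continuous m) :
    TendstoLocallyUniformly (fun a w => m w * (c a * f a w)) (fun w => m w * (c0 * g w)) atTop := by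
  have h1 : TendstoLocallyUniformly (fun (a : ℝ) (_ : ℂ) => c a) (fun _ => c0) atTop := by
    rw [Metric.tendstoLocallyUniformly_iff]
    intro ε hε x
    refine ⟨univ, univ_mem, ?_⟩
    filter_upwards [Metric.tendsto_nhds.1 hc ε hε] with a ha y _
    rw [dist_comm]
    exact ha
  have h2 : TendstoLocallyUniformly (fun (_ : ℝ) (w : ℂ) => m w) m atTop := by
    rw [Metric.tendstoLocallyUniformly_iff]
    intro ε hε x
    refine ⟨univ, univ_mem, Eventually.of_forall fun a y _ => ?_⟩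
    rw [dist_self]
    exact hε
  exact h2.mul₀ (h1.mul₀ hf continuous_const hg) hm (continuous_const.mul hg)

lemma lu_congr {f f' : ℝ → ℂ → ℂ} {g : ℂ → ℂ} (hf : TendstoLocallyUniformly f g atTop)
    (h : ∀ᶠ a in atTop, ∀ w, f a w = f' a w) : TendstoLocallyUniformly f' g atTop := by
  rw [Metric.tendstoLocallyUniformly_iff] at hf ⊢
  intro ε hε x
  obtain ⟨t, ht, h1⟩ := hf ε hε x
  refine ⟨t, ht, ?_⟩
  filter_upwards [h1, h] with a h2 h3 y hy
  rw [← h3]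
  exact h2 y hy

/-- from the normalisation at the centre to another one -/
lemma renorm {f : ℝ → ℂ → ℂ} {g m : ℂ → ℂ} {E : ℝ → ℂ → ℂ} {w' : ℂ} (hf : TendstoLocallyUniformly (fun a w => f a w / f a 0) g atTop)
    (hg : Continuous g) (hm : Continuous m) (hgw : g w' ≠ 0) (hmw : m w' ≠ 0)
    (hE : ∀ᶠ a in atTop, f a 0 ≠ 0 ∧ ∀ w, E a w = m w * f a w) :
    TendstoLocallyUniformly (fun a w => E a w / E a w') (fun w => m w * g w / (m w' * g w')) atTop := by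
  have h1 : Tendsto (fun a => f a w' / f a 0) atTop (𝓝 (g w')) :=
    (tendstoLocallyUniformlyOn_univ.2 hf).tendsto_at (mem_univ w')
  have h2 : Tendsto (fun a => (m w' * (f a w' / f a 0))⁻¹) atTop (𝓝 (m w' * g w')⁻¹) :=
    (h1.const_mul _).inv₀ (mul_ne_zero hmw hgw)
  have h3 := lu_scale hf hg h2 hm
  have h4 : (fun w => m w * ((m w' * g w')⁻¹ * g w)) = fun w => m w * g w / (m w' * g w') := by
    funext w
    rw [div_eq_mul_inv]; ring
  rw [h4] at h3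
  refine lu_congr h3 ?_
  filter_upwards [hE] with a ha w
  rw [ha.2 w, ha.2 w', div_eq_mul_inv, div_eq_mul_inv, div_eq_mul_inv, mul_inv, mul_inv, mul_inv, inv_inv]
  have := ha.1
  field_simp

variable [K : Win] [L : LFun]

lemma near_of_rate (hG : ∀ ρ : Zt, (ρ : ℂ).re = 1 / 2) (hwin : ∀ ρ : Zt, (ρ : ℂ).im ∉ wi (K := K)) (b : ℂ)
    (hb : b + 1 / 2 ∈ (zd (L := L)).Zs) (δ : ℝ) (hδ : 0 < δ) : ∃ a0 : ℝ, ∀ a : ℝ, a0 ≤ a → ∀ e : ℝ → ℂ, KK a e →
      ∃ w, TT e w = 0 ∧ ‖w - b‖ < δ := by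
  have hcc := cc_pos (L := L)
  have hm := m_one (L := L)
  have hre : b.re = 0 := by
    have := hG ⟨b + 1 / 2, hb⟩
    simpa using this
  have him : b.im ∉ wi (K := K) := by
    have := hwin ⟨b + 1 / 2, hb⟩
    simpa using this
  have h0 : L.X (1 / 2 + b) = 0 := by
    rw [add_comm]; exact hb
  obtain ⟨a0, _, h⟩ := rate (L := L) hG hre h0 him (c := cc / 2) (by linarith)
  have hlim : Tendsto (fun a : ℝ => Real.exp (-(cc / 2 * Real.exp (2 * a / L.m)))) atTop (𝓝 0) := by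
    refine Real.tendsto_exp_neg_atTop_nhds_zero.comp ?_
    refine Tendsto.const_mul_atTop (by positivity) (Real.tendsto_exp_atTop.comp ?_)
    exact Tendsto.atTop_div_const (by linarith) (Tendsto.const_mul_atTop (by norm_num) tendsto_id)
  obtain ⟨a1, ha1⟩ := (hlim.eventually (gt_mem_nhds hδ)).exists_forall_of_atTop
  refine ⟨max a0 a1, fun a ha e he => ?_⟩
  obtain ⟨w, hw, hw2⟩ := h a ((le_max_left _ _).trans ha) e he
  exact ⟨w, hw, hw2.trans (ha1 a ((le_max_right _ _).trans ha))⟩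

/-- **convergence of the generators** -/
theorem main_conv (hsym : Sym (zd (L := L))) (hG : ∀ ρ : Zt, (ρ : ℂ).re = 1 / 2)
    (hwin : ∀ ρ : Zt, (ρ : ℂ).im ∉ wi (K := K)) {w' : ℂ} (hw' : w'.re ≠ 0)
    {e : ℝ → ℝ → ℂ} (he : ∀ a : ℝ, 0 < a → ∃ (N : ℕ) (w1 : ℂ), GData a (e a) N w1) :
    ∃ G : ℂ → ℂ, Differentiable ℂ G ∧ G w' = 1 ∧ (∀ w, G w = 0 ↔ L.X (1 / 2 + w) = 0) ∧
      (∀ w, G w = 0 → deriv G w ≠ 0) ∧ TendstoLocallyUniformly (fun a w => TT (e a) w / TT (e a) w') G atTop ∧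
      ∀ Y : ℂ → ℂ, Differentiable ℂ Y → ((∀ w, Y (-w) = Y w) ∨ ∀ w, Y (-w) = -Y w) →
        (∃ A : ℝ, ∀ w, ‖Y w‖ ≤ Real.exp (A * (1 + ‖w‖) ^ (3 / 2 : ℝ))) →
        (∀ w, Y w = 0 ↔ L.X (1 / 2 + w) = 0) → (∀ w, Y w = 0 → deriv Y w ≠ 0) →
        ∀ w, Y w / Y w' = G w := by
  classical
  have hw0 : w' ≠ 0 := by
    rintro rfl
    exact hw' Complex.zero_re
  have hnear := near_of_rate (L := L) hG hwin
  obtain ⟨k1, a1, hk1, ha1, hsep, hcen⟩ := center (DZ := zd (L := L)) hG hwin hnear hsym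
  obtain ⟨C1, hC1, hcount⟩ := count (DZ := zd (L := L)) hG hwin
  obtain ⟨C2, hC2, hcard⟩ := Bf_card (DZ := zd (L := L))
  set C : ℝ := max C1 C2 with hC
  have hC0 : 0 < C := lt_max_of_lt_left hC1
  have hmemB : ∀ b : ℂ, ∀ T : ℝ, b ∈ Bf (DZ := zd (L := L)) T ↔ L.X (1 / 2 + b) = 0 ∧ ‖b‖ ≤ T := by
    intro b T
    rw [mem_Bf, add_comm b]
    rfl
  have hZre : ∀ b : ℂ, L.X (1 / 2 + b) = 0 → b.re = 0 := by
    intro b hb
    have := hG ⟨1 / 2 + b, hb⟩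
    simpa using this
  have hZsym : ∀ b : ℂ, L.X (1 / 2 + b) = 0 → L.X (1 / 2 + -b) = 0 := by
    intro b hb
    have h1 := (hsym (1 / 2 + b) hb).1
    have h2 : 1 - (1 / 2 + b) = 1 / 2 + -b := by ring
    rw [h2] at h1
    exact h1
  have hZk : ∀ b : ℂ, L.X (1 / 2 + b) = 0 → b ≠ 0 → k1 < ‖b‖ := by
    intro b hb hb0
    have h1 := hsep b (by rw [add_comm]; exact hb) hb0
    linarith
  have hcardX : ∀ r : ℝ, 0 ≤ r → ∀ Z : Finset ℂ, (∀ z ∈ Z, L.X (1 / 2 + z) = 0 ∧ ‖z‖ ≤ r) →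
      (Z.card : ℝ) ≤ C * (1 + r) ^ (7 / 4 : ℝ) := by
    intro r hr Z hZ
    have h1 : Z ⊆ Bf (DZ := zd (L := L)) r := fun z hz => (hmemB z r).2 (hZ z hz)
    have h2 : (Z.card : ℝ) ≤ ((Bf (DZ := zd (L := L)) r).card : ℝ) := by exact_mod_cast Finset.card_le_card h1
    refine h2.trans ((hcard r hr).trans ?_)
    exact mul_le_mul (le_max_right _ _) (Real.rpow_le_rpow_of_exponent_le (by linarith) (by norm_num)) (by positivity) hC0.le
  have hcountE : ∀ a : ℝ, 0 < a → ∀ r : ℝ, 0 ≤ r → ∀ Z : Finset ℂ, (∀ z ∈ Z, TT (e a) z = 0 ∧ ‖z‖ ≤ r) →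
      (Z.card : ℝ) ≤ C * (1 + r) ^ (7 / 4 : ℝ) := by
    intro a ha r hr Z hZ
    obtain ⟨N, w1, hGD⟩ := he a ha
    exact (hcount a ha (e a) N w1 hGD r hr Z hZ).trans (mul_le_mul_of_nonneg_right (le_max_left _ _) (by positivity))
  have hfinX : ∀ T : ℝ, {b : ℂ | L.X (1 / 2 + b) = 0 ∧ ‖b‖ ≤ T}.Finite := by
    intro T
    refine (Bs_finite (DZ := zd (L := L)) T).subset fun p hp => ?_
    exact mem_Bf.1 ((hmemB p T).2 hp)
  have hspec : ∀ a : ℝ, a1 ≤ a → (∀ z, TT (e a) z = 0 → z ≠ 0 → k1 < ‖z‖) ∧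
      (L.X (1 / 2) ≠ 0 → TT (e a) 0 ≠ 0 ∧ ∀ w, TT (e a) (-w) = TT (e a) w) ∧
      (L.X (1 / 2) = 0 → TT (e a) 0 = 0 ∧ ∀ w, TT (e a) (-w) = -TT (e a) w) := by
    intro a ha
    obtain ⟨N, w1, hGD⟩ := he a (by linarith)
    exact hcen a ha _ N w1 hGD
  have hdE : ∀ a : ℝ, 0 < a → Differentiable ℂ (TT (e a)) := by
    intro a ha
    obtain ⟨N, w1, hGD⟩ := he a ha
    exact differentiable_TT hGD.mem.1.1
  have hsE : ∀ a : ℝ, 0 < a → ∀ w, TT (e a) w = 0 → w.re = 0 ∧ deriv (TT (e a)) w ≠ 0 := by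
    intro a ha w hw
    obtain ⟨N, w1, hGD⟩ := he a ha
    exact ⟨hGD.line ha hw, hGD.simple ha hw⟩
  have hmatch : ∀ R : ℝ, 0 ≤ R → ∃ δ0 : ℝ, 0 < δ0 ∧ ∀ δ, 0 < δ → δ ≤ δ0 → ∃ a0 : ℝ, ∀ a, a0 ≤ a → ∃ ζ : ℂ → ℂ,
      (∀ b, L.X (1 / 2 + b) = 0 → ‖b‖ ≤ R → TT (e a) (ζ b) = 0 ∧ ‖ζ b - b‖ < δ) ∧
      (∀ b b', L.X (1 / 2 + b) = 0 → L.X (1 / 2 + b') = 0 → ‖b‖ ≤ R → ‖b'‖ ≤ R → ζ b = ζ b' → b = b') ∧
      ∀ z, TT (e a) z = 0 → ‖z‖ ≤ R → ∃ b, L.X (1 / 2 + b) = 0 ∧ ‖b‖ ≤ R ∧ z = ζ b := by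
    intro R hR
    obtain ⟨δ0, hδ0, h⟩ := matched (DZ := zd (L := L)) hG hwin hnear hR
    refine ⟨δ0, hδ0, fun δ hδ hδ' => ?_⟩
    obtain ⟨a0, ha0, h1⟩ := h δ hδ hδ'
    refine ⟨a0, fun a ha => ?_⟩
    obtain ⟨N, w1, hGD⟩ := he a (by linarith)
    obtain ⟨ζ, hz1, hz2, hz3⟩ := h1 a ha (e a) N w1 hGD
    refine ⟨ζ, fun b hb hbT => hz1 b ((hmemB b R).2 ⟨hb, hbT⟩),
      fun b b' hb hb' hbT hbT' => hz2 b ((hmemB b R).2 ⟨hb, hbT⟩) b' ((hmemB b' R).2 ⟨hb', hbT'⟩), fun z hz hzT => ?_⟩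
    obtain ⟨b, hb, h2⟩ := hz3 z hz hzT
    have hb' := (hmemB b R).1 hb
    exact ⟨b, hb'.1, hb'.2, h2⟩
  by_cases hX0 : L.X (1 / 2) = 0
  · -- a zero at the centre
    have hdiv : ∀ a : ℝ, ∃ k : ℝ → ℂ, a1 ≤ a → Hd a k ∧ ∀ w, w * TT k w = TT (e a) w := by
      intro a
      by_cases ha : a1 ≤ a
      · obtain ⟨N, w1, hGD⟩ := he a (by linarith)
        obtain ⟨k, hk, hk1, _⟩ := hGD.mem.1.div (by linarith) 0 ((hspec a ha).2.2 hX0).1
        exact ⟨k, fun _ => ⟨hk, fun w => by have := hk1 w; rwa [sub_zero] at this⟩⟩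
      · exact ⟨0, fun h => absurd h ha⟩
    choose k hk using hdiv
    have hfacts : ∀ a, a1 ≤ a → TT (k a) 0 ≠ 0 ∧ ∀ w, TT (k a) w = 0 → w ≠ 0 ∧ TT (e a) w = 0 ∧ deriv (TT (k a)) w ≠ 0 :=
      fun a ha => div_facts (differentiable_TT (hk a ha).1.1) (hk a ha).2 fun w hw => (hsE a (by linarith) w hw).2
    obtain ⟨G, g1, g2, g3, g4, g5, g6⟩ := core (F := fun a => TT (k a)) (Q := {b : ℂ | L.X (1 / 2 + b) = 0 ∧ b ≠ 0})
      (a1 := a1) hC0 hk1
      (fun a ha => differentiable_TT (hk a ha).1.1)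
      (fun a ha => div_even (hk a ha).2 ((hspec a ha).2.2 hX0).2)
      (fun a ha => (hfacts a ha).1)
      (fun a ha => TT_growth (by linarith) (hk a ha).1.1)
      (fun a ha w hw => ⟨(hsE a (by linarith) w ((hfacts a ha).2 w hw).2.1).1, ((hfacts a ha).2 w hw).2.2⟩)
      (fun a ha z hz => (hspec a ha).1 z ((hfacts a ha).2 z hz).2.1 ((hfacts a ha).2 z hz).1)
      (fun a ha r hr Z hZ => hcountE a (by linarith) r hr Z fun z hz =>
        ⟨((hfacts a ha).2 z (hZ z hz).1).2.1, (hZ z hz).2⟩)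
      (fun b hb => ⟨hZre b hb.1, hZk b hb.1 hb.2, hZsym b hb.1, neg_ne_zero.2 hb.2⟩)
      (fun r hr Z hZ => hcardX r hr Z fun z hz => ⟨(hZ z hz).1.1, (hZ z hz).2⟩)
      (fun T => (hfinX T).subset fun b hb => ⟨hb.1.1, hb.2⟩)
      (fun R hR => by
        obtain ⟨δ0, hδ0, h⟩ := hmatch R hR
        refine ⟨min δ0 k1, lt_min hδ0 hk1, fun δ hδ hδ' => ?_⟩
        obtain ⟨a0, h1⟩ := h δ hδ (hδ'.trans (min_le_left _ _))
        have hδk : δ ≤ k1 := hδ'.trans (min_le_right _ _)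
        refine ⟨max a0 a1, fun a ha => ?_⟩
        have ha0 : a0 ≤ a := (le_max_left _ _).trans ha
        have ha1' : a1 ≤ a := (le_max_right _ _).trans ha
        obtain ⟨ζ, hz1, hz2, hz3⟩ := h1 a ha0
        have hnz : ∀ b, L.X (1 / 2 + b) = 0 → b ≠ 0 → ‖b‖ ≤ R → ζ b ≠ 0 := by
          intro b hb hb0 hbR h2
          have h3 := (hz1 b hb hbR).2
          rw [h2, zero_sub, norm_neg] at h3
          have := hZk b hb hb0
          linarith
        refine ⟨ζ, fun b hb hbR => ⟨?_, (hz1 b hb.1 hbR).2⟩, fun b hb b' hb' hbR hbR' => hz2 b b' hb.1 hb'.1 hbR hbR',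
          fun z hz hzR => ?_⟩
        · have h2 := (hz1 b hb.1 hbR).1
          rw [← (hk a ha1').2] at h2
          exact (mul_eq_zero.1 h2).resolve_left (hnz b hb.1 hb.2 hbR)
        · obtain ⟨hz0, hze, -⟩ := (hfacts a ha1').2 z hz
          obtain ⟨b, hb, hbR, h2⟩ := hz3 z hze hzR
          refine ⟨b, ⟨hb, ?_⟩, hbR, h2⟩
          rintro rfl
          -- the zero matched with the centre is the centre
          have h3 := (hz1 0 hb hbR).2
          rw [← h2, sub_zero] at h3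
          have := (hspec a ha1').1 z hze hz0
          linarith)
    have hGw : G w' ≠ 0 := by
      intro h
      exact hw' (hZre w' ((g3 w').1 h).1)
    have hGc := g1.continuous
    refine ⟨fun w => w * G w / (w' * G w'), ?_, ?_, fun w => ?_, fun w hw => ?_, ?_, fun Y hY hYp hYg hYz hYs w => ?_⟩
    · exact (differentiable_id.mul g1).div_const _
    · exact div_self (mul_ne_zero hw0 hGw)
    · rw [div_eq_zero_iff, or_iff_left (mul_ne_zero hw0 hGw), mul_eq_zero, g3]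
      constructor
      · rintro (h | h)
        · rw [h, add_zero]; exact hX0
        · exact h.1
      · intro h
        by_cases h0 : w = 0
        · exact Or.inl h0
        · exact Or.inr ⟨h, h0⟩
    · have h1 : HasDerivAt (fun w => w * G w / (w' * G w')) ((1 * G w + w * deriv G w) / (w' * G w')) w :=
        ((hasDerivAt_id w).mul (g1 w).hasDerivAt).div_const _
      rw [h1.deriv]
      refine div_ne_zero ?_ (mul_ne_zero hw0 hGw)
      rw [div_eq_zero_iff, or_iff_left (mul_ne_zero hw0 hGw), mul_eq_zero] at hw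
      by_cases h0 : w = 0
      · rw [h0, zero_mul, add_zero, one_mul, g2]
        exact one_ne_zero
      · have h2 := hw.resolve_left h0
        rw [h2, mul_zero, zero_add]
        exact mul_ne_zero h0 (g4 w h2)
    · refine renorm (f := fun a => TT (k a)) (m := fun w => w) g5 hGc continuous_id hGw hw0 ?_
      filter_upwards [eventually_ge_atTop a1] with a ha
      exact ⟨(hfacts a ha).1, fun w => ((hk a ha).2 w).symm⟩
    · -- the comparison
      have hY0 : Y 0 = 0 := (hYz 0).2 (by rw [add_zero]; exact hX0)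
      have hYo : ∀ w, Y (-w) = -Y w := by
        rcases hYp with h | h
        · exfalso
          refine hYs 0 hY0 ?_
          have h8 : deriv Y (-0) = -deriv Y 0 := by
            have h9 : (fun w => Y (-w)) = Y := funext h
            have h10 := deriv_comp_neg Y (0 : ℂ)
            rw [h9] at h10
            rw [h10]
            ring
          rw [neg_zero] at h8
          have h9 : (2 : ℂ) * deriv Y 0 = 0 := by linear_combination h8
          exact (mul_eq_zero.1 h9).resolve_left two_ne_zero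
        · exact h
      have hVd : Differentiable ℂ (dslope Y 0) := by
        rw [← differentiableOn_univ, Complex.differentiableOn_dslope univ_mem]
        exact hY.differentiableOn
      have hV : ∀ w, w * dslope Y 0 w = Y w := by
        intro w
        have := sub_smul_dslope Y 0 w
        rwa [sub_zero, hY0, sub_zero, smul_eq_mul] at this
      obtain ⟨v0, v1⟩ := div_facts hVd hV hYs
      have hVz : ∀ w, dslope Y 0 w = 0 ↔ w ∈ {b : ℂ | L.X (1 / 2 + b) = 0 ∧ b ≠ 0} := by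
        intro w
        constructor
        · intro h
          exact ⟨(hYz w).1 (v1 w h).2.1, (v1 w h).1⟩
        · rintro ⟨h, h0⟩
          have h2 := (hYz w).2 h
          rw [← hV w] at h2
          exact (mul_eq_zero.1 h2).resolve_left h0
      have hVg : ∃ A : ℝ, ∀ w, ‖dslope Y 0 w‖ ≤ Real.exp (A * (1 + ‖w‖) ^ (3 / 2 : ℝ)) := by
        obtain ⟨A, hA⟩ := hYg
        obtain ⟨B, hB⟩ := (isCompact_closedBall (0 : ℂ) 1).exists_bound_of_continuousOn hVd.continuous.continuousOn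
        refine ⟨max A B, fun w => ?_⟩
        have hp : (1 : ℝ) ≤ (1 + ‖w‖) ^ (3 / 2 : ℝ) :=
          Real.one_le_rpow (by linarith [norm_nonneg w]) (by norm_num)
        rcases le_total ‖w‖ 1 with h | h
        · have h1 := hB w (by rwa [mem_closedBall, dist_zero_right])
          have h2 : (0 : ℝ) ≤ B := (norm_nonneg _).trans h1
          calc ‖dslope Y 0 w‖ ≤ B := h1
            _ ≤ Real.exp B := by linarith [Real.add_one_le_exp B]
            _ ≤ _ := by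
                refine Real.exp_le_exp.2 ?_
                calc B ≤ B * (1 + ‖w‖) ^ (3 / 2 : ℝ) := le_mul_of_one_le_right h2 hp
                  _ ≤ _ := mul_le_mul_of_nonneg_right (le_max_right _ _) (by linarith)
        · have h1 : ‖dslope Y 0 w‖ ≤ ‖Y w‖ := by
            rw [← hV w, norm_mul]
            exact le_mul_of_one_le_left (norm_nonneg _) h
          refine (h1.trans (hA w)).trans (Real.exp_le_exp.2 ?_)
          exact mul_le_mul_of_nonneg_right (le_max_left _ _) (by linarith)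
      have h1 := g6 (dslope Y 0) hVd (div_even hV hYo) hVg hVz fun w hw => (v1 w hw).2.2
      show Y w / Y w' = w * G w / (w' * G w')
      rw [← hV w, ← hV w', ← h1 w, ← h1 w']
      have h2 : dslope Y 0 w' ≠ 0 := fun h => hw' (hZre w' ((hVz w').1 h).1)
      field_simp
  · -- no zero at the centre
    have hb0 : ∀ b : ℂ, L.X (1 / 2 + b) = 0 → b ≠ 0 := by
      rintro b hb rfl
      rw [add_zero] at hb
      exact hX0 hb
    have hz0 : ∀ a, a1 ≤ a → ∀ z, TT (e a) z = 0 → z ≠ 0 := by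
      rintro a ha z hz rfl
      exact ((hspec a ha).2.1 hX0).1 hz
    obtain ⟨G, g1, g2, g3, g4, g5, g6⟩ := core (F := fun a => TT (e a)) (Q := {b : ℂ | L.X (1 / 2 + b) = 0})
      (a1 := a1) hC0 hk1
      (fun a ha => hdE a (by linarith))
      (fun a ha => ((hspec a ha).2.1 hX0).2)
      (fun a ha => ((hspec a ha).2.1 hX0).1)
      (fun a ha => by
        obtain ⟨N, w1, hGD⟩ := he a (by linarith)
        exact TT_growth (by linarith) hGD.mem.1.1)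
      (fun a ha w hw => hsE a (by linarith) w hw)
      (fun a ha z hz => (hspec a ha).1 z hz (hz0 a ha z hz))
      (fun a ha r hr Z hZ => hcountE a (by linarith) r hr Z hZ)
      (fun b hb => ⟨hZre b hb, hZk b hb (hb0 b hb), hZsym b hb⟩)
      (fun r hr Z hZ => hcardX r hr Z hZ)
      (fun T => hfinX T)
      (fun R hR => by
        obtain ⟨δ0, hδ0, h⟩ := hmatch R hR
        refine ⟨δ0, hδ0, fun δ hδ hδ' => ?_⟩
        obtain ⟨a0, h1⟩ := h δ hδ hδ'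
        refine ⟨a0, fun a ha => ?_⟩
        obtain ⟨ζ, hz1, hz2, hz3⟩ := h1 a ha
        exact ⟨ζ, fun b hb hbR => hz1 b hb hbR, fun b hb b' hb' hbR hbR' => hz2 b b' hb hb' hbR hbR',
          fun z hz hzR => hz3 z hz hzR⟩)
    have hGw : G w' ≠ 0 := by
      intro h
      exact hw' (hZre w' ((g3 w').1 h))
    refine ⟨fun w => 1 * G w / (1 * G w'), ?_, ?_, fun w => ?_, fun w hw => ?_, ?_, fun Y hY hYp hYg hYz hYs w => ?_⟩
    · exact ((differentiable_const _).mul g1).div_const _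
    · exact div_self (mul_ne_zero one_ne_zero hGw)
    · rw [div_eq_zero_iff, or_iff_left (mul_ne_zero one_ne_zero hGw), one_mul, g3]
      rfl
    · have h1 : HasDerivAt (fun w => 1 * G w / (1 * G w')) (1 * deriv G w / (1 * G w')) w :=
        ((g1 w).hasDerivAt.const_mul _).div_const _
      rw [h1.deriv]
      rw [div_eq_zero_iff, or_iff_left (mul_ne_zero one_ne_zero hGw), one_mul] at hw
      exact div_ne_zero (mul_ne_zero one_ne_zero (g4 w hw)) (mul_ne_zero one_ne_zero hGw)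
    · refine renorm (f := fun a => TT (e a)) (m := fun _ => 1) g5 g1.continuous continuous_const hGw one_ne_zero ?_
      filter_upwards [eventually_ge_atTop a1] with a ha
      exact ⟨((hspec a ha).2.1 hX0).1, fun w => (one_mul _).symm⟩
    · have hYe : ∀ w, Y (-w) = Y w := by
        rcases hYp with h | h
        · exact h
        · exfalso
          have h1 := h 0
          rw [neg_zero] at h1
          have h2 : (2 : ℂ) * Y 0 = 0 := by linear_combination h1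
          have h3 := (hYz 0).1 ((mul_eq_zero.1 h2).resolve_left two_ne_zero)
          rw [add_zero] at h3
          exact hX0 h3
      have h1 := g6 Y hY hYe hYg (fun w => by rw [hYz]; rfl) hYs
      show Y w / Y w' = 1 * G w / (1 * G w')
      rw [← h1 w, ← h1 w', one_mul, one_mul]
      have h2 : Y 0 ≠ 0 := by
        intro h
        have h3 := (hYz 0).1 h
        rw [add_zero] at h3
        exact hX0 h3
      have h3 : Y w' ≠ 0 := fun h => hw' (hZre w' ((hYz w').1 h))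
      field_simp

end Pool.Agent.Y23.G.CB
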