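import Pool.Agent.Run7.h336.CB.B10
import Pool.Agent.Run7.h336.CB.B12

/-! # Monotonicity, uniqueness -/

set_option autoImplicit false
set_option linter.unusedSectionVars false
set_option maxHeartbeats 2000000

open Complex Filter Topology Set MeasureTheory
open scoped ComplexConjugate

namespace Pool.Agent.Y23.G.CB

lemma Hd_mono {a b : ℝ} (h : a ≤ b) {f : ℝ → ℂ} (hf : Hd a f) : Hd b f := ⟨hf.1.mono h, hf.2⟩

section gen

variable [K : Win] [DZ : ZD] [EC : ZC]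

/-- the minimum decreases -/
theorem GM_anti {a b : ℝ} (ha : 0 < a) (hab : a ≤ b) : GM b ≤ GM a := by
  refine csInf_le_csInf (GM_bdd (by linarith)) ?_ ?_
  · obtain ⟨f, hf, hN⟩ := exists_elem ha
    exact ⟨_, f, hf, hN, rfl⟩
  · rintro r ⟨f, hf, hN, rfl⟩
    exact ⟨f, Hd_mono hab hf, hN, rfl⟩

/-- the minimisers through the Rayleigh quotient -/
lemma KK_iff {a : ℝ} {f : ℝ → ℂ} (hf : Hd a f) : KK a f ↔ QQ f = GM a * NH f := by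
  unfold KK bq
  constructor
  · rintro ⟨-, h⟩
    linarith
  · intro h
    exact ⟨hf, by linarith⟩

/-- matched zeros with precise positions -/
theorem matched_near (hRH : ∀ ρ : Zt, (ρ : ℂ).re = 1 / 2) (hwin : ∀ ρ : Zt, (ρ : ℂ).im ∉ wi (K := K))
    {η : ℝ → ℝ} (hη : Tendsto η atTop (𝓝 0))
    (hnear : ∀ b : ℂ, b + 1 / 2 ∈ DZ.Zs → ∃ a0 : ℝ, ∀ a : ℝ, a0 ≤ a → ∀ e : ℝ → ℂ, KK a e →
      ∃ w, TT e w = 0 ∧ ‖w - b‖ < η a) {R : ℝ} (hR : 0 ≤ R) :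
    ∃ a0 : ℝ, 0 < a0 ∧ ∀ a : ℝ, a0 ≤ a → ∀ e : ℝ → ℂ,
      KK a e → (∃ w1, TT e w1 ≠ 0) → (GM a = 0 → ∀ z, TT e z = 0 → ∃ ρ : Zt, z = (ρ : ℂ) - 1 / 2) →
      ∃ ζ : ℂ → ℂ, (∀ b ∈ Bf R, TT e (ζ b) = 0 ∧ ‖ζ b - b‖ < η a) ∧
        (∀ b ∈ Bf R, ∀ b' ∈ Bf R, ζ b = ζ b' → b = b') ∧
        ∀ z, TT e z = 0 → ‖z‖ ≤ R → ∃ b ∈ Bf R, z = ζ b := by
  classical
  have hnear' : ∀ b : ℂ, b + 1 / 2 ∈ DZ.Zs → ∀ δ : ℝ, 0 < δ → ∃ a0 : ℝ, ∀ a : ℝ, a0 ≤ a → ∀ e : ℝ → ℂ, KK a e →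
      ∃ w, TT e w = 0 ∧ ‖w - b‖ < δ := by
    intro b hb δ hδ
    obtain ⟨a0, h⟩ := hnear b hb
    obtain ⟨a1, h1⟩ := (hη.eventually (gt_mem_nhds hδ)).exists_forall_of_atTop
    refine ⟨max a0 a1, fun a ha e he => ?_⟩
    obtain ⟨w, hw, hw2⟩ := h a ((le_max_left _ _).trans ha) e he
    exact ⟨w, hw, hw2.trans (h1 a ((le_max_right _ _).trans ha))⟩
  obtain ⟨δ0, hδ0, h⟩ := matched' hRH hwin hnear' (show 0 ≤ R + 1 by linarith)
  -- separation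
  obtain ⟨d1, hd1, hd1'⟩ := fin_min ((Bf (R + 1)).offDiag) (fun p => ‖p.1 - p.2‖) (by
    intro p hp
    rw [Finset.mem_offDiag] at hp
    exact norm_pos_iff.2 (sub_ne_zero.2 hp.2.2))
  obtain ⟨d3, hd3, hd3'⟩ := fin_min ((Bf (R + 1)).filter fun b => R < ‖b‖) (fun b => ‖b‖ - R) (fun b hb => by
    have := (Finset.mem_filter.1 hb).2
    linarith)
  set δ : ℝ := min (min δ0 1) (min (d1 / 2) d3) with hδ
  have hδpos : 0 < δ := lt_min (lt_min hδ0 one_pos) (lt_min (by positivity) hd3)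
  have hδδ0 : δ ≤ δ0 := (min_le_left _ _).trans (min_le_left _ _)
  have hδ1 : δ ≤ 1 := (min_le_left _ _).trans (min_le_right _ _)
  have hδd1 : δ ≤ d1 / 2 := (min_le_right _ _).trans (min_le_left _ _)
  have hδd3 : δ ≤ d3 := (min_le_right _ _).trans (min_le_right _ _)
  obtain ⟨a0, ha0, h1⟩ := h δ hδpos hδδ0
  obtain ⟨a1, ha1⟩ := (hη.eventually (gt_mem_nhds hδpos)).exists_forall_of_atTop
  have h2 : ∀ b : ℂ, ∃ a2 : ℝ, b ∈ Bf R → ∀ a : ℝ, a2 ≤ a → ∀ e : ℝ → ℂ, KK a e → ∃ w, TT e w = 0 ∧ ‖w - b‖ < η a := by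
    intro b
    by_cases hb : b ∈ Bf R
    · obtain ⟨a2, ha2⟩ := hnear b (mem_Bf.1 hb).1
      exact ⟨a2, fun _ => ha2⟩
    · exact ⟨0, fun h => absurd h hb⟩
  choose A hA using h2
  obtain ⟨a2, _, hmax⟩ := fin_max (Bf R) A
  refine ⟨max a0 (max a1 a2), lt_max_of_lt_left ha0, fun a ha e he hnz hGz => ?_⟩
  have haa0 : a0 ≤ a := (le_max_left _ _).trans ha
  have haa1 : a1 ≤ a := (le_max_left _ _).trans ((le_max_right _ _).trans ha)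
  have haa2 : a2 ≤ a := (le_max_right _ _).trans ((le_max_right _ _).trans ha)
  obtain ⟨ζ, hζ1, hζ2, hζ3⟩ := h1 a haa0 e he hnz hGz
  have hηa := ha1 a haa1
  refine ⟨ζ, fun b hb => ?_, fun b hb b' hb' => hζ2 b (Bf_mono (by linarith) hb) b' (Bf_mono (by linarith) hb'),
    fun z hz hzR => ?_⟩
  · have hb1 : b ∈ Bf (R + 1) := Bf_mono (by linarith) hb
    refine ⟨(hζ1 b hb1).1, ?_⟩
    obtain ⟨w, hw, hwb⟩ := hA b hb a ((hmax b hb).trans haa2) e he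
    have h3 : ‖w‖ ≤ R + 1 := by
      have h4 : ‖w‖ ≤ ‖b‖ + ‖w - b‖ := by
        calc ‖w‖ = ‖b + (w - b)‖ := by congr 1; ring
          _ ≤ _ := norm_add_le _ _
      have h5 := (mem_Bf.1 hb).2
      linarith
    obtain ⟨b', hb', hwb'⟩ := hζ3 w hw h3
    by_cases hbb : b' = b
    · rw [hbb] at hwb'
      rw [← hwb']
      exact hwb
    · exfalso
      have h4 := hd1' (b', b) (Finset.mem_offDiag.2 ⟨hb', hb1, hbb⟩)
      have h5 := (hζ1 b' hb').2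
      rw [← hwb'] at h5
      have h6 : ‖b' - b‖ ≤ ‖w - b‖ + ‖w - b'‖ := by
        have : b' - b = (w - b) - (w - b') := by ring
        rw [this]
        exact norm_sub_le _ _
      simp only at h4
      linarith
  · obtain ⟨b, hb, hzb⟩ := hζ3 z hz (by linarith)
    refine ⟨b, ?_, hzb⟩
    by_contra hbR
    have h3 : R < ‖b‖ := by
      by_contra h4
      exact hbR (mem_Bf.2 ⟨(mem_Bf.1 hb).1, not_lt.1 h4⟩)
    have h4 := hd3' b (Finset.mem_filter.2 ⟨hb, h3⟩)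
    have h5 := (hζ1 b hb).2
    rw [← hzb] at h5
    have h6 : ‖b‖ ≤ ‖z‖ + ‖z - b‖ := by
      calc ‖b‖ = ‖z - (z - b)‖ := by congr 1; ring
        _ ≤ _ := norm_sub_le _ _
    linarith

/-- for large `a` the minimiser is unique when the minimum is positive -/
theorem unique (hRH : ∀ ρ : Zt, (ρ : ℂ).re = 1 / 2) (hwin : ∀ ρ : Zt, (ρ : ℂ).im ∉ wi (K := K))
    (hnear : ∀ b : ℂ, b + 1 / 2 ∈ DZ.Zs → ∀ δ : ℝ, 0 < δ → ∃ a0 : ℝ, ∀ a : ℝ, a0 ≤ a → ∀ e : ℝ → ℂ, KK a e →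
      ∃ w, TT e w = 0 ∧ ‖w - b‖ < δ) : ∃ a0 : ℝ, 0 < a0 ∧ ∀ a : ℝ, a0 ≤ a → GM a ≠ 0 → ∀ (e : ℝ → ℂ) (N : ℕ) (w1 : ℂ),
      GData a e N w1 → N = 0 := by
  have hk := K.pos
  obtain ⟨δ0, hδ0, h⟩ := matched' hRH hwin hnear hk.le
  obtain ⟨a0, ha0, h1⟩ := h (min δ0 K.r) (lt_min hδ0 K.rpos) (min_le_left _ _)
  refine ⟨a0, ha0, fun a ha hGM e N w1 hG => ?_⟩
  by_contra hN
  obtain ⟨g, hg, hgT⟩ := hG.poly (by linarith) (Polynomial.X - Polynomial.C ((K.c : ℂ) * I))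
    (by rw [Polynomial.natDegree_X_sub_C]; omega)
  have hev : ∀ w, TT g w = (w - K.c * I) * TT e w := by
    intro w
    rw [hgT]
    simp
  have hw1 : w1 - K.c * I ≠ 0 := by
    intro h2
    have h3 := congrArg Complex.re h2
    simp at h3
    exact hG.off h3
  have hnz : TT g w1 ≠ 0 := by
    rw [hev]
    exact mul_ne_zero hw1 hG.nz
  obtain ⟨ζ, hζ, -, h2⟩ := h1 a ha g hg ⟨w1, hnz⟩ fun h0 => absurd h0 hGM
  have hc : ‖((K.c : ℂ) * I)‖ ≤ K.k := by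
    have : ‖((K.c : ℂ) * I)‖ = |K.c| := by simp
    rw [this]
    exact mem_wi c_mem
  obtain ⟨b, hb, hbz⟩ := h2 (K.c * I) (by rw [hev, sub_self, zero_mul]) hc
  have h3 := (hζ b hb).2
  rw [← hbz] at h3
  have h5 := hwin ⟨b + 1 / 2, (mem_Bf.1 hb).1⟩
  have h6 : (b + 1 / 2 : ℂ).im = b.im := by simp
  rw [h6] at h5
  apply h5
  refine K.int _ ?_
  have h7 := Complex.abs_im_le_norm ((K.c : ℂ) * I - b)
  have h8 : ((K.c : ℂ) * I - b).im = K.c - b.im := by simp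
  rw [h8, abs_sub_comm] at h7
  exact (h7.trans h3.le).trans (min_le_right _ _)

end gen

end Pool.Agent.Y23.G.CB
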