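import Pool.Agent.Run7.h336.CB.B14
import Pool.Agent.Y23.G.Fw1
import Pool.Agent.Y23.Te

/-! # A form which is bounded below by the mass of the window -/

set_option autoImplicit false
set_option linter.unusedSectionVars false
set_option maxHeartbeats 2000000

open Complex Filter Topology Set MeasureTheory Metric
open scoped ComplexConjugate Convolution

namespace Pool.Agent.Y23.G.CB

variable [K : Win] [L : LFun]

/-- the function which vanishes at all zeros but one -/
lemma zfun {A : ℝ} (hA : 0 ≤ A) (hb : ∀ w : ℂ, ‖L.X (1 / 2 + w)‖ ≤ Real.exp (Ex A |w.re|) / (1 + w.im ^ 2))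
    (w0 : ℂ) : ∃ (H : ℂ → ℂ) (M : ℝ), Differentiable ℂ H ∧ 0 < M ∧
    (∀ w, ‖H w‖ ≤ M * Real.exp (Ex A |w.re|) / (1 + w.im ^ 2)) ∧ (∀ w, L.X (1 / 2 + w) = 0 → w ≠ w0 → H w = 0) ∧
    H w0 ≠ 0 := by
  obtain ⟨G, hG, hG0, hfac⟩ := factor_zero (L := L) (w0 := w0)
  set k := H370.mult L.X (1 / 2 + w0) with hk
  obtain ⟨M0, hM0⟩ := (isCompact_closedBall w0 1).exists_bound_of_continuousOn hG.continuous.continuousOn
  set R : ℝ := ‖w0‖ + 1 with hR
  have hR0 : 0 < R := by positivity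
  set q : ℝ := Real.exp (A - L.m / 2 * (1 + R * |kp|)) / (1 + R ^ 2) with hq
  have hq0 : 0 < q := by positivity
  refine ⟨G, max 1 (|M0| / q), hG, by positivity, fun w => ?_, fun w hw hne => ?_, hG0⟩
  · rcases le_total 1 ‖w - w0‖ with h | h
    · have h1 : ‖G w‖ ≤ ‖L.X (1 / 2 + w)‖ := by
        have h5 : ‖L.X (1 / 2 + w)‖ = ‖w - w0‖ ^ k * ‖G w‖ := by rw [hfac w, norm_mul, norm_pow]
        rw [h5]
        have := one_le_pow₀ h (n := k)
        have := norm_nonneg (G w)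
        nlinarith
      refine (h1.trans (hb w)).trans ?_
      refine div_le_div_of_nonneg_right ?_ (by positivity)
      have := le_max_left 1 (|M0| / q)
      have := Real.exp_pos (Ex A |w.re|)
      nlinarith
    · have h1 := hM0 w (by rw [mem_closedBall, dist_eq_norm]; exact h)
      have hwn : ‖w‖ ≤ R := by
        have : w = (w - w0) + w0 := by ring
        rw [this]
        exact (norm_add_le _ _).trans (by linarith)
      have hre : |w.re| ≤ R := (Complex.abs_re_le_norm w).trans hwn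
      have him : w.im ^ 2 ≤ R ^ 2 := by
        rw [← sq_abs]
        exact pow_le_pow_left₀ (abs_nonneg _) ((Complex.abs_im_le_norm w).trans hwn) 2
      have h2 := Ex_low (L := L) hA (abs_nonneg w.re) hre
      have h3 : q ≤ Real.exp (Ex A |w.re|) / (1 + w.im ^ 2) := by
        rw [hq]
        gcongr
      calc ‖G w‖ ≤ |M0| := h1.trans (le_abs_self _)
        _ = |M0| / q * q := by field_simp
        _ ≤ max 1 (|M0| / q) * (Real.exp (Ex A |w.re|) / (1 + w.im ^ 2)) := by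
            gcongr
            exact le_max_right _ _
        _ = _ := by ring
  · have h1 := hfac w
    rw [hw] at h1
    rcases mul_eq_zero.1 h1.symm with h2 | h2
    · exact absurd h2 (pow_ne_zero _ (sub_ne_zero.2 hne))
    · exact h2

/-- test functions which live at one zero -/
lemma test_off {w0 : ℂ} (hw0 : |w0.re| ≤ 1) : ∃ p M N1 : ℝ, 0 < p ∧ 1 ≤ M ∧ 0 ≤ N1 ∧ ∀ δ : ℝ, 0 < δ →
    ∃ (a : ℝ) (g : ℝ → ℂ), 0 < a ∧ Fa a g ∧ p ≤ ‖TT g w0‖ ∧ ‖TT g w0‖ ≤ M ∧ NH g ≤ N1 ∧
    ∀ w : ℂ, |w.re| ≤ 1 → L.X (1 / 2 + w) = 0 → w ≠ w0 → ‖TT g w‖ ≤ δ / (1 + (w.im - w0.im) ^ 2) := by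
  have hη : (0 : ℝ) < 1 := one_pos
  have hη2 : (0 : ℝ) < 1 / 2 := by norm_num
  obtain ⟨A, hA, hXb⟩ := X_all (L := L)
  obtain ⟨H, MH, hH, hMH, hHb, hHz, hH0⟩ := zfun (L := L) hA hXb w0
  obtain ⟨B, C, hB, hC, hcut⟩ := cut (L := L) hA hMH hH hHb (R := 1) zero_le_one
  obtain ⟨Ck, hCk, hkb⟩ := kap_boundR (a := 1 / 2) hη2 (r := 2)
  have hk0 := TT_kap_zero hη2
  have hp1 : 0 < ‖H w0‖ := norm_pos_iff.2 hH0
  have hp2 : 0 < ‖TT (kap (1 / 2)) 0‖ := norm_pos_iff.2 hk0
  set M1 : ℝ := (1 + MH * Real.exp (Ex A 0)) * Ck with hM1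
  have hM10 : 0 ≤ M1 := by positivity
  have hk := K.pos
  refine ⟨‖H w0‖ / 2 * ‖TT (kap (1 / 2)) 0‖, max 1 ((‖H w0‖ + 1) * Ck), M1 ^ 2 * (2 * K.k), by positivity,
    le_max_left _ _, by positivity, fun δ hδ => ?_⟩
  set D : ℝ := C * (1 + 2 / ‖H w0‖ + Ck / δ) with hD
  have hD0 : 0 < D := by positivity
  obtain ⟨A1, hA1, hlim⟩ := tau_lim (L := L) (B := B) (C := D) (c := 0) (η := 1) hB hD0
    (by have := cc_pos (L := L); positivity)
  set a : ℝ := max A1 2 with ha
  have haA : A1 ≤ a := le_max_left _ _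
  have ha2 : 2 ≤ a := le_max_right _ _
  obtain ⟨f, hf, hfb⟩ := hcut (a - 1) (by linarith)
  set τ := Real.exp (B * (1 + a) - cc * Real.exp (2 * (a - 1) / L.m)) with hτ
  have hτ0 : 0 < τ := Real.exp_pos _
  have hDτ : D * τ ≤ 1 := by
    have h8 := hlim a haA
    rwa [zero_mul, neg_zero, Real.exp_zero] at h8
  have hτ1 : C * τ ≤ 1 := by
    refine le_trans ?_ hDτ
    rw [hD]
    have h1 : 0 ≤ 2 / ‖H w0‖ + Ck / δ := by positivity
    nlinarith [mul_nonneg (mul_pos hC hτ0).le h1]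
  have hτ2 : C * τ ≤ ‖H w0‖ / 2 := by
    have h1 : C * (2 / ‖H w0‖) * τ ≤ D * τ := by
      refine mul_le_mul_of_nonneg_right ?_ hτ0.le
      rw [hD]
      refine mul_le_mul_of_nonneg_left ?_ hC.le
      have h2 : 0 ≤ Ck / δ := by positivity
      linarith
    have h3 : C * (2 / ‖H w0‖) * τ = C * τ / (‖H w0‖ / 2) := by field_simp
    rw [h3] at h1
    have h4 := h1.trans hDτ
    rwa [div_le_one (by positivity)] at h4
  have hτ3 : C * τ * Ck ≤ δ := by
    have h1 : C * (Ck / δ) * τ ≤ D * τ := by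
      refine mul_le_mul_of_nonneg_right ?_ hτ0.le
      rw [hD]
      refine mul_le_mul_of_nonneg_left ?_ hC.le
      have h2 : 0 ≤ 2 / ‖H w0‖ := by positivity
      linarith
    have h3 : C * (Ck / δ) * τ = C * τ * Ck / δ := by field_simp
    rw [h3] at h1
    have h4 := h1.trans hDτ
    rwa [div_le_one (by positivity)] at h4
  have hfb' : ∀ w : ℂ, |w.re| ≤ 1 → ‖TT f w - H w‖ ≤ C * τ := by
    intro w hw
    refine (hfb w hw).trans (mul_le_mul_of_nonneg_left (Real.exp_le_exp.2 ?_) hC.le)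
    nlinarith
  -- the kernel
  set κ : ℝ → ℂ := fun x => kap (1 / 2) x * cexp (-w0 * x) with hκ
  have hκF : Fa 1 κ := by
    have := (Fa_kap hη2).mul_bdd (g := fun x : ℝ => cexp (-w0 * x)) (by fun_prop)
    rwa [show 2 * (1 / 2 : ℝ) = 1 by ring] at this
  have hκT : ∀ w, TT κ w = TT (kap (1 / 2)) (-w0 + w) := fun w => TT_mul_exp _ _ _
  have hκb : ∀ x, ‖κ x‖ ≤ 3 * Real.exp 1 := by
    intro x
    by_cases hx : 1 < |x|
    · rw [hκF.2 x hx, norm_zero]
      positivity
    · rw [not_lt] at hx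
      simp only [hκ]
      rw [norm_mul, Complex.norm_exp]
      have h1 : (-w0 * (x : ℂ)).re ≤ 1 := by
        rw [Complex.re_mul_ofReal, Complex.neg_re]
        calc -w0.re * x ≤ |-w0.re * x| := le_abs_self _
          _ = |w0.re| * |x| := by rw [abs_mul, abs_neg]
          _ ≤ 1 * 1 := mul_le_mul hw0 hx (abs_nonneg _) zero_le_one
          _ = 1 := one_mul 1
      exact mul_le_mul (kap_bdd hη2 x) (Real.exp_le_exp.2 h1) (Real.exp_pos _).le (by norm_num)
  obtain ⟨g, hg, hgT⟩ := conv_TT hf hκF hκb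
  rw [sub_add_cancel] at hg
  have hκB : ∀ w : ℂ, |w.re| ≤ 1 → ‖TT κ w‖ ≤ Ck / (1 + (w.im - w0.im) ^ 2) := by
    intro w hw
    rw [hκT]
    have h3 := hkb (-w0 + w) (by
      rw [Complex.add_re, Complex.neg_re]
      calc |-w0.re + w.re| ≤ |-w0.re| + |w.re| := abs_add_le _ _
        _ ≤ 1 + 1 := by rw [abs_neg]; linarith
        _ = 2 := by norm_num)
    have h4 : (-w0 + w).im = w.im - w0.im := by simp; ring
    rwa [h4] at h3
  have hκC : ∀ w : ℂ, |w.re| ≤ 1 → ‖TT κ w‖ ≤ Ck := by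
    intro w hw
    refine (hκB w hw).trans (div_le_self hCk.le ?_)
    nlinarith [sq_nonneg (w.im - w0.im)]
  refine ⟨a, g, by linarith, hg, ?_, ?_, ?_, fun w hw hX hne => ?_⟩
  · rw [hgT, norm_mul, hκT, neg_add_cancel]
    refine mul_le_mul_of_nonneg_right ?_ hp2.le
    have h1 := hfb' w0 hw0
    have h2 : ‖H w0‖ ≤ ‖TT f w0‖ + ‖TT f w0 - H w0‖ := by
      have e : H w0 = TT f w0 - (TT f w0 - H w0) := by ring
      calc ‖H w0‖ = ‖TT f w0 - (TT f w0 - H w0)‖ := by rw [← e]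
        _ ≤ _ := norm_sub_le _ _
    linarith
  · rw [hgT, norm_mul]
    refine le_trans ?_ (le_max_right _ _)
    refine mul_le_mul ?_ (hκC w0 hw0) (norm_nonneg _) (by positivity)
    have h1 := hfb' w0 hw0
    have h2 : ‖TT f w0‖ ≤ ‖H w0‖ + ‖TT f w0 - H w0‖ := by
      have e : TT f w0 = H w0 + (TT f w0 - H w0) := by ring
      calc ‖TT f w0‖ = ‖H w0 + (TT f w0 - H w0)‖ := by rw [← e]
        _ ≤ _ := norm_add_le _ _
    linarith
  · have h1 : ∀ t ∈ wi (K := K), ‖TT g (t * I)‖ ^ 2 ≤ M1 ^ 2 := by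
      intro t _
      refine pow_le_pow_left₀ (norm_nonneg _) ?_ 2
      have hre : ((t : ℂ) * I).re = 0 := by simp
      have hre' : |((t : ℂ) * I).re| ≤ 1 := by rw [hre, abs_zero]; exact zero_le_one
      rw [hgT, norm_mul, hM1]
      refine mul_le_mul ?_ (hκC _ hre') (norm_nonneg _) (by positivity)
      have h2 := hfb' (t * I) hre'
      have h3 := hHb (t * I)
      rw [hre, abs_zero] at h3
      have h4 : MH * Real.exp (Ex A 0) / (1 + ((t : ℂ) * I).im ^ 2) ≤ MH * Real.exp (Ex A 0) :=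
        div_le_self (by positivity) (by nlinarith [sq_nonneg ((t : ℂ) * I).im])
      have h5 : ‖TT f (t * I)‖ ≤ ‖H (t * I)‖ + ‖TT f (t * I) - H (t * I)‖ := by
        have e : TT f (t * I) = H (t * I) + (TT f (t * I) - H (t * I)) := by ring
        calc ‖TT f (t * I)‖ = ‖H (t * I) + (TT f (t * I) - H (t * I))‖ := by rw [← e]
          _ ≤ _ := norm_add_le _ _
      linarith
    calc NH g = ∫ t in wi (K := K), ‖TT g (t * I)‖ ^ 2 := rfl
      _ ≤ ∫ t in wi (K := K), M1 ^ 2 := by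
          refine setIntegral_mono_on (NH_int hg) ?_ wi_meas h1
          exact integrableOn_const (wi_compact (K := K)).measure_lt_top.ne
      _ = (volume.real (wi (K := K))) * M1 ^ 2 := by
          rw [setIntegral_const, smul_eq_mul]
      _ ≤ (2 * K.k) * M1 ^ 2 := by
          refine mul_le_mul_of_nonneg_right ?_ (sq_nonneg _)
          have h2 : volume.real (wi (K := K)) ≤ volume.real (Icc (-K.k) K.k) :=
            measureReal_mono (fun t ht => abs_le.1 (mem_wi ht)) (by rw [Real.volume_Icc]; exact ENNReal.ofReal_ne_top)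
          rw [Real.volume_real_Icc, max_eq_left (by linarith)] at h2
          linarith
      _ = _ := mul_comm _ _
  · rw [hgT, norm_mul]
    have h1 : ‖TT f w‖ ≤ C * τ := by
      have := hfb' w hw
      rwa [hHz w hX hne, sub_zero] at this
    calc ‖TT f w‖ * ‖TT κ w‖ ≤ C * τ * (Ck / (1 + (w.im - w0.im) ^ 2)) :=
          mul_le_mul h1 (hκB w hw) (norm_nonneg _) (by positivity)
      _ = C * τ * Ck / (1 + (w.im - w0.im) ^ 2) := by ring
      _ ≤ δ / (1 + (w.im - w0.im) ^ 2) := div_le_div_of_nonneg_right hτ3 (by positivity)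

lemma NH_shift (g : ℝ → ℂ) (x : ℝ) : NH (fun u => g (u + x)) = NH g := by
  unfold NH
  refine integral_congr_ae (Eventually.of_forall fun t => ?_)
  simp only
  rw [TT_shift, norm_mul, Complex.norm_exp]
  have : (-((t : ℂ) * I * x)).re = 0 := by simp
  rw [this, Real.exp_zero, one_mul]

lemma NH_sh' (g : ℝ → ℂ) : NH (sh' g) = NH g := by
  unfold NH
  refine integral_congr_ae (Eventually.of_forall fun t => ?_)
  simp only
  rw [TT_sh, line_neg_conj, Complex.norm_conj]

/-- the algebra of the cross term -/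
lemma cross_alg (z P R θ : ℂ) (x : ℝ) (hθ : θ * conj θ = 1) :
    (cexp (z * x) * P + θ * conj R) * conj (cexp (-conj z * x) * R + θ * conj P) =
    2 * (P * conj R) + conj θ * cexp (z * x) * P ^ 2 + θ * cexp (-z * x) * conj R ^ 2 := by
  have e1 : conj (cexp (-conj z * x)) = cexp (-z * x) := by
    rw [← Complex.exp_conj]
    congr 1
    rw [map_mul, map_neg, Complex.conj_conj, Complex.conj_ofReal]
  have e2 : cexp (z * x) * cexp (-z * x) = 1 := by
    rw [← Complex.exp_add, neg_mul, add_neg_cancel, Complex.exp_zero]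
  rw [map_add, map_mul, map_mul, Complex.conj_conj, e1]
  linear_combination (P * conj R) * e2 + (P * conj R) * hθ

/-- **if Weil's form is bounded below by the mass of the window, the Riemann hypothesis holds** -/
theorem bdd_RH {C : ℝ} (hC : ∀ a : ℝ, 0 < a → ∀ f : ℝ → ℂ, Hd a f → -(C * NH f) ≤ QQ f) :
    ∀ ρ : Zt, (ρ : ℂ).re = 1 / 2 := by
  -- it suffices to exclude zeros to the right
  suffices hmain : ∀ ρ : Zt, ¬ 1 / 2 < (ρ : ℂ).re by
    intro ρ
    have h1 := not_lt.1 (hmain ρ)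
    have h2 := not_lt.1 (hmain (rfZ ρ))
    rw [rfZ_val, Complex.sub_re, Complex.one_re, Complex.conj_re] at h2
    linarith
  intro ρ0 hρ0
  set w0 : ℂ := (ρ0 : ℂ) - 1 / 2 with hw0
  have hσ : 0 < w0.re := by
    have : w0.re = (ρ0 : ℂ).re - 1 / 2 := by rw [hw0]; simp
    rw [this]; linarith
  obtain ⟨p, M, N1, hp, hM, hN1, ht⟩ := test_off (K := K) (L := L) (w0 := w0) (half_re ρ0)
  set C' : ℝ := max C 0 with hC'
  have hC'0 : 0 ≤ C' := le_max_right _ _
  -- the shift
  obtain ⟨x, hx0, hx⟩ : ∃ x : ℝ, 0 ≤ x ∧ C' * (4 * N1) + 1 < Real.exp (x * w0.re) * p ^ 2 := by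
    have h1 : Tendsto (fun x : ℝ => Real.exp (x * w0.re) * p ^ 2) atTop atTop := by
      refine Tendsto.atTop_mul_const (by positivity) ?_
      exact Real.tendsto_exp_atTop.comp (tendsto_id.atTop_mul_const hσ)
    obtain ⟨x, h2, h3⟩ := ((h1.eventually (eventually_gt_atTop (C' * (4 * N1) + 1))).and (eventually_ge_atTop 0)).exists
    exact ⟨x, h3, h2⟩
  set Z : ℝ := ∑' ρ : Zt, (mu ρ : ℝ) * (1 / (1 + ((ρ : ℂ).im - w0.im) ^ 2)) with hZ
  have hZ0 : 0 ≤ Z := tsum_nonneg fun ρ => by positivity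
  set ex : ℝ := Real.exp x with hex
  have hex1 : 1 ≤ ex := Real.one_le_exp hx0
  set δ : ℝ := min 1 (1 / (4 * ex * M * (Z + 1))) with hδ
  have hM0 : 0 < M := by linarith
  have hex0 : 0 < ex := by linarith
  have hδ0 : 0 < δ := lt_min one_pos (by positivity)
  have hδ1 : δ ≤ 1 := min_le_left _ _
  have hδM : δ ≤ M := hδ1.trans hM
  have hδE : 4 * ex * M * δ * Z ≤ 1 := by
    have h1 : δ ≤ 1 / (4 * ex * M * (Z + 1)) := min_le_right _ _
    rw [le_div_iff₀ (by positivity)] at h1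
    have h2 : 0 ≤ 4 * ex * M * δ := by positivity
    nlinarith
  obtain ⟨a, g, ha, hg, hgp, hgM, hgN, hgz⟩ := ht δ hδ0
  -- the bounds at the zeros
  have hd1 : ∀ ρ : Zt, 1 / (1 + ((ρ : ℂ).im - w0.im) ^ 2) ≤ 1 := by
    intro ρ
    rw [div_le_one (by positivity)]
    nlinarith [sq_nonneg ((ρ : ℂ).im - w0.im)]
  have hsmall : ∀ w : ℂ, |w.re| ≤ 1 → L.X (1 / 2 + w) = 0 → w ≠ w0 → ‖TT g w‖ ≤ δ * (1 / (1 + (w.im - w0.im) ^ 2)) := by
    intro w h1 h2 h3
    rw [mul_one_div]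
    exact hgz w h1 h2 h3
  have hall : ∀ w : ℂ, |w.re| ≤ 1 → L.X (1 / 2 + w) = 0 → ‖TT g w‖ ≤ M * (1 / (1 + (w.im - w0.im) ^ 2)) := by
    intro w h1 h2
    by_cases h3 : w = w0
    · rw [h3, sub_self]
      norm_num
      exact hgM
    · exact (hsmall w h1 h2 h3).trans (mul_le_mul_of_nonneg_right hδM (by positivity))
  have hz1 : ∀ ρ : Zt, L.X (1 / 2 + ((ρ : ℂ) - 1 / 2)) = 0 := fun ρ => by
    rw [add_sub_cancel]; exact ρ.2
  have him1 : ∀ ρ : Zt, ((ρ : ℂ) - 1 / 2).im = (ρ : ℂ).im := fun ρ => by simp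
  have hre2 : ∀ ρ : Zt, |(-conj ((ρ : ℂ) - 1 / 2)).re| ≤ 1 := fun ρ => by
    rw [Complex.neg_re, Complex.conj_re, abs_neg]; exact half_re ρ
  have hz2 : ∀ ρ : Zt, L.X (1 / 2 + -conj ((ρ : ℂ) - 1 / 2)) = 0 := fun ρ => by
    rw [← rfZ_sub]
    exact hz1 (rfZ ρ)
  have him2 : ∀ ρ : Zt, (-conj ((ρ : ℂ) - 1 / 2)).im = (ρ : ℂ).im := fun ρ => by simp
  -- the number θ
  set P0 : ℂ := TT g w0 with hP0
  have hP0n : 0 < ‖P0‖ := hp.trans_le hgp
  set v : ℂ := cexp (w0 * x) * P0 ^ 2 with hv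
  have hvn : ‖v‖ = Real.exp (x * w0.re) * ‖P0‖ ^ 2 := by
    rw [hv, norm_mul, norm_pow, Complex.norm_exp, Complex.re_mul_ofReal, mul_comm w0.re]
  have hv0 : 0 < ‖v‖ := by rw [hvn]; positivity
  have hvne : (‖v‖ : ℂ) ≠ 0 := by exact_mod_cast hv0.ne'
  set θ : ℂ := -(v / ‖v‖) with hθd
  have hθv : conj θ * v = -(‖v‖ : ℂ) := by
    rw [hθd, map_neg, map_div₀, Complex.conj_ofReal, neg_mul, div_mul_eq_mul_div, mul_comm, Complex.mul_conj,
      Complex.normSq_eq_norm_sq, neg_inj, div_eq_iff hvne]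
    push_cast
    ring
  have hθ1 : θ * conj θ = 1 := by
    rw [hθd, map_neg, map_div₀, Complex.conj_ofReal, neg_mul_neg, div_mul_div_comm, Complex.mul_conj,
      Complex.normSq_eq_norm_sq, div_eq_one_iff_eq (mul_ne_zero hvne hvne)]
    push_cast
    ring
  have hθn : ‖θ‖ = 1 := by
    have h1 : ‖θ‖ * ‖θ‖ = 1 := by
      have := congrArg norm hθ1
      rwa [norm_mul, Complex.norm_conj, norm_one] at this
    nlinarith [norm_nonneg θ]
  -- the function
  set h : ℝ → ℂ := fun u => g (u + -x) + θ * sh' g u with hh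
  have hF1 : Fa (a + x) (fun u => g (u + -x)) := Fa_shift (by rw [abs_neg, abs_of_nonneg hx0]) hg
  have hF2 : Fa (a + x) (fun u => θ * sh' g u) := ((Fa_sh hg).mono (by linarith)).smul θ
  have hF : Fa (a + x) h := hF1.add hF2
  have hT : ∀ w, TT h w = cexp (w * x) * TT g w + θ * conj (TT g (-conj w)) := by
    intro w
    simp only [hh]
    rw [TT_add hF1 hF2, TT_shift, TT_smul, TT_sh]
    congr 3
    push_cast
    ring
  have hexρ : ∀ z : ℂ, |z.re| ≤ 1 → ‖cexp (z * x)‖ ≤ ex := by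
    intro z hz
    rw [Complex.norm_exp, Complex.re_mul_ofReal, hex]
    refine Real.exp_le_exp.2 ?_
    calc z.re * x ≤ 1 * x := mul_le_mul_of_nonneg_right ((le_abs_self _).trans hz) hx0
      _ = x := one_mul x
  have hdomb : ∀ ρ : Zt, (mu ρ : ℝ) * ‖TT h ((ρ : ℂ) - 1 / 2)‖ ^ 2 ≤
      (2 * ex * M) ^ 2 * ((mu ρ : ℝ) * (1 / (1 + ((ρ : ℂ).im - w0.im) ^ 2))) := by
    intro ρ
    have h1 := hall _ (half_re ρ) (hz1 ρ)
    have h2 := hall _ (hre2 ρ) (hz2 ρ)
    rw [him1] at h1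
    rw [him2] at h2
    set d : ℝ := 1 / (1 + ((ρ : ℂ).im - w0.im) ^ 2) with hd
    have hd0 : 0 ≤ d := by positivity
    have h3 : ‖TT h ((ρ : ℂ) - 1 / 2)‖ ≤ 2 * ex * M * d := by
      rw [hT]
      refine (norm_add_le _ _).trans ?_
      rw [norm_mul, norm_mul, hθn, one_mul, Complex.norm_conj]
      have h4 := mul_le_mul (hexρ _ (half_re ρ)) h1 (norm_nonneg _) hex0.le
      have h5 : M * d ≤ ex * (M * d) := by
        have : 0 ≤ M * d := by positivity
        nlinarith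
      linarith
    have h4 : ‖TT h ((ρ : ℂ) - 1 / 2)‖ ^ 2 ≤ (2 * ex * M) ^ 2 * d := by
      calc ‖TT h ((ρ : ℂ) - 1 / 2)‖ ^ 2 ≤ (2 * ex * M * d) ^ 2 := pow_le_pow_left₀ (norm_nonneg _) h3 2
        _ = (2 * ex * M) ^ 2 * (d * d) := by ring
        _ ≤ (2 * ex * M) ^ 2 * (1 * d) := by
            refine mul_le_mul_of_nonneg_left (mul_le_mul_of_nonneg_right (hd1 ρ) hd0) (by positivity)
        _ = _ := by ring
    calc _ ≤ (mu ρ : ℝ) * ((2 * ex * M) ^ 2 * d) := mul_le_mul_of_nonneg_left h4 (Nat.cast_nonneg _)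
      _ = _ := by ring
  have hdom : Dom h := Summable.of_nonneg_of_le (fun ρ => by positivity) hdomb ((zsummable w0.im).mul_left _)
  have hHd : Hd (a + x) h := (Hd_iff (by linarith) h).2 ⟨hF, hdom⟩
  -- the mass
  have hNH : NH h ≤ 4 * N1 := by
    have h1 := NH_add_le (K := K) hF1 hF2
    rw [NH_shift, NH_smul, NH_sh', hθn] at h1
    have h2 : NH h ≤ 2 * NH g + 2 * (1 ^ 2 * NH g) := h1
    linarith
  -- the form
  have hterm : ∀ ρ : Zt, (mu ρ : ℝ) * (GG h h ((ρ : ℂ) - 1 / 2)).re ≤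
      4 * ex * M * δ * ((mu ρ : ℝ) * (1 / (1 + ((ρ : ℂ).im - w0.im) ^ 2))) - (if ρ = ρ0 then ‖v‖ else 0) := by
    intro ρ
    set z : ℂ := (ρ : ℂ) - 1 / 2 with hz
    have hzr : |z.re| ≤ 1 := half_re ρ
    have hGG : GG h h z = 2 * (TT g z * conj (TT g (-conj z))) + conj θ * cexp (z * x) * TT g z ^ 2 +
        θ * cexp (-z * x) * conj (TT g (-conj z)) ^ 2 := by
      have e1 : -conj (-conj z) = z := by rw [map_neg, Complex.conj_conj, neg_neg]
      unfold GG
      rw [hT, hT, e1]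
      exact cross_alg z (TT g z) (TT g (-conj z)) θ x hθ1
    set P : ℂ := TT g z with hP
    set R : ℂ := TT g (-conj z) with hR
    set d : ℝ := 1 / (1 + ((ρ : ℂ).im - w0.im) ^ 2) with hd
    have hd0 : 0 ≤ d := by positivity
    have hdd : d ≤ 1 := hd1 ρ
    have hmu : (1 : ℝ) ≤ mu ρ := by
      have : 1 ≤ mu ρ := ZD.mpos _ ρ.2
      exact_mod_cast this
    have hPs : z ≠ w0 → ‖P‖ ≤ δ * d := fun hne => by
      have := hsmall z hzr (hz1 ρ) hne
      rwa [him1 ρ] at this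
    have hRs : -conj z ≠ w0 → ‖R‖ ≤ δ * d := fun hne => by
      have := hsmall (-conj z) (hre2 ρ) (hz2 ρ) hne
      rwa [him2 ρ] at this
    have hPa : ‖P‖ ≤ M := by
      have := hall z hzr (hz1 ρ)
      rw [him1 ρ] at this
      refine this.trans ?_
      nlinarith
    have hRa : ‖R‖ ≤ M := by
      have := hall (-conj z) (hre2 ρ) (hz2 ρ)
      rw [him2 ρ] at this
      refine this.trans ?_
      nlinarith
    have hezn : ‖cexp (-z * x)‖ ≤ ex := hexρ (-z) (by rw [Complex.neg_re, abs_neg]; exact hzr)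
    have t1 : (2 * (P * conj R)).re ≤ 2 * (‖P‖ * ‖R‖) := by
      refine (Complex.re_le_norm _).trans ?_
      rw [norm_mul, norm_mul, Complex.norm_conj]
      simp
    have t2 : (conj θ * cexp (z * x) * P ^ 2).re ≤ ex * ‖P‖ ^ 2 := by
      refine (Complex.re_le_norm _).trans ?_
      rw [norm_mul, norm_mul, Complex.norm_conj, hθn, one_mul, norm_pow]
      exact mul_le_mul_of_nonneg_right (hexρ z hzr) (by positivity)
    have t3 : (θ * cexp (-z * x) * conj R ^ 2).re ≤ ex * ‖R‖ ^ 2 := by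
      refine (Complex.re_le_norm _).trans ?_
      rw [norm_mul, norm_mul, hθn, one_mul, norm_pow, Complex.norm_conj]
      exact mul_le_mul_of_nonneg_right hezn (by positivity)
    have hδd : δ * d ≤ δ := by nlinarith
    have hsq : ∀ y : ℝ, 0 ≤ y → y ≤ δ * d → ex * y ^ 2 ≤ ex * M * δ * d := by
      intro y hy0 hy
      have h1 : y ^ 2 ≤ (δ * d) * 1 := by
        rw [sq]
        exact mul_le_mul hy (hy.trans (hδd.trans hδ1)) hy0 (by positivity)
      have h2 : 0 ≤ ex * (δ * d) := by positivity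
      calc ex * y ^ 2 ≤ ex * (δ * d) := by
            refine mul_le_mul_of_nonneg_left ?_ hex0.le
            linarith
        _ ≤ ex * (δ * d) * M := le_mul_of_one_le_right h2 hM
        _ = _ := by ring
    have hpr : ∀ y y' : ℝ, 0 ≤ y → y ≤ M → 0 ≤ y' → y' ≤ δ * d → 2 * (y * y') ≤ 2 * (ex * M * δ * d) := by
      intro y y' hy0 hy hy'0 hy'
      have h1 : y * y' ≤ M * (δ * d) := mul_le_mul hy hy' hy'0 hM0.le
      have h2 : M * (δ * d) ≤ ex * (M * (δ * d)) := by
        have : 0 ≤ M * (δ * d) := by positivity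
        nlinarith
      nlinarith
    rw [hGG, Complex.add_re, Complex.add_re]
    by_cases hρ : ρ = ρ0
    · -- the zero itself
      have hzw : z = w0 := by rw [hz, hρ, hw0]
      have hne : -conj z ≠ w0 := by
        intro h1
        have h2 := congrArg Complex.re h1
        rw [hzw, Complex.neg_re, Complex.conj_re] at h2
        linarith
      have hRs' := hRs hne
      have t2' : (conj θ * cexp (z * x) * P ^ 2).re = -‖v‖ := by
        have e : conj θ * cexp (z * x) * P ^ 2 = conj θ * v := by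
          rw [hP, hzw, hv, hP0]; ring
        rw [e, hθv, Complex.neg_re, Complex.ofReal_re]
      rw [if_pos hρ]
      have k1 := hpr ‖P‖ ‖R‖ (norm_nonneg _) hPa (norm_nonneg _) hRs'
      have k2 := hsq ‖R‖ (norm_nonneg _) hRs'
      have k3 : (2 * (P * conj R)).re + (conj θ * cexp (z * x) * P ^ 2).re + (θ * cexp (-z * x) * conj R ^ 2).re ≤
          4 * (ex * M * δ * d) - ‖v‖ := by
        rw [t2']
        have : 0 ≤ ex * M * δ * d := by positivity
        linarith
      calc (mu ρ : ℝ) * ((2 * (P * conj R)).re + (conj θ * cexp (z * x) * P ^ 2).re + (θ * cexp (-z * x) * conj R ^ 2).re)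
          ≤ (mu ρ : ℝ) * (4 * (ex * M * δ * d) - ‖v‖) := mul_le_mul_of_nonneg_left k3 (Nat.cast_nonneg _)
        _ ≤ _ := by nlinarith
    · rw [if_neg hρ, sub_zero]
      have hzw : z ≠ w0 := by
        intro h1
        apply hρ
        ext1
        rw [hz, hw0] at h1
        exact sub_left_injective h1
      have hPs' := hPs hzw
      have k3 : (2 * (P * conj R)).re + (conj θ * cexp (z * x) * P ^ 2).re + (θ * cexp (-z * x) * conj R ^ 2).re ≤
          4 * (ex * M * δ * d) := by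
        have k2 := hsq ‖P‖ (norm_nonneg _) hPs'
        by_cases hr : -conj z = w0
        · -- the reflected zero
          have t3' : (θ * cexp (-z * x) * conj R ^ 2).re = -‖v‖ := by
            have e0 : -z = conj w0 := by rw [← hr, map_neg, Complex.conj_conj]
            have e : θ * cexp (-z * x) * conj R ^ 2 = conj (conj θ * v) := by
              rw [hv, map_mul, map_mul, Complex.conj_conj, ← Complex.exp_conj, map_mul, Complex.conj_ofReal, map_pow,
                hR, hr, e0]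
              ring
            rw [e, hθv, map_neg, Complex.conj_ofReal, Complex.neg_re, Complex.ofReal_re]
          rw [t3']
          have k1 := hpr ‖R‖ ‖P‖ (norm_nonneg _) hRa (norm_nonneg _) hPs'
          have : 0 ≤ ex * M * δ * d := by positivity
          rw [mul_comm ‖R‖] at k1
          linarith
        · have hRs' := hRs hr
          have k1 := hpr ‖P‖ ‖R‖ (norm_nonneg _) hPa (norm_nonneg _) hRs'
          have k4 := hsq ‖R‖ (norm_nonneg _) hRs'
          linarith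
      calc (mu ρ : ℝ) * ((2 * (P * conj R)).re + (conj θ * cexp (z * x) * P ^ 2).re + (θ * cexp (-z * x) * conj R ^ 2).re)
          ≤ (mu ρ : ℝ) * (4 * (ex * M * δ * d)) := mul_le_mul_of_nonneg_left k3 (Nat.cast_nonneg _)
        _ = _ := by ring
  have hsumL : Summable (fun ρ : Zt => (mu ρ : ℝ) * (GG h h ((ρ : ℂ) - 1 / 2)).re) := by
    refine Summable.of_norm ?_
    refine Summable.of_nonneg_of_le (fun _ => norm_nonneg _) (fun ρ => ?_) ((hdom.add hdom.refl).mul_left (1 / 2))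
    rw [norm_mul, Real.norm_natCast, Real.norm_eq_abs]
    have h := mul_le_mul_of_nonneg_left ((Complex.abs_re_le_norm _).trans (norm_GG_zero h h ((ρ : ℂ) - 1 / 2)))
      (Nat.cast_nonneg (mu ρ) : (0 : ℝ) ≤ mu ρ)
    calc _ ≤ _ := h
      _ = _ := by ring
  have hs1 := ((zsummable (D := zd (L := L)) w0.im).mul_left (4 * ex * M * δ)).hasSum
  have hs2 := hasSum_ite_eq ρ0 ‖v‖
  have hs3 := hs1.sub hs2
  have hQ : QQ h ≤ 4 * ex * M * δ * Z - ‖v‖ := by
    have h1 := hsumL.hasSum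
    have h2 := hasSum_le hterm h1 hs3
    rw [tsum_mul_left] at h2
    exact h2
  have hfin := hC (a + x) (by linarith) h hHd
  have h1 : C * NH h ≤ C' * (4 * N1) := by
    calc C * NH h ≤ C' * NH h := mul_le_mul_of_nonneg_right (le_max_left _ _) (NH_nonneg h)
      _ ≤ C' * (4 * N1) := mul_le_mul_of_nonneg_left hNH hC'0
  have h2 : Real.exp (x * w0.re) * p ^ 2 ≤ ‖v‖ := by
    rw [hvn]
    exact mul_le_mul_of_nonneg_left (pow_le_pow_left₀ hp.le hgp 2) (Real.exp_pos _).le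
  linarith

/-- the Riemann hypothesis holds if and only if the minimum is bounded below -/
theorem bdd_iff : (∀ ρ : Zt, (ρ : ℂ).re = 1 / 2) ↔ ∃ C : ℝ, ∀ a : ℝ, 0 < a → -C ≤ GM a := by
  constructor
  · intro h
    exact ⟨0, fun a _ => by rw [neg_zero]; exact GM_nonneg h a⟩
  · rintro ⟨C, hC⟩
    refine bdd_RH (C := C) fun a ha f hf => ?_
    have h1 := bq_nonneg ha hf
    unfold bq at h1
    have h2 := mul_le_mul_of_nonneg_right (hC a ha) (NH_nonneg f)
    linarith

end Pool.Agent.Y23.G.CB
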