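import Pool.Agent.Run7.h336.CB.B15
import Pool.Agent.Run7.h336.CB.B16
import Pool.Agent.Run7.h114.CA.Gen
import Pool.Agent.Run7.h833.CAz.P11

/-!
Project CB, the whole theorem for an L-function with `Λ(1 - s) = ±Λ(s)` and a general window without zeros.
-/

set_option autoImplicit false
set_option linter.unusedSectionVars false
set_option maxHeartbeats 2000000

open Complex Filter Topology Set MeasureTheory
open scoped ComplexConjugate

namespace Pool.Agent.Y23.G.CB

variable [K : Win] [L : LFun]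

lemma rh_iff' : (∀ ρ : Zt, (ρ : ℂ).re = 1 / 2) ↔ ∀ s : ℂ, L.X s = 0 → s.re = 1 / 2 :=
  ⟨fun h s hs => h ⟨s, hs⟩, fun h ρ => h ρ ρ.2⟩

lemma GM_le {a : ℝ} (ha : 0 < a) {f : ℝ → ℂ} (hf : Hd a f) : GM a * NH f ≤ QQ f := by
  have := bq_nonneg (K := K) (DZ := zd (L := L)) ha hf
  unfold bq at this
  linarith

lemma pos_iff : (∀ ρ : Zt, (ρ : ℂ).re = 1 / 2) ↔ ∀ a : ℝ, 0 < a → 0 ≤ GM a := by
  constructor
  · intro h a _
    exact GM_nonneg h a
  · intro h
    refine pos_RH (L := L) fun a ha f hf => ?_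
    exact (mul_nonneg (h a ha) (NH_nonneg f)).trans (GM_le ha hf)

/-- the lowest quotient tends to `-∞` if and only if the Riemann hypothesis fails -/
theorem bot_iff : (¬ ∀ ρ : Zt, (ρ : ℂ).re = 1 / 2) ↔ Tendsto (fun a => GM a) atTop atBot := by
  constructor
  · intro hn
    rw [bdd_iff] at hn
    push Not at hn
    refine tendsto_atBot.2 fun b => ?_
    obtain ⟨a, ha, hb⟩ := hn (-b)
    filter_upwards [eventually_ge_atTop a] with x hx
    have := GM_anti ha hx
    linarith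
  · intro h hRH
    obtain ⟨a, ha1⟩ := (h.eventually (eventually_lt_atBot 0)).exists
    have := GM_nonneg hRH a
    linarith

/-- the symmetry of the zeros -/
theorem sym_of_fe (hfe : (∀ s, L.X (1 - s) = L.X s) ∨ ∀ s, L.X (1 - s) = -L.X s) : Sym (zd (L := L)) := by
  intro s hs
  have hs0 : L.X s = 0 := hs
  have h0 : analyticOrderAt (L.X ∘ fun z : ℂ => 1 - z) s = analyticOrderAt L.X s := by
    rcases hfe with h | h
    · have e : L.X ∘ (fun z : ℂ => 1 - z) = L.X := funext h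
      rw [e]
    · have e : L.X ∘ (fun z : ℂ => 1 - z) = -L.X := funext h
      rw [e, analyticOrderAt_neg]
  refine ⟨?_, ?_⟩
  · show L.X (1 - s) = 0
    rcases hfe with h | h
    · rw [h]
      exact hs0
    · rw [h, hs0, neg_zero]
  · show H370.mult L.X (1 - s) = H370.mult L.X s
    unfold H370.mult analyticOrderNatAt
    have h1 : AnalyticAt ℂ (fun z : ℂ => 1 - z) s := by fun_prop
    have h2 : deriv (fun z : ℂ => 1 - z) s ≠ 0 := by
      have h3 : HasDerivAt (fun z : ℂ => 1 - z) (-1) s := by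
        simpa using (hasDerivAt_id s).const_sub 1
      rw [h3.deriv]
      norm_num
    have h3 := analyticOrderAt_comp_of_deriv_ne_zero (f := L.X) (g := fun z : ℂ => 1 - z) h1 h2
    rw [h0] at h3
    rw [h3]

/-- another point of normalisation -/
lemma renorm2 {E : ℝ → ℂ → ℂ} {G : ℂ → ℂ} {p q : ℂ} (h : TendstoLocallyUniformly (fun a s => E a s / E a p) G atTop)
    (hGc : Continuous G) (hq : G q ≠ 0) (hp : ∀ᶠ a in atTop, E a p ≠ 0) :
    TendstoLocallyUniformly (fun a s => E a s / E a q) (fun s => G s / G q) atTop := by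
  have h1 : Tendsto (fun a => E a q / E a p) atTop (𝓝 (G q)) :=
    (tendstoLocallyUniformlyOn_univ.2 h).tendsto_at (mem_univ q)
  have h2 := lu_scale (m := fun _ => (1 : ℂ)) h hGc (h1.inv₀ hq) continuous_const
  have h4 : (fun w => (1 : ℂ) * ((G q)⁻¹ * G w)) = fun w => G w / G q := by
    funext w
    rw [div_eq_mul_inv]; ring
  rw [h4] at h2
  refine lu_congr h2 ?_
  filter_upwards [hp] with a ha w
  rw [one_mul, inv_div, div_mul_div_comm, mul_comm (E a q), mul_div_mul_left _ _ ha]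

theorem general (hfe : (∀ s, L.X (1 - s) = L.X s) ∨ ∀ s, L.X (1 - s) = -L.X s) (hno : NoZ K L) {q : ℂ}
    (hq : q.re ≠ 1 / 2) :
    ∃ (E : ℝ → ℂ → ℂ) (d : ℝ → ℕ),
      (∀ a : ℝ, 0 < a → 1 ≤ d a ∧ Differentiable ℂ (E a) ∧
        (∃ f, Hd a f ∧ NH f ≠ 0 ∧ QQ f = GM a * NH f ∧ ∀ s, TT f (s - 1 / 2) = E a s) ∧
        (∀ s, E a (1 - conj s) = conj (E a s)) ∧
        ((∀ s, E a (1 - s) = E a s) ∨ ∀ s, E a (1 - s) = -E a s) ∧
        (∀ s, E a s = 0 → s.re = 1 / 2 ∧ deriv (E a) s ≠ 0) ∧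
        (∀ f, Hd a f → (QQ f = GM a * NH f ↔
          ∃ p : Polynomial ℂ, p.natDegree < d a ∧ ∀ s, TT f (s - 1 / 2) = p.eval s * E a s)) ∧
        ∀ p : Polynomial ℂ, p.natDegree < d a → ∃ f, Hd a f ∧ QQ f = GM a * NH f ∧
          ∀ s, TT f (s - 1 / 2) = p.eval s * E a s) ∧
      ((∀ s : ℂ, L.X s = 0 → s.re = 1 / 2) ↔ ∃ G : ℂ → ℂ,
        TendstoLocallyUniformly (fun a s => E a s / E a q) G atTop ∧ ∀ s, L.X s = 0 → G s = 0) ∧
      (((∀ s : ℂ, L.X s = 0 → s.re = 1 / 2) ∧ ∀ s, L.X s = 0 → deriv L.X s ≠ 0) ↔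
        TendstoLocallyUniformly (fun a s => E a s / E a q) (fun s => L.X s / L.X q) atTop) ∧
      ((∀ s : ℂ, L.X s = 0 → s.re = 1 / 2) →
        (∃ G : ℂ → ℂ, Differentiable ℂ G ∧ (∀ s, G s = 0 ↔ L.X s = 0) ∧ (∀ s, G s = 0 → deriv G s ≠ 0) ∧
          TendstoLocallyUniformly (fun a s => E a s / E a q) G atTop) ∧
        (∀ c R : ℝ, 0 < c → c < cc → 0 ≤ R → ∃ A : ℝ, 0 < A ∧ ∀ a : ℝ, A ≤ a → ∃ ζ : ℂ → ℂ,
          (∀ ρ, L.X ρ = 0 → ‖ρ - 1 / 2‖ ≤ R → E a (ζ ρ) = 0 ∧ ‖ζ ρ - ρ‖ < Real.exp (-c * Real.exp (2 * a / L.m))) ∧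
          (∀ ρ ρ', L.X ρ = 0 → L.X ρ' = 0 → ‖ρ - 1 / 2‖ ≤ R → ‖ρ' - 1 / 2‖ ≤ R → ζ ρ = ζ ρ' → ρ = ρ') ∧
          ∀ s, E a s = 0 → ‖s - 1 / 2‖ ≤ R → ∃ ρ, L.X ρ = 0 ∧ ‖ρ - 1 / 2‖ ≤ R ∧ s = ζ ρ) ∧
        ((∀ s, L.X s = 0 → deriv L.X s ≠ 0) →
          (∀ a : ℝ, 0 < a → 0 < GM a) ∧ ∃ A : ℝ, 0 < A ∧ ∀ a : ℝ, A ≤ a → d a = 1)) := by
  obtain ⟨e, N, w1, hg⟩ := exists_gen (K := K) (L := L)
  have hsym := sym_of_fe hfe
  have hgr := CA.X_growth (L := L)
  have hEq : ∀ a : ℝ, 0 < a → EE e a q ≠ 0 := fun a ha h =>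
    hq ((structureE hsym hg ha).2.2.2.2.1 q h).1
  have hE2 : ∀ᶠ a : ℝ in atTop, EE e a 2 ≠ 0 := by
    filter_upwards [eventually_gt_atTop 0] with a ha
    exact EE_two hsym hg ha
  have hEq' : ∀ᶠ a : ℝ in atTop, EE e a q ≠ 0 := by
    filter_upwards [eventually_gt_atTop 0] with a ha
    exact hEq a ha
  have two_ok : ∀ {G : ℂ → ℂ}, TendstoLocallyUniformly (fun a s => EE e a s / EE e a q) G atTop → Continuous G := by
    intro G h
    refine h.continuous (Eventually.frequently ?_)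
    filter_upwards [eventually_gt_atTop 0] with a ha
    exact ((structureE hsym hg ha).1.div_const _).continuous
  refine ⟨EE e, fun a => N a + 1, fun a ha => ?_, ?_, ?_, fun h => ?_⟩
  · obtain ⟨h1, h2, h3, h4, h5, h6⟩ := structureE hsym hg ha
    have hG := hg.gd a ha
    refine ⟨Nat.le_add_left 1 (N a), h1, ⟨e a, hG.mem.1, fun h0 => hG.nz (TT_zero_of_NH hG.mem.1.1 h0 (w1 a)),
      (KK_iff hG.mem.1).1 hG.mem, fun s => rfl⟩, h3, h4, h5, fun f hf => ?_, fun p hp => ?_⟩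
    · rw [← KK_iff hf]
      exact h6 f hf
    · obtain ⟨g, hg1, hg2⟩ := hG.poly ha (p.comp (Polynomial.X + Polynomial.C (1 / 2))) (by
        rw [Polynomial.natDegree_comp, Polynomial.natDegree_X_add_C]
        have hp' : p.natDegree < N a + 1 := hp
        omega)
      refine ⟨g, hg1.1, (KK_iff hg1.1).1 hg1, fun s => ?_⟩
      rw [hg2, Polynomial.eval_comp]
      simp only [Polynomial.eval_add, Polynomial.eval_X, Polynomial.eval_C, sub_add_cancel]
      rfl
  · rw [← rh_iff']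
    constructor
    · intro hG
      obtain ⟨G, h1, h2, h3, h4, h5, _⟩ := convE hsym hg hno hG
      have hGq : G q ≠ 0 := fun h => hq (hG ⟨q, (h3 q).1 h⟩)
      exact ⟨_, renorm2 h5 h1.continuous hGq hE2, fun s hs => by rw [(h3 s).2 hs, zero_div]⟩
    · rintro ⟨G, h1, h3⟩ ρ
      have hGq1 : G q = 1 := by
        have t1 := (tendstoLocallyUniformlyOn_univ.2 h1).tendsto_at (mem_univ q)
        refine tendsto_nhds_unique t1 (tendsto_const_nhds.congr' ?_)
        filter_upwards [eventually_gt_atTop 0] with a ha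
        exact (div_self (hEq a ha)).symm
      by_contra hne
      have hr : 0 < |(ρ : ℂ).re - 1 / 2| := abs_pos.2 (sub_ne_zero.2 hne)
      refine Pool.Agent.Y23.G.CA.hurwitz_point (l := atTop) (F := fun (a : ℝ) s => EE e a s / EE e a q) (G := G)
        (s := (ρ : ℂ)) hr ?_ ?_ h1 (c := q) (by rw [hGq1]; exact one_ne_zero) (h3 ρ ρ.2)
      · filter_upwards [eventually_gt_atTop 0] with a ha
        exact (structureE hsym hg ha).1.div_const _
      · filter_upwards [eventually_gt_atTop 0] with a ha w hw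
        refine div_ne_zero (fun h => ?_) (hEq a ha)
        have h4 := ((structureE hsym hg ha).2.2.2.2.1 w h).1
        rw [Metric.mem_ball, dist_eq_norm] at hw
        have h5 := Complex.abs_re_le_norm (w - ρ)
        rw [Complex.sub_re, h4, abs_sub_comm] at h5
        linarith
  · rw [← rh_iff', equiv_simple hsym hg hno hfe hgr]
    constructor
    · intro h
      have hX := ((equiv_simple hsym hg hno hfe hgr).2 h).1
      have hXq : L.X q ≠ 0 := fun h0 => hq (hX ⟨q, h0⟩)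
      have hX2 := X_two L
      have h1 := renorm2 h ((Xd (L := L)).div_const _).continuous (q := q) (div_ne_zero hXq hX2) hE2
      refine h1.congr_right fun s => ?_
      rw [div_div_div_cancel_right₀ hX2]
    · intro h
      have hXq1 : L.X q / L.X q = 1 := by
        have t1 := (tendstoLocallyUniformlyOn_univ.2 h).tendsto_at (mem_univ q)
        refine tendsto_nhds_unique t1 (tendsto_const_nhds.congr' ?_)
        filter_upwards [eventually_gt_atTop 0] with a ha
        exact (div_self (hEq a ha)).symm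
      have hXq : L.X q ≠ 0 := fun h0 => by rw [h0, zero_div] at hXq1; exact zero_ne_one hXq1
      have hX2 := X_two L
      have h1 := renorm2 h ((Xd (L := L)).div_const _).continuous (q := 2) (div_ne_zero hX2 hXq) hEq'
      refine h1.congr_right fun s => ?_
      rw [div_div_div_cancel_right₀ hXq]
  · have hG := rh_iff'.2 h
    refine ⟨?_, fun c R hc0 hc hR => zerosE hg hno hG hc0 hc hR, fun hs => ?_⟩
    · obtain ⟨G, h1, h2, h3, h4, h5, _⟩ := convE hsym hg hno hG
      have hGq : G q ≠ 0 := fun h => hq (hG ⟨q, (h3 q).1 h⟩)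
      refine ⟨fun s => G s / G q, h1.div_const _, fun s => ?_, fun s hs => ?_, renorm2 h5 h1.continuous hGq hE2⟩
      · rw [div_eq_zero_iff, or_iff_left hGq]
        exact h3 s
      · rw [div_eq_zero_iff, or_iff_left hGq] at hs
        rw [deriv_div_const]
        exact div_ne_zero (h4 s hs) hGq
    · obtain ⟨h1, A, hA, h2⟩ := uniqueE hsym hg hno hfe hgr CA.X_not_exp hG hs
      exact ⟨h1, A, hA, fun a ha => by show N a + 1 = 1; rw [h2 a ha]⟩

end Pool.Agent.Y23.G.CB
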