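import Pool.Agent.Run7.h336.CB.B1

/-! # The Weil form minus a multiple of the mass on the window -/

set_option autoImplicit false
set_option linter.unusedSectionVars false
set_option maxHeartbeats 2000000

open Complex Filter Topology Set MeasureTheory
open scoped ComplexConjugate

namespace Pool.Agent.Y23.G.CB

variable [K : Win] [DZ : ZD] [EC : ZC]

/-- the shifted Weil form -/
noncomputable def BB (μ : ℝ) (f g : ℝ → ℂ) : ℂ := QB f g - μ * IPH f g

/-- the shifted Weil form on the diagonal -/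
noncomputable def bq (μ : ℝ) (f : ℝ → ℂ) : ℝ := QQ f - μ * NH f

lemma BB_conj (μ : ℝ) (f g : ℝ → ℂ) : BB μ g f = conj (BB μ f g) := by
  unfold BB
  rw [map_sub, map_mul, Complex.conj_ofReal, QB_conj, IPH_conj]

lemma BB_smul_left (μ : ℝ) (f g : ℝ → ℂ) (c : ℂ) : BB μ (fun x => c * f x) g = c * BB μ f g := by
  unfold BB
  rw [QB_smul_left, IPH_smul_left]; ring

lemma BB_smul_right (μ : ℝ) (f g : ℝ → ℂ) (c : ℂ) : BB μ f (fun x => c * g x) = conj c * BB μ f g := by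
  rw [BB_conj, BB_smul_left, map_mul, ← BB_conj]

lemma BB_add_left {a : ℝ} (ha : 0 < a) (μ : ℝ) {f g h : ℝ → ℂ} (hf : Hd a f) (hg : Hd a g) (hh : Hd a h) :
    BB μ (fun x => f x + g x) h = BB μ f h + BB μ g h := by
  unfold BB
  rw [QB_add_left hf.1 hg.1 (hf.dom ha) (hg.dom ha) (hh.dom ha), IPH_add_left hf.1 hg.1 hh.1]; ring

lemma BB_add_right {a : ℝ} (ha : 0 < a) (μ : ℝ) {f g h : ℝ → ℂ} (hf : Hd a f) (hg : Hd a g) (hh : Hd a h) :
    BB μ h (fun x => f x + g x) = BB μ h f + BB μ h g := by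
  rw [BB_conj, BB_add_left ha μ hf hg hh, map_add, ← BB_conj, ← BB_conj]

lemma BB_self {a : ℝ} (ha : 0 < a) (μ : ℝ) {f : ℝ → ℂ} (hf : Hd a f) : BB μ f f = (bq μ f : ℂ) := by
  unfold BB bq
  rw [QB_self (hf.dom ha), IPH_self]
  push_cast; ring

/-- expansion of the form on a line -/
lemma bq_line {a : ℝ} (ha : 0 < a) (μ : ℝ) {f g : ℝ → ℂ} (hf : Hd a f) (hg : Hd a g) (t : ℂ) :
    bq μ (fun x => f x + t * g x) = bq μ f + 2 * (conj t * BB μ f g).re + ‖t‖ ^ 2 * bq μ g := by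
  have h1 : BB μ (fun x => f x + t * g x) (fun x => f x + t * g x) =
      bq μ f + (conj t * BB μ f g + conj (conj t * BB μ f g)) + (‖t‖ ^ 2 : ℝ) * bq μ g := by
    have htg := hg.smul t
    rw [BB_add_left ha μ hf htg (hf.add htg), BB_add_right ha μ hf htg hf, BB_add_right ha μ hf htg htg,
      BB_smul_left, BB_smul_left, BB_smul_right, BB_smul_right, BB_self ha μ hf, BB_self ha μ hg, BB_conj μ f g,
      map_mul, Complex.conj_conj]
    have : ((‖t‖ ^ 2 : ℝ) : ℂ) = t * conj t := by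
      rw [Complex.mul_conj, Complex.normSq_eq_norm_sq]
    rw [this]
    ring
  rw [BB_self ha μ (hf.add (hg.smul t))] at h1
  have h2 := congrArg Complex.re h1
  rw [Complex.ofReal_re, Complex.add_re, Complex.add_re, Complex.add_re, Complex.conj_re, Complex.ofReal_re,
    ← Complex.ofReal_mul, Complex.ofReal_re] at h2
  linarith

/-- Cauchy-Schwarz -/
lemma BB_cs {a : ℝ} (ha : 0 < a) {μ : ℝ} (hpos : ∀ f, Hd a f → 0 ≤ bq μ f) {f g : ℝ → ℂ} (hf : Hd a f) (hg : Hd a g) :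
    ‖BB μ f g‖ ^ 2 ≤ bq μ f * bq μ g := by
  set b := BB μ f g with hb
  have h0 : conj b * b = ((‖b‖ ^ 2 : ℝ) : ℂ) := by
    rw [mul_comm, Complex.mul_conj, Complex.normSq_eq_norm_sq]
  have key : ∀ s : ℝ, 0 ≤ bq μ f - 2 * s * ‖b‖ ^ 2 + s ^ 2 * ‖b‖ ^ 2 * bq μ g := by
    intro s
    have h1 := hpos _ (hf.add (hg.smul (-(s : ℂ) * b)))
    rw [bq_line ha μ hf hg (-(s : ℂ) * b), ← hb] at h1
    have h2 : conj (-(s : ℂ) * b) * b = ((-(s * ‖b‖ ^ 2) : ℝ) : ℂ) := by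
      rw [map_mul, map_neg, Complex.conj_ofReal, mul_assoc, h0]
      push_cast; ring
    have h3 : ‖-(s : ℂ) * b‖ ^ 2 = s ^ 2 * ‖b‖ ^ 2 := by
      rw [norm_mul, norm_neg, Complex.norm_real, mul_pow, Real.norm_eq_abs, sq_abs]
    rw [h2, h3, Complex.ofReal_re] at h1
    linarith
  have hf0 := hpos f hf
  have hg0 := hpos g hg
  rcases eq_or_ne (bq μ g) 0 with h | h
  · by_contra hcon
    rw [h, mul_zero, not_le] at hcon
    have h1 := key ((bq μ f + 1) / (2 * ‖b‖ ^ 2))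
    rw [h, mul_zero, add_zero] at h1
    have hb0 : ‖b‖ ≠ 0 := fun hb0 => by rw [hb0] at hcon; norm_num at hcon
    have h2 : 2 * ((bq μ f + 1) / (2 * ‖b‖ ^ 2)) * ‖b‖ ^ 2 = bq μ f + 1 := by
      field_simp
    rw [h2] at h1
    linarith
  · have hg1 : 0 < bq μ g := lt_of_le_of_ne hg0 (Ne.symm h)
    have h1 := key (1 / bq μ g)
    have h2 : bq μ f - 2 * (1 / bq μ g) * ‖b‖ ^ 2 + (1 / bq μ g) ^ 2 * ‖b‖ ^ 2 * bq μ g =
        bq μ f - ‖b‖ ^ 2 / bq μ g := by
      field_simp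
      ring
    rw [h2, sub_nonneg, div_le_iff₀ hg1] at h1
    exact h1

/-- elements of the kernel are orthogonal to everything -/
lemma BB_ker {a : ℝ} (ha : 0 < a) {μ : ℝ} (hpos : ∀ f, Hd a f → 0 ≤ bq μ f) {f g : ℝ → ℂ} (hf : Hd a f) (hg : Hd a g)
    (h0 : bq μ f = 0) : BB μ f g = 0 := by
  have h := BB_cs ha hpos hf hg
  rw [h0, zero_mul] at h
  have h1 : ‖BB μ f g‖ ^ 2 = 0 := le_antisymm h (sq_nonneg _)
  exact norm_eq_zero.1 (pow_eq_zero_iff (two_ne_zero) |>.1 h1)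

/-- the form depends only on the product -/
lemma BB_congr (μ : ℝ) {f g f' g' : ℝ → ℂ} (h : ∀ w, GG f g w = GG f' g' w) : BB μ f g = BB μ f' g' := by
  have h1 : QB f g = QB f' g' := by
    unfold QB
    exact tsum_congr fun ρ => by rw [h]
  have h2 : IPH f g = IPH f' g' := by
    unfold IPH
    exact integral_congr_ae (Eventually.of_forall fun t => h _)
  unfold BB
  rw [h1, h2]

/-- multiplication by `w - w₀` is skew -/
lemma BB_skew {a : ℝ} (μ : ℝ) {w0 : ℂ} (hw0 : w0.re = 0) {f g f' g' : ℝ → ℂ} (hf : Fa a f) (hg : Fa a g)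
    (hf' : Fa a f') (hg' : Fa a g') (h1 : ∀ w, TT f' w = (w - w0) * TT f w) (h2 : ∀ w, TT g' w = (w - w0) * TT g w) :
    BB μ f' g = -BB μ f g' := by
  have e : -BB μ f g' = BB μ f (fun x => (-1 : ℂ) * g' x) := by
    rw [BB_smul_right]; simp
  rw [e]
  refine BB_congr μ fun w => ?_
  unfold GG
  rw [TT_smul, h1, h2, map_mul, map_mul]
  have h3 : conj (-conj w - w0) = -(w - w0) := by
    apply Complex.ext
    · simp [hw0]
    · simp
      ring
  rw [h3]
  simp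
  ring

end Pool.Agent.Y23.G.CB
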