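import Pool.Agent.Run7.h336.CB.B3

set_option autoImplicit false
set_option linter.unusedSectionVars false
set_option maxHeartbeats 2000000

open Complex Filter Topology Set MeasureTheory
open scoped ComplexConjugate

namespace Pool.Agent.Y23.G.CB

variable [K : Win] [DZ : ZD] [EC : ZC]

theorem order_bound {a : ℝ} (ha : 0 < a) (w1 : ℂ) : ∃ N : ℕ, ∀ f : ℝ → ℂ, KK a f → NH f ≠ 0 →
    analyticOrderAt (TT f) w1 < (N : ℕ∞) := by
  by_contra hcon
  push Not at hcon
  choose f hf hN hord using hcon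
  -- normalisation
  have hNp : ∀ n, 0 < NH (f n) := fun n => lt_of_le_of_ne (NH_nonneg _) (Ne.symm (hN n))
  set c : ℕ → ℂ := fun n => ((1 / Real.sqrt (NH (f n)) : ℝ) : ℂ) with hc
  have hc2 : ∀ n, ‖c n‖ ^ 2 = 1 / NH (f n) := fun n => by
    simp only [hc]
    rw [Complex.norm_real, Real.norm_eq_abs, sq_abs, div_pow, Real.sq_sqrt (hNp n).le, one_pow]
  set g : ℕ → ℝ → ℂ := fun n x => c n * f n x with hg
  have hgK : ∀ n, KK a (g n) := fun n => (hf n).smul (c n)
  have hgN : ∀ n, NH (g n) = 1 := fun n => by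
    simp only [hg]
    rw [NH_smul, hc2]
    exact one_div_mul_cancel (hNp n).ne'
  have hder : ∀ n k : ℕ, k < n → iteratedDeriv k (TT (g n)) w1 = 0 := by
    intro n k hk
    have h1 := (natCast_le_analyticOrderAt_iff_iteratedDeriv_eq_zero (TT_an (hf n).1.1 w1)).1 (hord n) k hk
    rw [iteratedDeriv_TT (hf n).1.1] at h1
    rw [iteratedDeriv_TT (hgK n).1.1]
    have e : (fun x : ℝ => g n x * (x : ℂ) ^ k) = fun x : ℝ => c n * (f n x * (x : ℂ) ^ k) := by
      funext x; simp only [hg]; ring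
    rw [e, TT_smul, h1, mul_zero]
  obtain ⟨φ, G, hφ, hG, hG2, hlim⟩ := key_seq ha (fun n => (hgK n).1) hgN (by
    have : (fun n => bq (GM a) (g n)) = fun _ => 0 := by funext n; exact (hgK n).2
    rw [this]; exact tendsto_const_nhds)
  have hGder : ∀ k : ℕ, iteratedDeriv k (TT G) w1 = 0 := by
    intro k
    have h1 : ∀ ε : ℝ, 0 < ε → ‖iteratedDeriv k (TT G) w1‖ ^ 2 ≤ ε := by
      intro ε hε
      set K := 2 * a * Real.exp (2 * a * |w1.re|) * (a ^ 2) ^ k with hK
      have hK0 : 0 < K := by positivity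
      obtain ⟨N, hN'⟩ := hlim (ε / K) (by positivity)
      set n := max N (k + 1) with hn
      have h2 := hN' n (le_max_left _ _)
      have hd := (hgK (φ n)).1.sub hG.1
      have h3 := norm_iteratedDeriv_TT ha hd.1 k w1
      have h4 : iteratedDeriv k (TT (fun x => g (φ n) x - G x)) w1 = -iteratedDeriv k (TT G) w1 := by
        have h5 := hder (φ n) k (lt_of_lt_of_le (Nat.lt_of_succ_le (le_max_right N (k + 1))) (hφ.id_le n))
        rw [iteratedDeriv_TT (hgK (φ n)).1.1] at h5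
        rw [iteratedDeriv_TT hd.1, iteratedDeriv_TT hG.1.1]
        have e : (fun x : ℝ => (g (φ n) x - G x) * (x : ℂ) ^ k) =
            fun x : ℝ => (g (φ n) x * (x : ℂ) ^ k) - (G x * (x : ℂ) ^ k) := by
          funext x; ring
        rw [e, TT_sub (Fa_pow (hgK (φ n)).1.1 k) (Fa_pow hG.1.1 k), h5, zero_sub]
      rw [h4, norm_neg] at h3
      have h5 := N2_le_LL hd
      have h6 := N2_nonneg (fun x => g (φ n) x - G x)
      have h7 : N2 (fun x => g (φ n) x - G x) ≤ ε / K := by nlinarith [Real.pi_gt_three]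
      calc ‖iteratedDeriv k (TT G) w1‖ ^ 2 ≤ K * N2 (fun x => g (φ n) x - G x) := by
            rw [hK]; linarith
        _ ≤ K * (ε / K) := mul_le_mul_of_nonneg_left h7 hK0.le
        _ = ε := mul_div_cancel₀ _ hK0.ne'
    have h2 : ‖iteratedDeriv k (TT G) w1‖ ^ 2 = 0 :=
      le_antisymm (le_of_forall_pos_le_add fun ε hε => by rw [zero_add]; exact h1 ε hε) (sq_nonneg _)
    exact norm_eq_zero.1 (pow_eq_zero_iff two_ne_zero |>.1 h2)
  have htop : analyticOrderAt (TT G) w1 = ⊤ := by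
    rw [ENat.eq_top_iff_forall_ge]
    intro n
    exact (natCast_le_analyticOrderAt_iff_iteratedDeriv_eq_zero (TT_an hG.1.1 w1)).2 fun i _ => hGder i
  have h0 := NH_zero_of_TT (entire_zero (differentiable_TT hG.1.1) htop)
  rw [h0] at hG2
  norm_num at hG2

lemma bq_congr (μ : ℝ) {f g : ℝ → ℂ} (h : ∀ w, GG f f w = GG g g w) :
    bq μ f = bq μ g := by
  have h1 : QQ f = QQ g := by
    unfold QQ
    exact tsum_congr fun ρ => by rw [h]
  have h2 : NH f = NH g := by
    unfold NH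
    refine integral_congr_ae (Eventually.of_forall fun t => ?_)
    simp only
    have h3 := h (t * I)
    rw [GG_line', GG_line', Complex.mul_conj, Complex.mul_conj, Complex.normSq_eq_norm_sq,
      Complex.normSq_eq_norm_sq] at h3
    exact_mod_cast h3
  unfold bq
  rw [h1, h2]

/-- the kernel only depends on the transform -/
lemma KK.congr {a : ℝ} {f g : ℝ → ℂ} (hf : KK a f) (hg : Hd a g) (h : ∀ w, TT f w = TT g w) : KK a g := by
  refine ⟨hg, ?_⟩
  rw [← hf.2]
  refine bq_congr _ fun w => ?_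
  unfold GG
  rw [h, h]

/-- division by a zero off the line -/
lemma KK.div_off {a : ℝ} (ha : 0 < a) {f : ℝ → ℂ} (hf : KK a f) {w0 : ℂ} (hw0 : w0.re ≠ 0) (h0 : TT f w0 = 0) :
    ∃ g : ℝ → ℂ, KK a g ∧ ∀ w, (w - w0) * TT g w = TT f w := by
  obtain ⟨g, hg, h1, _⟩ := hf.1.div ha w0 h0
  -- the Blaschke transform
  set b : ℂ := ((2 * w0.re : ℝ) : ℂ) with hb
  have hb0 : b ≠ 0 := by
    rw [hb, Complex.ofReal_ne_zero]
    exact mul_ne_zero two_ne_zero hw0
  have hbc : b = w0 + conj w0 := by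
    rw [hb, Complex.add_conj]
  set h : ℝ → ℂ := fun x => f x + b * g x with hh
  have hhH : Hd a h := hf.1.add (hg.smul b)
  have hT : ∀ w, TT h w = (w + conj w0) * TT g w := by
    intro w
    rw [hh, TT_add hf.1.1 (hg.smul b).1, TT_smul, ← h1, hbc]
    ring
  have hK : KK a h := by
    refine ⟨hhH, ?_⟩
    rw [← hf.2]
    refine bq_congr _ fun w => ?_
    unfold GG
    rw [hT, hT, ← h1, ← h1, map_mul, map_mul]
    simp only [map_add, map_sub, map_neg, Complex.conj_conj]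
    ring
  refine ⟨g, ?_, h1⟩
  have h2 := (hK.sub ha hf).smul b⁻¹
  refine h2.congr hg fun w => ?_
  rw [TT_smul, TT_sub hhH.1 hf.1.1, hT, ← h1]
  have e : (w + conj w0) * TT g w - (w - w0) * TT g w = b * TT g w := by rw [hbc]; ring
  rw [e, ← mul_assoc, inv_mul_cancel₀ hb0, one_mul]

/-- repeated division -/
lemma KK.div_pow {a : ℝ} (ha : 0 < a) {w1 : ℂ} (hw1 : w1.re ≠ 0) (j : ℕ) : ∀ {f : ℝ → ℂ}, KK a f →
    (j : ℕ∞) ≤ analyticOrderAt (TT f) w1 → ∃ g : ℝ → ℂ, KK a g ∧ ∀ w, (w - w1) ^ j * TT g w = TT f w := by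
  induction j with
  | zero => intro f hf _; exact ⟨f, hf, fun w => by simp⟩
  | succ j ih =>
    intro f hf hord
    obtain ⟨g, hg, h1⟩ := hf.div_off ha hw1 (order_pos (TT_an hf.1.1 w1) hord)
    have h2 := order_div (TT_an hg.1.1 w1) h1
    rw [h2] at hord
    have h3 : (j : ℕ∞) ≤ analyticOrderAt (TT g) w1 := by
      have h4 : (1 : ℕ∞) + (j : ℕ∞) ≤ 1 + analyticOrderAt (TT g) w1 := by
        rw [add_comm (1 : ℕ∞) (j : ℕ∞)]
        exact_mod_cast hord
      exact (ENat.add_le_add_iff_left (by simp)).1 h4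
    obtain ⟨k, hk, h5⟩ := ih hg h3
    exact ⟨k, hk, fun w => by rw [← h1, ← h5]; ring⟩

/-- the structure of the ground states: data -/
structure GData (a : ℝ) (e : ℝ → ℂ) (N : ℕ) (w1 : ℂ) : Prop where
  mem : KK a e
  off : w1.re ≠ 0
  nz : TT e w1 ≠ 0
  pow : ∀ j : ℕ, j ≤ N → ∃ g : ℝ → ℂ, KK a g ∧ ∀ w, TT g w = (w - w1) ^ j * TT e w
  max : ∀ f : ℝ → ℂ, KK a f → ((N + 1 : ℕ) : ℕ∞) ≤ analyticOrderAt (TT f) w1 → NH f = 0

lemma exists_data {a : ℝ} (ha : 0 < a) : ∃ (e : ℝ → ℂ) (N : ℕ) (w1 : ℂ), GData a e N w1 := by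
  classical
  obtain ⟨f0, hf0, hN0⟩ := exists_ground ha
  -- a point off the line where the transform does not vanish
  obtain ⟨w1, hw1, hf1⟩ : ∃ w1 : ℂ, w1.re ≠ 0 ∧ TT f0 w1 ≠ 0 := by
    by_contra hcon
    push Not at hcon
    have h1 : ∀ w, TT f0 w = 0 := by
      intro w
      have hd : Dense {w : ℂ | w.re ≠ 0} := by
        have h2 : Dense ({0}ᶜ : Set ℝ) := dense_compl_singleton 0
        have h3 : IsOpenMap Complex.re := Complex.isOpenMap_re
        exact h2.preimage h3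
      have hc : IsClosed {w : ℂ | TT f0 w = 0} :=
        isClosed_eq (differentiable_TT hf0.1.1).continuous continuous_const
      have h4 : {w : ℂ | w.re ≠ 0} ⊆ {w : ℂ | TT f0 w = 0} := fun w hw => hcon w hw
      have h5 := closure_minimal h4 hc
      rw [hd.closure_eq] at h5
      exact h5 (mem_univ w)
    rw [NH_zero_of_TT h1] at hN0
    exact lt_irrefl _ hN0
  set P : ℕ → Prop := fun n => ∃ f : ℝ → ℂ, KK a f ∧ NH f ≠ 0 ∧ (n : ℕ∞) ≤ analyticOrderAt (TT f) w1 with hP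
  have hP0 : P 0 := ⟨f0, hf0, hN0.ne', by simp⟩
  have hex : ∃ n, ¬ P n := by
    obtain ⟨N, hN⟩ := order_bound ha w1
    exact ⟨N, fun ⟨f, hf, hf2, hf3⟩ => absurd (hN f hf hf2) (not_lt.2 hf3)⟩
  set n0 := Nat.find hex with hn0
  have hn1 : ¬ P n0 := Nat.find_spec hex
  have hn2 : n0 ≠ 0 := by
    intro h
    rw [h] at hn1
    exact hn1 hP0
  obtain ⟨M, hM⟩ := Nat.exists_eq_succ_of_ne_zero hn2
  have hPM : P M := by
    by_contra h
    have := Nat.find_min' hex h
    omega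
  obtain ⟨f, hf, hfN, hford⟩ := hPM
  have hmax : ∀ g : ℝ → ℂ, KK a g → ((M + 1 : ℕ) : ℕ∞) ≤ analyticOrderAt (TT g) w1 → NH g = 0 := by
    intro g hg hg2
    by_contra h
    refine hn1 ⟨g, hg, h, ?_⟩
    rw [hM]
    exact hg2
  obtain ⟨e, he, hee⟩ := hf.div_pow ha hw1 M hford
  have hnz : TT e w1 ≠ 0 := by
    intro h0
    obtain ⟨g, hg, h1⟩ := he.div_off ha hw1 h0
    apply hfN
    refine hmax f hf ?_
    rw [natCast_le_analyticOrderAt (TT_an hf.1.1 w1)]
    refine ⟨TT g, TT_an hg.1.1 w1, Eventually.of_forall fun w => ?_⟩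
    rw [← hee, ← h1, smul_eq_mul, pow_succ]
    ring
  refine ⟨e, M, w1, ⟨he, hw1, hnz, fun j hj => ?_, hmax⟩⟩
  obtain ⟨g, hg, h1⟩ := hf.div_pow ha hw1 (M - j) (le_trans (by exact_mod_cast Nat.sub_le M j) hford)
  refine ⟨g, hg, fun w => ?_⟩
  have h2 : ∀ w, (fun w => TT g w - (w - w1) ^ j * TT e w) w * ((w - w1) ^ (M - j)) = 0 := by
    intro w
    have h3 := h1 w
    have h4 := hee w
    have h5 : (w - w1) ^ M = (w - w1) ^ (M - j) * (w - w1) ^ j := by
      rw [← pow_add]; congr 1; omega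
    rw [h5] at h4
    simp only
    linear_combination h3 - h4
  have h3 := entire_mul_zero (r := fun w => TT g w - (w - w1) ^ j * TT e w) (E := fun w => (w - w1) ^ (M - j))
    ((differentiable_TT hg.1.1).sub (Differentiable.mul (by fun_prop) (differentiable_TT he.1.1))) (by fun_prop)
    (w1 := w1 + 1) (by simp) h2 w
  exact sub_eq_zero.1 h3

/-- combinations are ground states -/
lemma GData.comb {a : ℝ} (ha : 0 < a) {e : ℝ → ℂ} {N : ℕ} {w1 : ℂ} (h : GData a e N w1) (c : ℕ → ℂ) (n : ℕ) (hn : n ≤ N + 1) :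
    ∃ g : ℝ → ℂ, KK a g ∧ ∀ w, TT g w = (∑ i ∈ Finset.range n, c i * (w - w1) ^ i) * TT e w := by
  induction n with
  | zero =>
    refine ⟨fun x => 0 * e x, h.mem.smul 0, fun w => ?_⟩
    rw [TT_smul]; simp
  | succ n ih =>
    obtain ⟨g, hg, h1⟩ := ih (by omega)
    obtain ⟨k, hk, h2⟩ := h.pow n (by omega)
    refine ⟨fun x => g x + c n * k x, hg.add ha (hk.smul (c n)), fun w => ?_⟩
    rw [TT_add hg.1.1 (hk.1.1.smul (c n)), TT_smul, h1, h2, Finset.sum_range_succ]
    ring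

lemma GData.poly {a : ℝ} (ha : 0 < a) {e : ℝ → ℂ} {N : ℕ} {w1 : ℂ} (h : GData a e N w1) (p : Polynomial ℂ)
    (hp : p.natDegree ≤ N) : ∃ g : ℝ → ℂ, KK a g ∧ ∀ w, TT g w = p.eval w * TT e w := by
  obtain ⟨g, hg, h1⟩ := h.comb ha (fun i => (Polynomial.taylor w1 p).coeff i) (N + 1) le_rfl
  refine ⟨g, hg, fun w => ?_⟩
  rw [h1]
  congr 1
  have h2 : p.eval w = (Polynomial.taylor w1 p).eval (w - w1) := by
    rw [Polynomial.taylor_eval, sub_add_cancel]
  rw [h2, Polynomial.eval_eq_sum_range' (n := N + 1)]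
  rw [Polynomial.natDegree_taylor]
  omega

/-- every ground state is a polynomial multiple -/
lemma GData.all {a : ℝ} (ha : 0 < a) {e : ℝ → ℂ} {N : ℕ} {w1 : ℂ} (h : GData a e N w1) {f : ℝ → ℂ} (hf : KK a f) :
    ∃ p : Polynomial ℂ, p.natDegree ≤ N ∧ ∀ w, TT f w = p.eval w * TT e w := by
  have key : ∀ n : ℕ, ∃ c : ℕ → ℂ, ∃ g : ℝ → ℂ, KK a g ∧
      ∀ w, TT f w = (∑ i ∈ Finset.range n, c i * (w - w1) ^ i) * TT e w + (w - w1) ^ n * TT g w := by
    intro n
    induction n with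
    | zero => exact ⟨fun _ => 0, f, hf, fun w => by simp⟩
    | succ n ih =>
      obtain ⟨c, g, hg, h1⟩ := ih
      set c0 := TT g w1 / TT e w1 with hc0
      have h2 : KK a (fun x => g x - c0 * e x) := hg.sub ha (h.mem.smul c0)
      have h3 : ∀ w, TT (fun x => g x - c0 * e x) w = TT g w - c0 * TT e w := fun w => by
        rw [TT_sub hg.1.1 (h.mem.1.1.smul c0), TT_smul]
      have h4 : TT (fun x => g x - c0 * e x) w1 = 0 := by
        rw [h3, hc0, div_mul_cancel₀ _ h.nz, sub_self]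
      obtain ⟨k, hk, h5⟩ := h2.div_off ha h.off h4
      refine ⟨fun i => if i = n then c0 else c i, k, hk, fun w => ?_⟩
      have h6 : ∑ i ∈ Finset.range (n + 1), (if i = n then c0 else c i) * (w - w1) ^ i =
          (∑ i ∈ Finset.range n, c i * (w - w1) ^ i) + c0 * (w - w1) ^ n := by
        rw [Finset.sum_range_succ, if_pos rfl]
        congr 1
        refine Finset.sum_congr rfl fun i hi => ?_
        rw [Finset.mem_range] at hi
        rw [if_neg (by omega)]
      rw [h6, h1, pow_succ]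
      have h7 := h5 w
      rw [h3] at h7
      linear_combination (-(w - w1) ^ n) * h7
  obtain ⟨c, g, hg, h1⟩ := key (N + 1)
  obtain ⟨k, hk, h2⟩ := h.comb ha c (N + 1) le_rfl
  have h3 : KK a (fun x => f x - k x) := hf.sub ha hk
  have h4 : ∀ w, TT (fun x => f x - k x) w = (w - w1) ^ (N + 1) * TT g w := fun w => by
    rw [TT_sub hf.1.1 hk.1.1, h1, h2]; ring
  have h5 : NH (fun x => f x - k x) = 0 := by
    refine h.max _ h3 ?_
    rw [natCast_le_analyticOrderAt (TT_an h3.1.1 w1)]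
    exact ⟨TT g, TT_an hg.1.1 w1, Eventually.of_forall fun w => by rw [h4, smul_eq_mul]⟩
  have h6 : ∀ w, TT f w = TT k w := fun w => by
    have := TT_zero_of_NH h3.1.1 h5 w
    rw [TT_sub hf.1.1 hk.1.1] at this
    exact sub_eq_zero.1 this
  refine ⟨∑ i ∈ Finset.range (N + 1), Polynomial.C (c i) * (Polynomial.X - Polynomial.C w1) ^ i, ?_, fun w => ?_⟩
  · refine Polynomial.natDegree_sum_le_of_forall_le _ _ fun i hi => ?_
    rw [Finset.mem_range] at hi
    refine (Polynomial.natDegree_C_mul_le _ _).trans ?_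
    refine (Polynomial.natDegree_pow_le).trans ?_
    rw [Polynomial.natDegree_X_sub_C]
    omega
  · rw [h6, h2, Polynomial.eval_finsetSum]
    congr 1
    refine Finset.sum_congr rfl fun i _ => ?_
    simp

/-- the generator is not divisible in the kernel -/
lemma GData.no_div {a : ℝ} (ha : 0 < a) {e : ℝ → ℂ} {N : ℕ} {w1 : ℂ} (h : GData a e N w1) {w0 : ℂ} {g : ℝ → ℂ}
    (hg : KK a g) (h1 : ∀ w, (w - w0) * TT g w = TT e w) : False := by
  obtain ⟨p, _, hp⟩ := h.all ha hg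
  have h2 : ∀ w, (fun w => (w - w0) * p.eval w - 1) w * TT e w = 0 := by
    intro w
    have h3 := h1 w
    rw [hp] at h3
    simp only
    linear_combination h3
  have h3 := entire_mul_zero (r := fun w => (w - w0) * p.eval w - 1)
    ((Differentiable.mul (by fun_prop) (poly_diff p)).sub_const 1) (differentiable_TT h.mem.1.1) h.nz h2 w0
  simp at h3

/-- the zeros of the generator lie on the line -/
lemma GData.line {a : ℝ} (ha : 0 < a) {e : ℝ → ℂ} {N : ℕ} {w1 : ℂ} (h : GData a e N w1) {w0 : ℂ}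
    (h0 : TT e w0 = 0) : w0.re = 0 := by
  by_contra hre
  obtain ⟨g, hg, h1⟩ := h.mem.div_off ha hre h0
  exact h.no_div ha hg h1

/-- the zeros of the generator are simple -/
lemma GData.simple {a : ℝ} (ha : 0 < a) {e : ℝ → ℂ} {N : ℕ} {w1 : ℂ} (h : GData a e N w1) {w0 : ℂ}
    (h0 : TT e w0 = 0) : deriv (TT e) w0 ≠ 0 := by
  intro hder
  have hre := h.line ha h0
  obtain ⟨g, hg, h1, _⟩ := h.mem.1.div ha w0 h0
  have h2 : TT g w0 = 0 := by
    have h3 : HasDerivAt (TT e) (TT g w0) w0 := by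
      have h4 : HasDerivAt (fun w => (w - w0) * TT g w) (1 * TT g w0 + (w0 - w0) * deriv (TT g) w0) w0 :=
        ((hasDerivAt_id w0).sub_const w0).mul ((differentiable_TT hg.1).differentiableAt.hasDerivAt)
      rw [one_mul, sub_self, zero_mul, add_zero] at h4
      have e1 : (fun w => (w - w0) * TT g w) = TT e := by funext w; exact h1 w
      rwa [e1] at h4
    rw [← h3.deriv, hder]
  obtain ⟨z, hz, h3, _⟩ := hg.div ha w0 h2
  have hpos : ∀ f, Hd a f → 0 ≤ bq (GM a) f := fun f hf => bq_nonneg ha hf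
  have h4 := BB_skew (GM a) hre hg.1 hz.1 h.mem.1.1 hg.1 (fun w => (h1 w).symm) (fun w => (h3 w).symm)
  rw [BB_ker ha hpos h.mem.1 hz h.mem.2, BB_self ha _ hg] at h4
  have h5 : bq (GM a) g = 0 := by
    have : (bq (GM a) g : ℂ) = 0 := by linear_combination h4
    exact_mod_cast this
  exact h.no_div ha ⟨hg, h5⟩ h1

end Pool.Agent.Y23.G.CB
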