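import Pool.Agent.Run7.h336.CB.B4

set_option autoImplicit false
set_option linter.unusedSectionVars false
set_option maxHeartbeats 2000000

open Complex Filter Topology Set MeasureTheory
open scoped ComplexConjugate

namespace Pool.Agent.Y23.G.CB

variable [K : Win] [DZ : ZD] [EC : ZC]

lemma NH_sh (f : ℝ → ℂ) : NH (sh' f) = NH f := by
  unfold NH
  refine integral_congr_ae (Eventually.of_forall fun t => ?_)
  simp only
  rw [TT_sh, RCLike.norm_conj, line_neg_conj]

lemma KK.sh {a : ℝ} {f : ℝ → ℂ} (hf : KK a f) : KK a (sh' f) := by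
  refine ⟨Hd_sh hf.1, ?_⟩
  have := hf.2
  unfold bq at this ⊢
  rw [QQ_sh, NH_sh, this]

/-- the reflection of the generator is a multiple of the generator -/
lemma GData.conj_mul {a : ℝ} (ha : 0 < a) {e : ℝ → ℂ} {N : ℕ} {w1 : ℂ} (h : GData a e N w1) :
    ∃ c : ℂ, c ≠ 0 ∧ ∀ w, conj (TT e (-conj w)) = c * TT e w := by
  obtain ⟨p, _, hp⟩ := h.all ha h.mem.sh
  have h1 : ∀ w, conj (TT e (-conj w)) = p.eval w * TT e w := fun w => by rw [← TT_sh, hp]
  have h2 : ∀ w, TT e w = ((p.map (starRingEnd ℂ)).comp (-Polynomial.X)).eval w * conj (TT e (-conj w)) := by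
    intro w
    have h3 := congrArg (starRingEnd ℂ) (h1 (-conj w))
    have e0 : -conj (-conj w) = w := by rw [map_neg, Complex.conj_conj, neg_neg]
    rw [e0, Complex.conj_conj, map_mul] at h3
    rw [h3]
    congr 1
    have h4 := Polynomial.eval_map_apply (f := starRingEnd ℂ) (p := p) (-conj w)
    rw [← h4, Polynomial.eval_comp, Polynomial.eval_neg, Polynomial.eval_X, map_neg, Complex.conj_conj]
  have h3 := poly_one (r := (p.map (starRingEnd ℂ)).comp (-Polynomial.X) * p) (differentiable_TT h.mem.1.1) h.nz (fun w => by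
    rw [Polynomial.eval_mul, mul_assoc, ← h1, ← h2])
  obtain ⟨c, hc, hc0⟩ := poly_const h3
  refine ⟨c, hc0, fun w => ?_⟩
  rw [h1, hc, Polynomial.eval_C]

lemma GData.smul {a : ℝ} {e : ℝ → ℂ} {N : ℕ} {w1 : ℂ} (h : GData a e N w1) {c : ℂ} (hc : c ≠ 0) :
    GData a (fun x => c * e x) N w1 := by
  refine ⟨h.mem.smul c, h.off, ?_, fun j hj => ?_, h.max⟩
  · rw [TT_smul]; exact mul_ne_zero hc h.nz
  · obtain ⟨g, hg, h1⟩ := h.pow j hj
    refine ⟨fun x => c * g x, hg.smul c, fun w => ?_⟩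
    rw [TT_smul, TT_smul, h1]; ring

/-- a real generator -/
lemma exists_real_data {a : ℝ} (ha : 0 < a) : ∃ (e : ℝ → ℂ) (N : ℕ) (w1 : ℂ), GData a e N w1 ∧
    ∀ w, TT e (-conj w) = conj (TT e w) := by
  obtain ⟨e, N, w1, h⟩ := exists_data ha
  obtain ⟨c, hc0, hc⟩ := h.conj_mul ha
  by_cases h1 : c = -1
  · refine ⟨fun x => I * e x, N, w1, h.smul I_ne_zero, fun w => ?_⟩
    have h2 := hc w
    rw [h1] at h2
    have h3 : TT e (-conj w) = -conj (TT e w) := by
      have := congrArg (starRingEnd ℂ) h2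
      rw [Complex.conj_conj, map_mul, map_neg, map_one] at this
      rw [this]; ring
    rw [TT_smul, TT_smul, map_mul, Complex.conj_I, h3]
    ring
  · have h2 : 1 + c ≠ 0 := by
      intro h3
      exact h1 (by linear_combination h3)
    refine ⟨fun x => (1 + c) * e x, N, w1, h.smul h2, fun w => ?_⟩
    have h3 : ∀ w, TT (fun x => (1 + c) * e x) w = TT e w + conj (TT e (-conj w)) := by
      intro w
      rw [TT_smul, hc]; ring
    have e0 : -conj (-conj w) = w := by rw [map_neg, Complex.conj_conj, neg_neg]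
    rw [h3, h3, map_add, e0, Complex.conj_conj, add_comm]

/-- the structure theorem -/
theorem structure_thm {a : ℝ} (ha : 0 < a) : ∃ (e : ℝ → ℂ) (N : ℕ), KK a e ∧ NH e ≠ 0 ∧
    (∀ w, TT e (-conj w) = conj (TT e w)) ∧
    (∀ w, TT e w = 0 → w.re = 0 ∧ deriv (TT e) w ≠ 0) ∧
    (∀ f, Hd a f → (KK a f ↔ ∃ p : Polynomial ℂ, p.natDegree ≤ N ∧ ∀ w, TT f w = p.eval w * TT e w)) := by
  obtain ⟨e, N, w1, h, hreal⟩ := exists_real_data ha
  refine ⟨e, N, h.mem, fun h0 => h.nz (TT_zero_of_NH h.mem.1.1 h0 w1), hreal,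
    fun w hw => ⟨h.line ha hw, h.simple ha hw⟩, fun f hf => ⟨fun hK => h.all ha hK, ?_⟩⟩
  rintro ⟨p, hp, h1⟩
  obtain ⟨g, hg, h2⟩ := h.poly ha p hp
  exact hg.congr hf fun w => by rw [h1, h2]

end Pool.Agent.Y23.G.CB
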