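import Pool.Agent.Run7.h336.CB.B6

/-! # Replacing zeros -/

set_option autoImplicit false
set_option linter.unusedSectionVars false
set_option maxHeartbeats 2000000

open Complex Filter Topology Set MeasureTheory
open scoped ComplexConjugate

namespace Pool.Agent.Y23.G.CB

/-- replacing zeros of a transform -/
theorem swap {a : ℝ} (ha : 0 < a) {f : ℝ → ℂ} (hf : Hd a f) (Z : Finset ℂ) : ∀ B : Finset ℂ,
    (∀ z ∈ Z, TT f z = 0) → B.card ≤ Z.card →
    ∃ g : ℝ → ℂ, Hd a g ∧ ∀ w, (∏ z ∈ Z, (w - z)) * TT g w = (∏ b ∈ B, (w - b)) * TT f w := by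
  classical
  induction Z using Finset.induction_on with
  | empty =>
    intro B _ hB
    have : B = ∅ := Finset.card_eq_zero.1 (Nat.le_zero.1 (by simpa using hB))
    subst this
    exact ⟨f, hf, fun w => by simp⟩
  | insert z0 Z hz0 ih =>
    intro B hZ hB
    rw [Finset.card_insert_of_notMem hz0] at hB
    have hZ' : ∀ z ∈ Z, TT f z = 0 := fun z hz => hZ z (Finset.mem_insert_of_mem hz)
    -- the zero z0 persists
    have key : ∀ B' : Finset ℂ, ∀ g : ℝ → ℂ, Hd a g →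
        (∀ w, (∏ z ∈ Z, (w - z)) * TT g w = (∏ b ∈ B', (w - b)) * TT f w) → TT g z0 = 0 := by
      intro B' g _ h
      have h1 := h z0
      rw [hZ z0 (Finset.mem_insert_self _ _), mul_zero] at h1
      rcases mul_eq_zero.1 h1 with h2 | h2
      · rw [Finset.prod_eq_zero_iff] at h2
        obtain ⟨z, hz, h3⟩ := h2
        rw [sub_eq_zero] at h3
        rw [h3] at hz0
        exact absurd hz hz0
      · exact h2
    rcases Nat.lt_or_ge Z.card B.card with hlt | hle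
    · -- B has one more element
      obtain ⟨b0, hb0⟩ : B.Nonempty := Finset.card_pos.1 (by omega)
      obtain ⟨g, hg, h⟩ := ih (B.erase b0) hZ' (by rw [Finset.card_erase_of_mem hb0]; omega)
      have hg0 := key _ g hg h
      obtain ⟨k, hk, hk1, _⟩ := hg.div ha z0 hg0
      refine ⟨fun x => g x + (z0 - b0) * k x, hg.add (hk.smul _), fun w => ?_⟩
      rw [TT_add hg.1 (hk.smul _).1, TT_smul, Finset.prod_insert hz0, ← Finset.mul_prod_erase B _ hb0]
      have h1 := h w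
      have h2 := hk1 w
      have e : (w - z0) * (TT g w + (z0 - b0) * TT k w) = (w - b0) * TT g w := by
        rw [← h2]; ring
      calc (w - z0) * (∏ z ∈ Z, (w - z)) * (TT g w + (z0 - b0) * TT k w)
          = (∏ z ∈ Z, (w - z)) * ((w - z0) * (TT g w + (z0 - b0) * TT k w)) := by ring
        _ = (w - b0) * ((∏ z ∈ Z, (w - z)) * TT g w) := by rw [e]; ring
        _ = _ := by rw [h1]; ring
    · obtain ⟨g, hg, h⟩ := ih B hZ' hle
      obtain ⟨k, hk, hk1, _⟩ := hg.div ha z0 (key _ g hg h)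
      refine ⟨k, hk, fun w => ?_⟩
      rw [Finset.prod_insert hz0, ← h w, ← hk1 w]
      ring

/-- the new function vanishes at the new zeros -/
theorem swap_zero {F G : ℂ → ℂ} (hF : Continuous F) (hG : Continuous G) {Z B : Finset ℂ}
    (hZ : ∀ z ∈ Z, F z = 0)
    (h : ∀ w, (∏ z ∈ Z, (w - z)) * G w = (∏ b ∈ B, (w - b)) * F w) {b : ℂ} (hb : b ∈ B) :
    G b = 0 := by
  classical
  by_cases hbZ : b ∈ Z
  · have hFb : F b = 0 := hZ b hbZ
    have h1 : ∀ w, w ≠ b → (∏ z ∈ Z.erase b, (w - z)) * G w = (∏ b' ∈ B.erase b, (w - b')) * F w := by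
      intro w hw
      have h2 := h w
      rw [← Finset.mul_prod_erase Z _ hbZ, ← Finset.mul_prod_erase B _ hb, mul_assoc, mul_assoc] at h2
      exact mul_left_cancel₀ (sub_ne_zero.2 hw) h2
    have h2 : (fun w => (∏ z ∈ Z.erase b, (w - z)) * G w) = fun w => (∏ b' ∈ B.erase b, (w - b')) * F w := by
      refine Continuous.ext_on (dense_compl_singleton b) ?_ ?_ fun w hw => h1 w hw
      · exact (continuous_finsetProd _ fun _ _ => by fun_prop).mul hG
      · exact (continuous_finsetProd _ fun _ _ => by fun_prop).mul hF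
    have h3 := congrFun h2 b
    simp only at h3
    rw [hFb, mul_zero] at h3
    rcases mul_eq_zero.1 h3 with h4 | h4
    · rw [Finset.prod_eq_zero_iff] at h4
      obtain ⟨z, hz, h5⟩ := h4
      rw [sub_eq_zero] at h5
      exact absurd h5.symm (Finset.ne_of_mem_erase hz)
    · exact h4
  · have h1 := h b
    rw [Finset.prod_eq_zero hb (sub_self b), zero_mul] at h1
    rcases mul_eq_zero.1 h1 with h4 | h4
    · rw [Finset.prod_eq_zero_iff] at h4
      obtain ⟨z, hz, h5⟩ := h4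
      rw [sub_eq_zero] at h5
      rw [h5] at hbZ
      exact absurd hz hbZ
    · exact h4

variable [K : Win] [DZ : ZD] [EC : ZC]

lemma QQ_SS (hRH : ∀ ρ : Zt, (ρ : ℂ).re = 1 / 2) (f : ℝ → ℂ) : QQ f = SS f := by
  unfold QQ SS
  refine tsum_congr fun ρ => ?_
  have h1 : -conj ((ρ : ℂ) - 1 / 2) = (ρ : ℂ) - 1 / 2 := by
    apply Complex.ext
    · simp [hRH ρ]
    · simp
  unfold GG
  rw [h1, Complex.mul_conj, Complex.ofReal_re, Complex.normSq_eq_norm_sq]

lemma GM_nonneg (hRH : ∀ ρ : Zt, (ρ : ℂ).re = 1 / 2) (a : ℝ) : 0 ≤ GM a := by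
  refine Real.sInf_nonneg ?_
  rintro r ⟨f, _, _, rfl⟩
  rw [QQ_SS hRH]
  exact SS_nonneg f

/-- comparison with the minimum -/
theorem compare (hRH : ∀ ρ : Zt, (ρ : ℂ).re = 1 / 2) {a : ℝ} (ha : 0 < a) {e g : ℝ → ℂ} (he : KK a e) (hg : Hd a g)
    {q c : ℝ} (hq : 0 ≤ q) (h1 : ∀ ρ : Zt, ‖TT g ((ρ : ℂ) - 1 / 2)‖ ^ 2 ≤ q * ‖TT e ((ρ : ℂ) - 1 / 2)‖ ^ 2)
    (h2 : c * NH e ≤ NH g) : GM a * (c * NH e) ≤ q * (GM a * NH e) := by
  have h3 := bq_nonneg ha hg
  have h4 := he.2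
  unfold bq at h3 h4
  rw [QQ_SS hRH] at h3 h4
  have h5 : SS g ≤ q * SS e := by
    unfold SS
    rw [← tsum_mul_left]
    refine (hg.dom ha).tsum_le_tsum (fun ρ => ?_) ((he.1.dom ha).mul_left q)
    calc (mu ρ : ℝ) * ‖TT g ((ρ : ℂ) - 1 / 2)‖ ^ 2 ≤ (mu ρ : ℝ) * (q * ‖TT e ((ρ : ℂ) - 1 / 2)‖ ^ 2) :=
          mul_le_mul_of_nonneg_left (h1 ρ) (Nat.cast_nonneg _)
      _ = _ := by ring
  have h6 := mul_le_mul_of_nonneg_left h2 (GM_nonneg hRH a)
  have h7 : SS e = GM a * NH e := by linarith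
  rw [h7] at h5
  linarith

/-- if the minimum is zero then the zeros of the generator are zeros -/
theorem zero_case (hRH : ∀ ρ : Zt, (ρ : ℂ).re = 1 / 2) {a : ℝ} (ha : 0 < a) (h0 : GM a = 0) {e : ℝ → ℂ} {N : ℕ} {w1 : ℂ}
    (h : GData a e N w1) :
    (∀ ρ : Zt, TT e ((ρ : ℂ) - 1 / 2) = 0) ∧ ∀ z, TT e z = 0 → ∃ ρ : Zt, z = (ρ : ℂ) - 1 / 2 := by
  have hS : ∀ f : ℝ → ℂ, Hd a f → (bq (GM a) f = 0 ↔ ∀ ρ : Zt, TT f ((ρ : ℂ) - 1 / 2) = 0) := by
    intro f hf
    have e1 : bq (GM a) f = SS f := by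
      unfold bq
      rw [QQ_SS hRH, h0]; ring
    rw [e1]
    have hd : Summable fun ρ : Zt => (mu ρ : ℝ) * ‖TT f ((ρ : ℂ) - 1 / 2)‖ ^ 2 := hf.dom ha
    constructor
    · intro h1 ρ
      have h0s := hd.hasSum
      have h1' : ∑' ρ : Zt, (mu ρ : ℝ) * ‖TT f ((ρ : ℂ) - 1 / 2)‖ ^ 2 = 0 := h1
      rw [h1'] at h0s
      have h2 := (hasSum_zero_iff_of_nonneg (f := fun ρ : Zt => (mu ρ : ℝ) * ‖TT f ((ρ : ℂ) - 1 / 2)‖ ^ 2)
        (fun ρ => by positivity)).1 h0s
      have h3 := congrFun h2 ρ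
      simp only [Pi.zero_apply] at h3
      have h4 : (1 : ℝ) ≤ mu ρ := by
        have : 1 ≤ mu ρ := DZ.mpos _ ρ.2
        exact_mod_cast this
      rcases mul_eq_zero.1 h3 with h5 | h5
      · linarith
      · exact norm_eq_zero.1 (pow_eq_zero_iff two_ne_zero |>.1 h5)
    · intro h1
      unfold SS
      simp only [h1, norm_zero, ne_eq, OfNat.ofNat_ne_zero, not_false_eq_true, zero_pow, mul_zero, tsum_zero]
  have h1 := (hS e h.mem.1).1 h.mem.2
  refine ⟨h1, fun z hz => ?_⟩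
  by_contra hcon
  push Not at hcon
  obtain ⟨g, hg, h2, _⟩ := h.mem.1.div ha z hz
  refine h.no_div ha ⟨hg, (hS g hg).2 fun ρ => ?_⟩ h2
  have h3 := h2 ((ρ : ℂ) - 1 / 2)
  rw [h1 ρ] at h3
  rcases mul_eq_zero.1 h3 with h4 | h4
  · exact absurd (sub_eq_zero.1 h4).symm (hcon ρ)
  · exact h4

end Pool.Agent.Y23.G.CB
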