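import Pool.Agent.Run7.h336.CB.B7

/-! # The zeros of the generator match the zeros -/

set_option autoImplicit false
set_option linter.unusedSectionVars false
set_option maxHeartbeats 2000000

open Complex Filter Topology Set MeasureTheory Metric
open scoped ComplexConjugate

namespace Pool.Agent.Y23.G.CB

lemma fin_min {α : Type*} (s : Finset α) (φ : α → ℝ) (h : ∀ x ∈ s, 0 < φ x) : ∃ d : ℝ, 0 < d ∧ ∀ x ∈ s, d ≤ φ x := by
  classical
  rcases s.eq_empty_or_nonempty with rfl | hne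
  · exact ⟨1, one_pos, fun x hx => absurd hx (Finset.notMem_empty x)⟩
  · obtain ⟨x, hx, hmin⟩ := s.exists_min_image φ hne
    exact ⟨φ x, h x hx, hmin⟩

lemma fin_max {α : Type*} (s : Finset α) (φ : α → ℝ) : ∃ d : ℝ, 0 < d ∧ ∀ x ∈ s, φ x ≤ d := by
  classical
  rcases s.eq_empty_or_nonempty with rfl | hne
  · exact ⟨1, one_pos, fun x hx => absurd hx (Finset.notMem_empty x)⟩
  · obtain ⟨x, hx, hmax⟩ := s.exists_max_image φ hne
    exact ⟨max 1 (φ x), lt_max_of_lt_left one_pos, fun y hy => (hmax y hy).trans (le_max_right _ _)⟩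

/-- a product over displaced points -/
lemma prod_close {B : Finset ℂ} {ζ : ℂ → ℂ} {w : ℂ} {d x : ℝ} (hd : 0 < d) (hx0 : 0 ≤ x) (hx1 : x ≤ 1)
    (hx : B.card * x ≤ 1 / 5) (h1 : ∀ b ∈ B, d ≤ ‖w - b‖) (h2 : ∀ b ∈ B, ‖ζ b - b‖ ≤ x / 2 * d) :
    4 / 5 * ∏ b ∈ B, ‖w - ζ b‖ ≤ ∏ b ∈ B, ‖w - b‖ ∧ ∏ b ∈ B, ‖w - b‖ ≤ 5 / 4 * ∏ b ∈ B, ‖w - ζ b‖ := by
  have hl : ∀ b ∈ B, (1 - x) * ‖w - ζ b‖ ≤ ‖w - b‖ := by
    intro b hb
    have h3 := h1 b hb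
    have h4 := h2 b hb
    have h5 : ‖w - ζ b‖ ≤ ‖w - b‖ + ‖ζ b - b‖ := by
      have : w - ζ b = (w - b) - (ζ b - b) := by ring
      rw [this]; exact norm_sub_le _ _
    have h6 : ‖w - ζ b‖ ≤ (1 + x / 2) * ‖w - b‖ := by nlinarith
    have h7 := norm_nonneg (w - b)
    have h8 : (1 - x) * ((1 + x / 2) * ‖w - b‖) ≤ ‖w - b‖ := by
      have h9 : (1 - x) * ((1 + x / 2) * ‖w - b‖) = ‖w - b‖ - (x / 2 + x ^ 2 / 2) * ‖w - b‖ := by ring
      rw [h9]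
      have : 0 ≤ (x / 2 + x ^ 2 / 2) * ‖w - b‖ := by positivity
      linarith
    exact (mul_le_mul_of_nonneg_left h6 (by linarith)).trans h8
  have hu : ∀ b ∈ B, ‖w - b‖ ≤ (1 + x) * ‖w - ζ b‖ := by
    intro b hb
    have h3 := h1 b hb
    have h4 := h2 b hb
    have h5 : ‖w - b‖ ≤ ‖w - ζ b‖ + ‖ζ b - b‖ := by
      have : w - b = (w - ζ b) + (ζ b - b) := by ring
      rw [this]; exact norm_add_le _ _
    have h6 : (1 - x / 2) * ‖w - b‖ ≤ ‖w - ζ b‖ := by nlinarith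
    have h7 := norm_nonneg (w - b)
    have h8 : ‖w - b‖ ≤ (1 + x) * ((1 - x / 2) * ‖w - b‖) := by
      have : (1 + x) * ((1 - x / 2) * ‖w - b‖) = ‖w - b‖ + x / 2 * (1 - x) * ‖w - b‖ := by ring
      rw [this]
      have : 0 ≤ x / 2 * (1 - x) * ‖w - b‖ := by
        have : 0 ≤ 1 - x := by linarith
        positivity
      linarith
    exact h8.trans (mul_le_mul_of_nonneg_left h6 (by linarith))
  have hP : 0 ≤ ∏ b ∈ B, ‖w - ζ b‖ := Finset.prod_nonneg fun b _ => norm_nonneg _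
  constructor
  · have h3 : ∏ b ∈ B, ((1 - x) * ‖w - ζ b‖) ≤ ∏ b ∈ B, ‖w - b‖ :=
      Finset.prod_le_prod (fun b _ => mul_nonneg (by linarith) (norm_nonneg _)) hl
    rw [Finset.prod_mul_distrib, Finset.prod_const] at h3
    refine le_trans (mul_le_mul_of_nonneg_right ?_ hP) h3
    have h4 := one_add_mul_le_pow (a := -x) (by linarith) B.card
    have h5 : (1 : ℝ) + -x = 1 - x := by ring
    rw [h5] at h4
    linarith
  · have h3 : ∏ b ∈ B, ‖w - b‖ ≤ ∏ b ∈ B, ((1 + x) * ‖w - ζ b‖) :=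
      Finset.prod_le_prod (fun b _ => norm_nonneg _) hu
    rw [Finset.prod_mul_distrib, Finset.prod_const] at h3
    refine h3.trans (mul_le_mul_of_nonneg_right ?_ hP)
    have h4 : (1 + x) ^ B.card ≤ Real.exp (B.card * x) := by
      rw [Real.exp_nat_mul]
      refine pow_le_pow_left₀ (by linarith) ?_ _
      have := Real.add_one_le_exp x
      linarith
    have h5 : Real.exp (B.card * x) ≤ Real.exp (1 / 5) := Real.exp_le_exp.2 hx
    have h6 : Real.exp (1 / 5) ≤ 5 / 4 := by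
      have h7 : Real.exp (1 / 5) ^ 5 ≤ (5 / 4) ^ 5 := by
        rw [← Real.exp_nat_mul]
        have : ((5 : ℕ) : ℝ) * (1 / 5) = 1 := by norm_num
        rw [this]
        have := Real.exp_one_lt_d9
        norm_num
        linarith
      exact le_of_pow_le_pow_left₀ (by norm_num) (by norm_num) h7
    linarith

variable [K : Win] [DZ : ZD] [EC : ZC]

/-- the zeros, centred, up to a height -/
def Bs (R : ℝ) : Set ℂ := {b : ℂ | b + 1 / 2 ∈ DZ.Zs ∧ ‖b‖ ≤ R}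

omit K EC in
lemma Bs_finite (R : ℝ) : (Bs R).Finite := by
  classical
  by_contra hinf
  obtain ⟨C, hC, hz⟩ := zsum (D := DZ)
  set M : ℝ := C * Lg 0 * (1 + R ^ 2) with hM
  obtain ⟨n, hn⟩ := exists_nat_gt M
  obtain ⟨S, hS, hcard⟩ := Set.Infinite.exists_subset_card_eq hinf n
  have h1 := hz 0 (S.map (addRightEmbedding (1 / 2 : ℂ))) (by
    intro s hs
    rw [Finset.mem_map] at hs
    obtain ⟨b, hb, rfl⟩ := hs
    exact (hS hb).1)
  rw [Finset.sum_map] at h1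
  have h2 : ∀ b ∈ S, 1 / (1 + R ^ 2) ≤ (mu ((addRightEmbedding (1 / 2 : ℂ)) b) : ℝ) *
      (1 / (1 + (((addRightEmbedding (1 / 2 : ℂ)) b).im - 0) ^ 2)) := by
    intro b hb
    have hb' := hS hb
    have h3 : (1 : ℝ) ≤ mu ((addRightEmbedding (1 / 2 : ℂ)) b) := by
      have : 1 ≤ mu (b + 1 / 2) := DZ.mpos _ hb'.1
      exact_mod_cast this
    have h4 : ((addRightEmbedding (1 / 2 : ℂ)) b).im = b.im := by
      show (b + 1 / 2).im = b.im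
      simp
    rw [h4, sub_zero]
    have h5 : b.im ^ 2 ≤ R ^ 2 := by
      rw [← sq_abs]
      exact pow_le_pow_left₀ (abs_nonneg _) ((Complex.abs_im_le_norm b).trans hb'.2) 2
    have h6 : 1 / (1 + R ^ 2) ≤ 1 / (1 + b.im ^ 2) :=
      one_div_le_one_div_of_le (by positivity) (by linarith)
    have h7 : 0 ≤ 1 / (1 + b.im ^ 2) := by positivity
    nlinarith
  have h3 := Finset.sum_le_sum h2
  rw [Finset.sum_const, hcard, nsmul_eq_mul] at h3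
  have h4 : (n : ℝ) * (1 / (1 + R ^ 2)) ≤ C * Lg 0 := h3.trans h1
  rw [mul_one_div, div_le_iff₀ (by positivity)] at h4
  linarith

/-- the zeros, centred, up to a height -/
noncomputable def Bf (R : ℝ) : Finset ℂ := (Bs_finite (DZ := DZ) R).toFinset

omit K EC in
lemma mem_Bf {R : ℝ} {b : ℂ} : b ∈ Bf R ↔ b + 1 / 2 ∈ DZ.Zs ∧ ‖b‖ ≤ R := by
  unfold Bf
  rw [Set.Finite.mem_toFinset]
  rfl

omit K EC in
lemma Bf_mono {R R' : ℝ} (h : R ≤ R') {b : ℂ} (hb : b ∈ Bf R) : b ∈ Bf R' := by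
  rw [mem_Bf] at hb ⊢
  exact ⟨hb.1, hb.2.trans h⟩

/-- the zeros of the minimisers match the zeros -/
theorem matched' (hRH : ∀ ρ : Zt, (ρ : ℂ).re = 1 / 2) (hwin : ∀ ρ : Zt, (ρ : ℂ).im ∉ wi (K := K))
    (hnear : ∀ b : ℂ, b + 1 / 2 ∈ DZ.Zs → ∀ δ : ℝ, 0 < δ → ∃ a0 : ℝ, ∀ a : ℝ, a0 ≤ a → ∀ e : ℝ → ℂ, KK a e →
      ∃ w, TT e w = 0 ∧ ‖w - b‖ < δ) {R : ℝ} (hR : 0 ≤ R) :
    ∃ δ0 : ℝ, 0 < δ0 ∧ ∀ δ : ℝ, 0 < δ → δ ≤ δ0 → ∃ a0 : ℝ, 0 < a0 ∧ ∀ a : ℝ, a0 ≤ a → ∀ e : ℝ → ℂ,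
      KK a e → (∃ w1, TT e w1 ≠ 0) → (GM a = 0 → ∀ z, TT e z = 0 → ∃ ρ : Zt, z = (ρ : ℂ) - 1 / 2) →
      ∃ ζ : ℂ → ℂ, (∀ b ∈ Bf R, TT e (ζ b) = 0 ∧ ‖ζ b - b‖ < δ) ∧
        (∀ b ∈ Bf R, ∀ b' ∈ Bf R, ζ b = ζ b' → b = b') ∧
        ∀ z, TT e z = 0 → ‖z‖ ≤ R → ∃ b ∈ Bf R, z = ζ b := by
  classical
  have hk := K.pos
  set R0 : ℝ := 3 * R + 2 * K.k + 1 with hR0
  have hRR0 : R ≤ R0 := by rw [hR0]; linarith
  -- the distances
  obtain ⟨d1, hd1, hd1'⟩ := fin_min ((Bf (R0 + 1)).offDiag) (fun p => ‖p.1 - p.2‖) (by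
    intro p hp
    rw [Finset.mem_offDiag] at hp
    exact norm_pos_iff.2 (sub_ne_zero.2 hp.2.2))
  have him : ∀ b ∈ Bf R0, b.im ∉ wi (K := K) := by
    intro b hb
    have h1 := hwin ⟨b + 1 / 2, (mem_Bf.1 hb).1⟩
    simpa using h1
  obtain ⟨d2, hd2, hd2'⟩ := fin_min (Bf R0) (fun b => Dw (K := K) b.im) (fun b hb => Dw_pos (him b hb))
  obtain ⟨d3, hd3, hd3'⟩ := fin_min ((Bf R0).filter fun b => R < ‖b‖) (fun b => ‖b‖ - R) (fun b hb => by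
    have := (Finset.mem_filter.1 hb).2
    linarith)
  set d : ℝ := min 1 (min d1 (min d2 d3)) with hd
  have hd0 : 0 < d := lt_min one_pos (lt_min hd1 (lt_min hd2 hd3))
  have hdd1 : d ≤ d1 := (min_le_right _ _).trans (min_le_left _ _)
  have hdd2 : d ≤ d2 := (min_le_right _ _).trans ((min_le_right _ _).trans (min_le_left _ _))
  have hdd3 : d ≤ d3 := (min_le_right _ _).trans ((min_le_right _ _).trans (min_le_right _ _))
  have hdone : d ≤ 1 := min_le_left _ _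
  -- separation of the zeros
  have hsep : ∀ b ∈ Bf R0, ∀ c : ℂ, c + 1 / 2 ∈ DZ.Zs → c ≠ b → d ≤ ‖c - b‖ := by
    intro b hb c hc hcb
    by_cases hc1 : ‖c‖ ≤ R0 + 1
    · have h1 := hd1' (c, b) (by
        rw [Finset.mem_offDiag]
        exact ⟨mem_Bf.2 ⟨hc, hc1⟩, Bf_mono (by linarith) hb, hcb⟩)
      exact hdd1.trans h1
    · rw [not_le] at hc1
      have h1 := (mem_Bf.1 hb).2
      have h2 := norm_sub_norm_le c b
      linarith
  have hwsep : ∀ b ∈ Bf R0, ∀ t ∈ wi (K := K), d ≤ ‖(t * I : ℂ) - b‖ := by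
    intro b hb t ht
    have h1 := hd2' b hb
    have h2 := Dw_le (y := b.im) ht
    have h3 := Complex.abs_im_le_norm ((t * I : ℂ) - b)
    have h4 : ((t * I : ℂ) - b).im = t - b.im := by simp
    rw [h4, abs_sub_comm] at h3
    linarith
  set n : ℕ := (Bf R0).card with hn
  set x : ℝ := 1 / (5 * ((n : ℝ) + 1)) with hx
  have hx0 : 0 < x := by positivity
  have hnx : (n : ℝ) * x ≤ 1 / 5 := by
    rw [hx, mul_one_div, div_le_div_iff₀ (by positivity) (by norm_num)]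
    linarith
  have hx1 : x ≤ 1 := by
    rw [hx, div_le_one (by positivity)]
    have : (0 : ℝ) ≤ n := Nat.cast_nonneg n
    linarith
  refine ⟨d / 4, by positivity, fun δ hδ hδd => ?_⟩
  set δ' : ℝ := min δ (x / 2 * d) with hδ'
  have hδ'0 : 0 < δ' := lt_min hδ (by positivity)
  have hδ'δ : δ' ≤ δ := min_le_left _ _
  have hδ'x : δ' ≤ x / 2 * d := min_le_right _ _
  have hδ'd : δ' ≤ d / 4 := hδ'δ.trans hδd
  have h1 : ∀ b : ℂ, ∃ a0 : ℝ, b ∈ Bf R0 → ∀ a : ℝ, a0 ≤ a → ∀ e : ℝ → ℂ, KK a e → ∃ w, TT e w = 0 ∧ ‖w - b‖ < δ' := by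
    intro b
    by_cases hb : b ∈ Bf R0
    · obtain ⟨a0, ha0⟩ := hnear b (mem_Bf.1 hb).1 δ' hδ'0
      exact ⟨a0, fun _ => ha0⟩
    · exact ⟨0, fun h => absurd h hb⟩
  choose A hA using h1
  obtain ⟨a0, ha0, hmax⟩ := fin_max (Bf R0) A
  refine ⟨a0, ha0, fun a ha e hG hnz hGz => ?_⟩
  obtain ⟨w1, hw1⟩ := hnz
  have hapos : 0 < a := by linarith
  have h2 : ∀ b : ℂ, ∃ w, b ∈ Bf R0 → TT e w = 0 ∧ ‖w - b‖ < δ' := by
    intro b
    by_cases hb : b ∈ Bf R0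
    · obtain ⟨w, hw⟩ := hA b hb a ((hmax b hb).trans ha) e hG
      exact ⟨w, fun _ => hw⟩
    · exact ⟨0, fun h => absurd h hb⟩
  choose ζ hζ using h2
  have hinj : ∀ b ∈ Bf R0, ∀ b' ∈ Bf R0, ζ b = ζ b' → b = b' := by
    intro b hb b' hb' h
    by_contra hne
    have h3 := hsep b' hb' b (mem_Bf.1 hb).1 hne
    have h4 := (hζ b hb).2
    have h5 := (hζ b' hb').2
    have h6 : ‖b - b'‖ ≤ ‖ζ b - b‖ + ‖ζ b' - b'‖ := by
      have : b - b' = (ζ b' - b') - (ζ b - b) := by rw [h]; ring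
      rw [this]
      refine (norm_sub_le _ _).trans ?_
      linarith
    linarith
  refine ⟨ζ, fun b hb => ⟨(hζ b (Bf_mono hRR0 hb)).1, (hζ b (Bf_mono hRR0 hb)).2.trans_le hδ'δ⟩,
    fun b hb b' hb' => hinj b (Bf_mono hRR0 hb) b' (Bf_mono hRR0 hb'), fun z hz hzR => ?_⟩
  by_cases hex : ∃ b ∈ Bf R0, z = ζ b
  · obtain ⟨b, hb, rfl⟩ := hex
    refine ⟨b, ?_, rfl⟩
    by_contra hbR
    have h3 : R < ‖b‖ := by
      by_contra h4
      exact hbR (mem_Bf.2 ⟨(mem_Bf.1 hb).1, not_lt.1 h4⟩)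
    have h4 := hd3' b (Finset.mem_filter.2 ⟨hb, h3⟩)
    have h5 := (hζ b hb).2
    have h6 : ‖b‖ ≤ ‖ζ b‖ + ‖ζ b - b‖ := by
      have : b = ζ b - (ζ b - b) := by ring
      calc ‖b‖ = ‖ζ b - (ζ b - b)‖ := by rw [← this]
        _ ≤ _ := norm_sub_le _ _
    linarith
  exfalso
  push Not at hex
  have hGM := GM_nonneg hRH (K := K) a
  rcases hGM.eq_or_lt with h0 | h0
  · -- the minimum is zero
    have hzc := hGz h0.symm
    obtain ⟨ρ, hρ⟩ := hzc z hz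
    have hzB : z ∈ Bf R0 := mem_Bf.2 ⟨by rw [hρ, sub_add_cancel]; exact ρ.2, hzR.trans hRR0⟩
    obtain ⟨ρ', hρ'⟩ := hzc (ζ z) (hζ z hzB).1
    have h3 : ζ z ≠ z := fun h => hex z hzB h.symm
    have h4 := hsep z hzB (ζ z) (by rw [hρ', sub_add_cancel]; exact ρ'.2) h3
    have h5 := (hζ z hzB).2
    linarith
  -- the comparison
  set Z : Finset ℂ := insert z ((Bf R0).image ζ) with hZ
  have hznot : z ∉ (Bf R0).image ζ := by
    intro h
    obtain ⟨b, hb, h3⟩ := Finset.mem_image.1 h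
    exact hex b hb h3.symm
  have hcardim : ((Bf R0).image ζ).card = (Bf R0).card :=
    Finset.card_image_of_injOn fun b hb b' hb' h => hinj b hb b' hb' h
  have hZz : ∀ y ∈ Z, TT e y = 0 := by
    intro y hy
    rw [hZ, Finset.mem_insert] at hy
    rcases hy with rfl | hy
    · exact hz
    · obtain ⟨b, hb, rfl⟩ := Finset.mem_image.1 hy
      exact (hζ b hb).1
  obtain ⟨g, hg, hgT⟩ := swap hapos hG.1 Z (Bf R0) hZz (by
    rw [hZ, Finset.card_insert_of_notMem hznot, hcardim]; omega)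
  have hprodZ : ∀ w, ∏ y ∈ Z, (w - y) = (w - z) * ∏ b ∈ Bf R0, (w - ζ b) := by
    intro w
    rw [hZ, Finset.prod_insert hznot, Finset.prod_image fun b hb b' hb' h => hinj b hb b' hb' h]
  have hnormid : ∀ w, ‖w - z‖ * (∏ b ∈ Bf R0, ‖w - ζ b‖) * ‖TT g w‖ = (∏ b ∈ Bf R0, ‖w - b‖) * ‖TT e w‖ := by
    intro w
    have h3 := congrArg norm (hgT w)
    rw [hprodZ, norm_mul, norm_mul, norm_mul, norm_prod, norm_prod] at h3
    exact h3
  have hPpos : ∀ w, (∀ b ∈ Bf R0, d ≤ ‖w - b‖) → 0 < ∏ b ∈ Bf R0, ‖w - ζ b‖ := by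
    intro w hw
    refine Finset.prod_pos fun b hb => ?_
    have h3 := hw b hb
    have h4 := (hζ b hb).2
    have h5 : ‖w - b‖ ≤ ‖w - ζ b‖ + ‖ζ b - b‖ := by
      have : w - b = (w - ζ b) + (ζ b - b) := by ring
      rw [this]; exact norm_add_le _ _
    linarith
  have hclose : ∀ w, (∀ b ∈ Bf R0, d ≤ ‖w - b‖) → 4 / 5 * ∏ b ∈ Bf R0, ‖w - ζ b‖ ≤ ∏ b ∈ Bf R0, ‖w - b‖ ∧
      ∏ b ∈ Bf R0, ‖w - b‖ ≤ 5 / 4 * ∏ b ∈ Bf R0, ‖w - ζ b‖ := fun w hw =>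
    prod_close hd0 hx0.le hx1 hnx hw fun b hb => ((hζ b hb).2.le.trans hδ'x)
  have hNe : 0 < NH e := by
    refine lt_of_le_of_ne (NH_nonneg _) fun h => hw1 (TT_zero_of_NH hG.1.1 h.symm w1)
  have hRR : 0 < R0 - R := by rw [hR0]; linarith
  have hRk : 0 < R + K.k := by linarith
  have hc1 := compare hRH hapos hG hg (q := (5 / 4 / (R0 - R)) ^ 2) (c := (4 / 5 / (R + K.k)) ^ 2) (sq_nonneg _)
    (by
      intro ρ
      set β : ℂ := (ρ : ℂ) - 1 / 2 with hβ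
      have hβZ : β + 1 / 2 ∈ DZ.Zs := by rw [hβ, sub_add_cancel]; exact ρ.2
      by_cases hβR : β ∈ Bf R0
      · rw [swap_zero (differentiable_TT hG.1.1).continuous (differentiable_TT hg.1).continuous hZz hgT hβR]
        rw [norm_zero, zero_pow two_ne_zero]
        positivity
      · have hβn : R0 < ‖β‖ := by
          by_contra h4
          exact hβR (mem_Bf.2 ⟨hβZ, not_lt.1 h4⟩)
        have hs : ∀ b ∈ Bf R0, d ≤ ‖β - b‖ := fun b hb => hsep b hb β hβZ fun h => hβR (h ▸ hb)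
        have h3 := hnormid β
        have h4 := (hclose β hs).2
        have h5 := hPpos β hs
        have h6 : R0 - R ≤ ‖β - z‖ := by
          have := norm_sub_norm_le β z
          linarith
        set P := ∏ b ∈ Bf R0, ‖β - ζ b‖ with hP
        have h7 : (R0 - R) * ‖TT g β‖ ≤ 5 / 4 * ‖TT e β‖ := by
          have h8 : P * ((R0 - R) * ‖TT g β‖) ≤ P * (5 / 4 * ‖TT e β‖) := by
            calc P * ((R0 - R) * ‖TT g β‖) ≤ P * (‖β - z‖ * ‖TT g β‖) :=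
                  mul_le_mul_of_nonneg_left (mul_le_mul_of_nonneg_right h6 (norm_nonneg _)) h5.le
              _ = ‖β - z‖ * P * ‖TT g β‖ := by ring
              _ = (∏ b ∈ Bf R0, ‖β - b‖) * ‖TT e β‖ := h3
              _ ≤ (5 / 4 * P) * ‖TT e β‖ := mul_le_mul_of_nonneg_right h4 (norm_nonneg _)
              _ = _ := by ring
          exact le_of_mul_le_mul_left h8 h5
        have h8 : ‖TT g β‖ ≤ 5 / 4 / (R0 - R) * ‖TT e β‖ := by
          rw [div_mul_eq_mul_div, le_div_iff₀ hRR]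
          linarith
        calc ‖TT g β‖ ^ 2 ≤ (5 / 4 / (R0 - R) * ‖TT e β‖) ^ 2 := pow_le_pow_left₀ (norm_nonneg _) h8 2
          _ = _ := by rw [mul_pow])
    (by
      unfold NH
      rw [← integral_const_mul]
      refine setIntegral_mono_on ((NH_int hG.1.1).const_mul _) (NH_int hg.1) wi_meas fun t ht => ?_
      have htk := mem_wi ht
      have hs : ∀ b ∈ Bf R0, d ≤ ‖(t * I : ℂ) - b‖ := fun b hb => hwsep b hb t ht
      have h3 := hnormid (t * I)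
      have h4 := (hclose _ hs).1
      have h5 := hPpos _ hs
      have h6 : ‖(t * I : ℂ) - z‖ ≤ R + K.k := by
        have h7 := norm_sub_le (t * I : ℂ) z
        have h8 : ‖(t * I : ℂ)‖ = |t| := by simp
        rw [h8] at h7
        linarith
      set P := ∏ b ∈ Bf R0, ‖(t * I : ℂ) - ζ b‖ with hP
      have h7 : 4 / 5 * ‖TT e (t * I)‖ ≤ (R + K.k) * ‖TT g (t * I)‖ := by
        have h8 : P * (4 / 5 * ‖TT e (t * I)‖) ≤ P * ((R + K.k) * ‖TT g (t * I)‖) := by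
          calc P * (4 / 5 * ‖TT e (t * I)‖) = (4 / 5 * P) * ‖TT e (t * I)‖ := by ring
            _ ≤ (∏ b ∈ Bf R0, ‖(t * I : ℂ) - b‖) * ‖TT e (t * I)‖ := mul_le_mul_of_nonneg_right h4 (norm_nonneg _)
            _ = ‖(t * I : ℂ) - z‖ * P * ‖TT g (t * I)‖ := h3.symm
            _ = P * (‖(t * I : ℂ) - z‖ * ‖TT g (t * I)‖) := by ring
            _ ≤ _ := mul_le_mul_of_nonneg_left (mul_le_mul_of_nonneg_right h6 (norm_nonneg _)) h5.le
        exact le_of_mul_le_mul_left h8 h5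
      have h8 : 4 / 5 / (R + K.k) * ‖TT e (t * I)‖ ≤ ‖TT g (t * I)‖ := by
        rw [div_mul_eq_mul_div, div_le_iff₀ hRk]
        linarith
      calc (4 / 5 / (R + K.k)) ^ 2 * ‖TT e (t * I)‖ ^ 2 = (4 / 5 / (R + K.k) * ‖TT e (t * I)‖) ^ 2 := by rw [mul_pow]
        _ ≤ _ := pow_le_pow_left₀ (by positivity) h8 2)
  have h3 : (4 / 5 / (R + K.k)) ^ 2 ≤ (5 / 4 / (R0 - R)) ^ 2 := by
    have h4 : 0 < GM a * NH e := by positivity
    have h5 : GM a * NH e * (4 / 5 / (R + K.k)) ^ 2 ≤ GM a * NH e * (5 / 4 / (R0 - R)) ^ 2 := by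
      calc _ = GM a * ((4 / 5 / (R + K.k)) ^ 2 * NH e) := by ring
        _ ≤ _ := hc1
        _ = _ := by ring
    exact le_of_mul_le_mul_left h5 h4
  have h4 : 4 / 5 / (R + K.k) ≤ 5 / 4 / (R0 - R) := abs_le_of_sq_le_sq' h3 (by positivity) |>.2
  rw [div_le_div_iff₀ hRk hRR] at h4
  rw [hR0] at h4
  nlinarith

/-- the zeros of the generator match the zeros -/
theorem matched (hRH : ∀ ρ : Zt, (ρ : ℂ).re = 1 / 2) (hwin : ∀ ρ : Zt, (ρ : ℂ).im ∉ wi (K := K))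
    (hnear : ∀ b : ℂ, b + 1 / 2 ∈ DZ.Zs → ∀ δ : ℝ, 0 < δ → ∃ a0 : ℝ, ∀ a : ℝ, a0 ≤ a → ∀ e : ℝ → ℂ, KK a e →
      ∃ w, TT e w = 0 ∧ ‖w - b‖ < δ) {R : ℝ} (hR : 0 ≤ R) :
    ∃ δ0 : ℝ, 0 < δ0 ∧ ∀ δ : ℝ, 0 < δ → δ ≤ δ0 → ∃ a0 : ℝ, 0 < a0 ∧ ∀ a : ℝ, a0 ≤ a → ∀ (e : ℝ → ℂ) (N : ℕ) (w1 : ℂ),
      GData a e N w1 → ∃ ζ : ℂ → ℂ, (∀ b ∈ Bf R, TT e (ζ b) = 0 ∧ ‖ζ b - b‖ < δ) ∧
        (∀ b ∈ Bf R, ∀ b' ∈ Bf R, ζ b = ζ b' → b = b') ∧
        ∀ z, TT e z = 0 → ‖z‖ ≤ R → ∃ b ∈ Bf R, z = ζ b := by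
  obtain ⟨δ0, hδ0, h⟩ := matched' hRH hwin hnear hR
  refine ⟨δ0, hδ0, fun δ hδ hδ' => ?_⟩
  obtain ⟨a0, ha0, h1⟩ := h δ hδ hδ'
  refine ⟨a0, ha0, fun a ha e N w1 hG => h1 a ha e hG.mem ⟨w1, hG.nz⟩ fun h0 => ?_⟩
  exact (zero_case hRH (by linarith) h0 hG).2

end Pool.Agent.Y23.G.CB
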